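import Pool.Agent.Lib.MP_81632f_ag.K3Alg

/-! Classes of codimension `i`: a version of `tate_comm` (helper85) in which only relations of
weight at most `i` are known to be trivial. -/

namespace Pool.Agent.Lib.MP81632f.K3

open Polynomial Module Module.End Pool.Agent.Lib.MP81632f
open scoped Pointwise

set_option linter.unusedSectionVars false

section main

variable {p : ℕ} [hp : Fact p.Prime] {a : ℕ} {P : ℚ[X]}

theorem tate_comm' (hW : IsWeil p (2 * a) P)
    (hgeom : ∀ (x y : Rts P) (N : ℕ), 0 < N →
      (x : P.SplittingField) ^ N = (y : P.SplittingField) ^ N → x = y)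
    (hnf : ∀ x : Rts P, barR hW x ≠ x) (i : ℕ)
    (hneat : ∀ (c : Rts P → ℤ) (N : ℕ) (M : ℤ), (∀ x, 0 ≤ c x) → ∑ x, c x ≤ i → 0 < N →
      (∏ x : Rts P, (x : P.SplittingField) ^ c x) ^ N = (p : P.SplittingField) ^ M →
      ∀ x, c x = c (barR hW x))
    {K R : Type*} [Field K] [CharZero K] [IsAlgClosed K] [CommRing R] [Algebra K R]
    (F : R →ₐ[K] R) (W : Submodule K R) [FiniteDimensional K W] (hFW : ∀ w ∈ W, F w ∈ W)
    (M : ℕ) (hM : 0 < M)
    (hF : ∀ w ∈ W, aeval F.toLinearMap
      ((X ^ M - C (((p : K) ^ a) ^ M)) * P.map (algebraMap ℚ K)) w = 0)
    (N : ℕ) (hN : 0 < N) (hMN : M ∣ N) (ω : R) (hω : ω ∈ W ^ i)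
    (hg : ω ∈ maxGenEigenspace (F ^ N).toLinearMap (((p : K) ^ a) ^ (N * i))) :
    (F ^ N) ω = ((p : K) ^ a) ^ (N * i) • ω ∧
    ω ∈ Algebra.adjoin K ({η : R | η ∈ W ∧ (F ^ N) η = ((p : K) ^ a) ^ N • η} ∪
      {η : R | η ∈ W ^ 2 ∧ (F ^ N) η = ((p : K) ^ a) ^ (N * 2) • η}) := by
  classical
  set q : K := (p : K) ^ a with hq
  have hq0 : q ≠ 0 := q_ne_zero K
  set Q : K := (p : K) ^ (2 * a) with hQ
  have hQ0 : Q ≠ 0 := q_ne_zero K
  have hQq : Q = q * q := by rw [hQ, hq, two_mul, pow_add]
  -- the polynomial is separable
  have hnoroot : ∀ z : K, aeval z P = 0 → z ^ M ≠ q ^ M := by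
    intro z hz h
    obtain ⟨x, rfl⟩ := emb_surj hW hz
    apply hnf x
    apply hgeom _ _ M hM
    rw [barR_coe, div_pow, div_eq_iff (pow_ne_zero _ (rts_ne_zero hW x))]
    have h1 : (x : P.SplittingField) ^ M = ((p : P.SplittingField) ^ a) ^ M := by
      apply (emb P K).toRingHom.injective
      change emb P K _ = emb P K _
      rw [map_pow, map_pow, map_pow, map_natCast]
      exact h
    rw [h1, two_mul, pow_add, mul_pow]
  have hcop : IsCoprime (X ^ M - C (q ^ M)) (P.map (algebraMap ℚ K)) := by
    rw [Polynomial.isCoprime_iff_aeval_ne_zero_of_isAlgClosed K K]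
    intro z
    by_contra hcon
    push Not at hcon
    obtain ⟨h1, h2⟩ := hcon
    rw [aeval_map_algebraMap] at h2
    apply hnoroot z h2
    simpa [sub_eq_zero] using h1
  have hsep : ((X ^ M - C (q ^ M)) * P.map (algebraMap ℚ K)).Separable := by
    refine Separable.mul ?_ (hW.irr.separable.map) hcop
    refine separable_X_pow_sub_C _ ?_ (pow_ne_zero _ hq0)
    exact_mod_cast hM.ne'
  set F' := F.toLinearMap.restrict hFW with hF'
  have hF0 : aeval F' ((X ^ M - C (q ^ M)) * P.map (algebraMap ℚ K)) = 0 := by
    ext w
    have h1 := aeval_restrict_apply F.toLinearMap W hFW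
      ((X ^ M - C (q ^ M)) * P.map (algebraMap ℚ K)) w
    rw [hF w.1 w.2] at h1
    rw [LinearMap.zero_apply]
    exact h1
  have hss : IsSemisimple F' := isSemisimple_of_squarefree_aeval_eq_zero hsep.squarefree hF0
  have htop := hss.iSup_eigenspace_eq_top
  set J := {w : W // ∃ μ : K, F' w = μ • w ∧ w ≠ 0} with hJ
  let lam : J → K := fun j => j.2.choose
  have hlam' : ∀ j : J, F' j.1 = lam j • j.1 ∧ j.1 ≠ 0 := fun j => j.2.choose_spec
  let e : J → R := fun j => ((j.1 : W) : R)
  have hlam : ∀ j : J, F (e j) = lam j • e j := by
    intro j
    exact congrArg Subtype.val (hlam' j).1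
  have hspan' : Submodule.span K (Set.range (fun j : J => j.1)) = ⊤ := by
    rw [eq_top_iff, ← htop]
    refine iSup_le (fun μ => ?_)
    intro w hw
    by_cases h0 : w = 0
    · rw [h0]; exact Submodule.zero_mem _
    · apply Submodule.subset_span
      exact ⟨⟨w, μ, mem_eigenspace_iff.mp hw, h0⟩, rfl⟩
  have hspan : Submodule.span K (Set.range e) = W := by
    have h1 : Set.range e = W.subtype '' (Set.range (fun j : J => j.1)) := by
      rw [← Set.range_comp]
      rfl
    rw [h1, ← Submodule.map_span, hspan', Submodule.map_top, Submodule.range_subtype]
  have hroot : ∀ j : J, lam j ^ M = q ^ M ∨ aeval (lam j) P = 0 := by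
    intro j
    have h1 : Module.End.HasEigenvector F' (lam j) j.1 :=
      ⟨mem_eigenspace_iff.mpr (hlam' j).1, (hlam' j).2⟩
    have h2 := aeval_apply_of_hasEigenvector
      (p := (X ^ M - C (q ^ M)) * P.map (algebraMap ℚ K)) h1
    rw [hF0, LinearMap.zero_apply] at h2
    have h3 := (smul_eq_zero.mp h2.symm).resolve_right (hlam' j).2
    rw [eval_mul] at h3
    rcases mul_eq_zero.mp h3 with h4 | h4
    · left
      simpa [sub_eq_zero] using h4
    · right
      rwa [eval_map, ← aeval_def] at h4
  have hne : ∀ j, lam j ≠ 0 := by
    intro j
    rcases hroot j with h | h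
    · intro h0
      rw [h0, zero_pow hM.ne'] at h
      exact pow_ne_zero M hq0 h.symm
    · exact root_ne_zero hW h
  -- lists
  set T : End K R := (F ^ N).toLinearMap with hT
  set S : Set R := Set.range e with hS
  have hTe : ∀ j, (F ^ N) (e j) = lam j ^ N • e j := fun j => pow_eig F N (hlam j)
  have hω' : ω ∈ Submodule.span K (S ^ i) := by
    rw [← Submodule.span_pow, hspan]
    exact hω
  have hlist : ∀ s ∈ S ^ i, ∃ l : List J, l.length = i ∧ s = (l.map e).prod := by
    intro s hs
    rw [Set.mem_pow] at hs
    obtain ⟨f, rfl⟩ := hs
    choose g hg' using fun t => (f t).2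
    refine ⟨List.ofFn g, List.length_ofFn, ?_⟩
    rw [List.map_ofFn]
    congr 2
    funext t
    exact (hg' t).symm
  have hTprod : ∀ l : List J, T (l.map e).prod
      = (l.map (fun j => lam j ^ N)).prod • (l.map e).prod := by
    intro l
    rw [hT]
    change (F ^ N) _ = _
    induction l with
    | nil => simp
    | cons j l ih =>
      simp only [List.map_cons, List.prod_cons, map_mul, ih, hTe]
      rw [smul_mul_smul_comm]
  have hS' : ∀ s ∈ S ^ i, ∃ ν : K, T s = ν • s := by
    intro s hs
    obtain ⟨l, -, rfl⟩ := hlist s hs
    exact ⟨_, hTprod l⟩
  have hmem := mem_span_eigen T (S ^ i) hS' _ hω' hg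
  constructor
  · have : Submodule.span K {s ∈ S ^ i | T s = q ^ (N * i) • s} ≤ T.eigenspace (q ^ (N * i)) := by
      rw [Submodule.span_le]
      intro s hs
      exact mem_eigenspace_iff.mpr hs.2
    exact mem_eigenspace_iff.mp (this hmem)
  · set A := Algebra.adjoin K ({η : R | η ∈ W ∧ (F ^ N) η = q ^ N • η} ∪
      {η : R | η ∈ W ^ 2 ∧ (F ^ N) η = q ^ (N * 2) • η}) with hAdef
    have heW : ∀ j, e j ∈ W := fun j => (j.1 : W).2
    have : Submodule.span K {s ∈ S ^ i | T s = q ^ (N * i) • s} ≤ Subalgebra.toSubmodule A := by
      rw [Submodule.span_le]
      rintro s ⟨hs, hs2⟩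
      obtain ⟨l, hl, rfl⟩ := hlist s hs
      by_cases h0 : (l.map e).prod = 0
      · rw [h0]; exact Submodule.zero_mem _
      have hprod : (l.map (fun j => lam j ^ N)).prod = q ^ (N * i) := by
        rw [hTprod] at hs2
        have h3 : ((l.map (fun j => lam j ^ N)).prod - q ^ (N * i)) • (l.map e).prod = 0 := by
          rw [sub_smul, hs2, sub_self]
        exact sub_eq_zero.mp ((smul_eq_zero.mp h3).resolve_right h0)
      -- split the list
      set l1 := l.filter (fun j => decide (aeval (lam j) P = 0)) with hl1
      set l2 := l.filter (fun j => ! decide (aeval (lam j) P = 0)) with hl2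
      have hperm : (l1 ++ l2).Perm l := List.filter_append_perm _ l
      have hl1r : ∀ j ∈ l1, aeval (lam j) P = 0 := by
        intro j hj
        rw [hl1, List.mem_filter] at hj
        simpa using hj.2
      have hl2r : ∀ j ∈ l2, lam j ^ N = q ^ N := by
        intro j hj
        rw [hl2, List.mem_filter] at hj
        have h1 : ¬ aeval (lam j) P = 0 := by simpa using hj.2
        have h2 := (hroot j).resolve_right h1
        obtain ⟨c, hc⟩ := hMN
        rw [hc, pow_mul, h2, ← pow_mul]
      have hlen : l1.length + l2.length = i := by
        rw [← List.length_append, hperm.length_eq, hl]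
      have hprod2 : ∀ l' : List J, (∀ j ∈ l', lam j ^ N = q ^ N) →
          (l'.map (fun j => lam j ^ N)).prod = q ^ (N * l'.length) := by
        intro l' hl'
        induction l' with
        | nil => simp
        | cons j l' ih =>
          rw [List.map_cons, List.prod_cons, hl' j List.mem_cons_self,
            ih (fun i hi => hl' i (List.mem_cons_of_mem _ hi)), List.length_cons, ← pow_add]
          congr 1
          ring
      have hprod1 : (l1.map (fun j => lam j ^ N)).prod = q ^ (N * l1.length) := by
        have h1 := (hperm.map (fun j => lam j ^ N)).prod_eq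
        rw [List.map_append, List.prod_append, hprod, hprod2 l2 hl2r, ← hlen, mul_add, pow_add] at h1
        exact mul_right_cancel₀ (pow_ne_zero _ hq0) h1
      rw [← (hperm.map e).prod_eq, List.map_append, List.prod_append]
      refine A.mul_mem ?_ ?_
      · refine prod_mem_comm A e lam Q hQ0 hne _ l1 rfl ?_ ?_ ?_
        · intro j _ j' _ hjj'
          apply Algebra.subset_adjoin
          right
          refine ⟨?_, ?_⟩
          · rw [pow_two]
            exact Submodule.mul_mem_mul (heW j) (heW j')
          · rw [map_mul, hTe, hTe, smul_mul_smul_comm, ← mul_pow, hjj', hQq, ← pow_two, ← pow_mul]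
            congr 2
            ring
        · intro j hj hjj
          obtain ⟨x, hx⟩ := emb_surj hW (hl1r j hj)
          apply hnf x
          apply emb_inj (K := K)
          rw [emb_bar hW, hx, div_eq_iff (hne j), hjj]
        · intro c hc
          have hprod1' : (l1.map (fun j => lam j ^ N)).prod = (p : K) ^ (a * (N * l1.length)) := by
            rw [hprod1, hq, ← pow_mul]
          -- restrict to indices with root eigenvalues
          obtain ⟨x0, hx0⟩ : ∃ x0 : Rts P, True := by
            have h1 := hW.irr.natDegree_pos
            rw [← card_rts hW] at h1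
            obtain ⟨x0⟩ := Fintype.card_pos_iff.mp h1
            exact ⟨x0, trivial⟩
          have hcount : (∏ x : Rts P, (emb P K x) ^ (l1.countP (fun j => decide (lam j = emb P K x))))
              = (l1.map lam).prod := by
            have hall : ∀ l' : List J, (∀ j ∈ l', aeval (lam j) P = 0) →
                ∏ x : Rts P, (emb P K x) ^ (l'.countP (fun j => decide (lam j = emb P K x)))
                  = (l'.map lam).prod := by
              intro l' hl'
              induction l' with
              | nil => simp
              | cons j l' ih =>
                simp only [List.countP_cons, pow_add, Finset.prod_mul_distrib,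
                  ih (fun i hi => hl' i (List.mem_cons_of_mem _ hi)), List.map_cons,
                  List.prod_cons]
                rw [mul_comm]
                congr 1
                obtain ⟨x1, hx1⟩ := emb_surj hW (hl' j List.mem_cons_self)
                rw [Finset.prod_eq_single x1]
                · simp [hx1]
                · intro y _ hy
                  have : ¬ lam j = emb P K y := by
                    intro h
                    apply hy
                    exact emb_inj (h.symm.trans hx1.symm)
                  simp [this]
                · intro h; exact absurd (Finset.mem_univ _) h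
            exact hall l1 hl1r
          have h1 : (∏ x : Rts P, (x : P.SplittingField) ^
              ((l1.countP (fun j => decide (lam j = emb P K x)) : ℕ) : ℤ)) ^ N
              = (p : P.SplittingField) ^ (((a * (N * l1.length) : ℕ) : ℤ)) := by
            apply (emb P K).toRingHom.injective
            change emb P K _ = emb P K _
            simp only [zpow_natCast]
            rw [map_pow, map_prod, map_pow, map_natCast]
            simp only [map_pow]
            rw [hcount, ← hprod1']
            have h2 : ∀ l : List J, (l.map lam).prod ^ N = (l.map (fun j => lam j ^ N)).prod := by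
              intro l
              induction l with
              | nil => simp
              | cons j l ih => simp only [List.map_cons, List.prod_cons, mul_pow, ih]
            rw [h2]
          by_cases hcr : aeval c P = 0
          · obtain ⟨x, hx⟩ := emb_surj hW hcr
            have hsum : ∑ x : Rts P, ((l1.countP (fun j => decide (lam j = emb P K x)) : ℕ) : ℤ)
                ≤ (i : ℤ) := by
              have hall : ∀ l' : List J, (∀ j ∈ l', aeval (lam j) P = 0) →
                  ∑ x : Rts P, l'.countP (fun j => decide (lam j = emb P K x)) = l'.length := by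
                intro l' hl'
                induction l' with
                | nil => simp
                | cons j l' ih =>
                  simp only [List.countP_cons, Finset.sum_add_distrib,
                    ih (fun i hi => hl' i (List.mem_cons_of_mem _ hi)), List.length_cons]
                  congr 1
                  obtain ⟨x1, hx1⟩ := emb_surj hW (hl' j List.mem_cons_self)
                  rw [Finset.sum_eq_single x1]
                  · simp [hx1]
                  · intro y _ hy
                    have : ¬ lam j = emb P K y := by
                      intro h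
                      apply hy
                      exact emb_inj (h.symm.trans hx1.symm)
                    simp [this]
                  · intro h; exact absurd (Finset.mem_univ _) h
              have h3 := hall l1 hl1r
              have h4 : l1.length ≤ i := by omega
              calc ∑ x : Rts P, ((l1.countP (fun j => decide (lam j = emb P K x)) : ℕ) : ℤ)
                  = ((∑ x : Rts P, l1.countP (fun j => decide (lam j = emb P K x)) : ℕ) : ℤ) := by
                    push_cast; rfl
                _ = (l1.length : ℤ) := by rw [h3]
                _ ≤ i := by exact_mod_cast h4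
            have h2 := hneat _ N _ (fun x => by positivity) hsum hN h1 x
            rw [emb_bar hW, hx, ← hQ] at h2
            exact Nat.cast_injective (R := ℤ) h2
          · have hcr' : ¬ aeval (Q / c) P = 0 := by
              intro h3
              apply hcr
              have h4 := bar_root hW h3
              rwa [← hQ, div_div_cancel₀ hQ0] at h4
            have e1 : l1.countP (fun j => decide (lam j = c)) = 0 := by
              rw [List.countP_eq_zero]
              intro j hj
              simp only [decide_eq_true_eq]
              rintro rfl
              exact hcr (hl1r j hj)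
            have e2 : l1.countP (fun j => decide (lam j = Q / c)) = 0 := by
              rw [List.countP_eq_zero]
              intro j hj
              simp only [decide_eq_true_eq]
              intro h5
              exact hcr' (h5 ▸ hl1r j hj)
            rw [e1, e2]
      · have : ∀ l' : List J, (∀ j ∈ l', lam j ^ N = q ^ N) → (l'.map e).prod ∈ A := by
          intro l' hl'
          induction l' with
          | nil => simp
          | cons j l' ih =>
            rw [List.map_cons, List.prod_cons]
            refine A.mul_mem ?_ (ih (fun i hi => hl' i (List.mem_cons_of_mem _ hi)))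
            apply Algebra.subset_adjoin
            left
            exact ⟨heW j, by rw [hTe, hl' j List.mem_cons_self]⟩
        exact this l2 hl2r
    exact this hmem

end main

end Pool.Agent.Lib.MP81632f.K3
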