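import Pool.Agent.Lib.MP_81632f_ag.K3.CaseG2

/-! The case `d = m = 9`, and the conclusion of the combinatorial part. -/

namespace Pool.Agent.Lib.MP81632f.K3

open MulAction Pool.Agent.Lib.MP81632f

set_option linter.unusedSectionVars false

section

variable {G R : Type*} [Group G] [Finite G] [MulAction G R] [Fintype R] [DecidableEq R]
  {bar : R → R} {v u : R → ℤ} {d m : ℕ}

/-- If `d = m = l ^ k` and there is a nonzero relation, then the number of sign changes of each
translate of `v` is divisible by `l`. -/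
theorem dvd_sum_translate (h : K3System G R bar v d m) (l : ℕ) [hl : Fact l.Prime] (k : ℕ)
    (hm : m = l ^ k) (hdm : d = m) (hu : IsRel G bar v u) (hu0 : u ≠ 0) (g : G) :
    (l : ℤ) ∣ ∑ x ∈ Finset.univ.filter (fun x => v x = 1), v (g • x) := by
  classical
  obtain ⟨P, hP, hst, htr⟩ := exists_pgroup h l k hm
  obtain ⟨w, hw, ⟨x1, hx1⟩, hfix⟩ := exists_fixed' h.signed l P hP hu hu0
  have hm0 : 0 < m := by rw [hm]; exact pow_pos hl.out.pos k
  obtain ⟨x0, hx0⟩ := h.exists_pos hm0
  have hnf := nofix h.signed (z := x0) (by rw [hx0]; norm_num)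
  have hz : ∀ x, v x ≠ 0 := by
    intro x hx
    have h1 := card_zero h
    have h2 : 0 < (Finset.univ.filter (fun x => v x = 0)).card :=
      Finset.card_pos.mpr ⟨x, by simp [hx]⟩
    omega
  set a : ZMod l := ((w x0 : ℤ) : ZMod l) with ha
  have hwa : ∀ x, v x = 1 → ((w x : ℤ) : ZMod l) = a := by
    intro x hx
    obtain ⟨g, hg, hgx⟩ := htr x0 x hx0 hx
    rw [← hgx, hfix g hg]
  have ha0 : a ≠ 0 := by
    intro h0
    apply hx1
    rw [← ZMod.intCast_zmod_eq_zero_iff_dvd]
    rcases h.val x1 with h3 | h3 | h3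
    · rw [hwa x1 h3, h0]
    · exact absurd h3 (hz x1)
    · have h4 : v (bar x1) = 1 := by rw [h.signed.m_bar, h3]; norm_num
      have h5 := hwa _ h4
      rw [hw.1, h0] at h5
      push_cast at h5
      exact neg_eq_zero.mp h5
  set T : Finset R := Finset.univ.filter (fun x => v x = 1) with hT
  have hhalf : IsHalf bar T := by
    refine ⟨fun x => ?_, fun x hx hbx => ?_⟩
    · simp only [hT, Finset.mem_filter, Finset.mem_univ, true_and, h.signed.m_bar]
      rcases h.val x with h3 | h3 | h3
      · exact Or.inl h3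
      · exact absurd h3 (hz x)
      · right; rw [h3]; norm_num
    · simp only [hT, Finset.mem_filter, Finset.mem_univ, true_and, h.signed.m_bar] at hx hbx
      rw [hx] at hbx
      norm_num at hbx
  have h1 := rel_half h.signed hnf hw hhalf g
  have h2 : ((∑ x ∈ T, w x * v (g • x) : ℤ) : ZMod l)
      = a * ((∑ x ∈ T, v (g • x) : ℤ) : ZMod l) := by
    push_cast
    rw [Finset.mul_sum]
    refine Finset.sum_congr rfl (fun x hx => ?_)
    rw [hT, Finset.mem_filter] at hx
    rw [hwa x hx.2]
  rw [h1] at h2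
  simp only [Int.cast_zero] at h2
  have h3 := (mul_eq_zero.mp h2.symm).resolve_left ha0
  rwa [ZMod.intCast_zmod_eq_zero_iff_dvd] at h3

/-- translates of translates -/
theorem sum_translate_mul (h : K3System G R bar v d m) (hdm : d = m) (hnf : ∀ x, bar x ≠ x)
    (g t : G) :
    ∑ x ∈ Finset.univ.filter (fun x => v x = 1), v (g • x) * v (t • x)
      = ∑ x ∈ Finset.univ.filter (fun x => v x = 1), v ((g * t⁻¹) • x) := by
  classical
  have hz : ∀ x, v x ≠ 0 := by
    intro x hx
    have h1 := card_zero h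
    have h2 : 0 < (Finset.univ.filter (fun x => v x = 0)).card :=
      Finset.card_pos.mpr ⟨x, by simp [hx]⟩
    omega
  set T : Finset R := Finset.univ.filter (fun x => v x = 1) with hT
  have hhalf : IsHalf bar T := by
    refine ⟨fun x => ?_, fun x hx hbx => ?_⟩
    · simp only [hT, Finset.mem_filter, Finset.mem_univ, true_and, h.signed.m_bar]
      rcases h.val x with h3 | h3 | h3
      · exact Or.inl h3
      · exact absurd h3 (hz x)
      · right; rw [h3]; norm_num
    · simp only [hT, Finset.mem_filter, Finset.mem_univ, true_and, h.signed.m_bar] at hx hbx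
      rw [hx] at hbx
      norm_num at hbx
  have e1 := sum_half h.signed.bar_bar hnf hhalf (fun x => v (g • x) * v (t • x)) (fun x => by

    rw [← h.signed.bar_smul, ← h.signed.bar_smul, h.signed.m_bar, h.signed.m_bar]; ring)
  have e2 := sum_half h.signed.bar_bar hnf hhalf (fun x => v ((g * t⁻¹) • x) * v x) (fun x => by

    rw [← h.signed.bar_smul, h.signed.m_bar, h.signed.m_bar]; ring)
  have e3 : ∑ x, v (g • x) * v (t • x) = ∑ x, v ((g * t⁻¹) • x) * v x := by
    refine Fintype.sum_equiv (MulAction.toPerm t) _ _ (fun x => ?_)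
    simp only [MulAction.toPerm_apply, mul_smul, inv_smul_smul]
  have e4 : ∑ x ∈ T, v ((g * t⁻¹) • x) * v x = ∑ x ∈ T, v ((g * t⁻¹) • x) := by
    refine Finset.sum_congr rfl (fun x hx => ?_)
    rw [hT, Finset.mem_filter] at hx
    rw [hx.2, mul_one]
  rw [e3, e2, e4] at e1
  linarith

/-- Combinatorics of sign vectors on nine points. -/
theorem nine {S : Type*} [DecidableEq S] (T : Finset S) (hT : T.card = 9) {I : Type*}
    (a : I → S → ℤ) (ha : ∀ i, ∀ x ∈ T, a i x = 1 ∨ a i x = -1) (h1 : ∀ i, (3 : ℤ) ∣ ∑ x ∈ T, a i x)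
    (h2 : ∀ i j, (3 : ℤ) ∣ ∑ x ∈ T, a i x * a j x) :
    ∃ x ∈ T, ∃ y ∈ T, x ≠ y ∧ ∀ i, a i x = a i y := by
  classical
  -- the set of minority signs
  have hsum : ∀ i, ∑ x ∈ T, a i x = 9 - 2 * ((T.filter (fun x => a i x = -1)).card : ℤ) := by
    intro i
    have e1 : ∑ x ∈ T, a i x = ∑ x ∈ T, (1 - 2 * (if a i x = -1 then (1 : ℤ) else 0)) := by
      refine Finset.sum_congr rfl (fun x hx => ?_)
      rcases ha i x hx with h | h <;> rw [h] <;> norm_num
    rw [e1, Finset.sum_sub_distrib, ← Finset.mul_sum, Finset.card_filter]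
    simp [hT]
  -- normalised sets
  have hnorm : ∀ i, ∃ A ⊆ T, ∃ e : ℤ, (e = 1 ∨ e = -1) ∧ (A.card = 0 ∨ A.card = 3) ∧
      ∀ x ∈ T, a i x = e * (if x ∈ A then -1 else 1) := by
    intro i
    set B := T.filter (fun x => a i x = -1) with hB
    have hBc : B.card ≤ 9 := by rw [← hT]; exact Finset.card_filter_le _ _
    have h3 := h1 i
    rw [hsum i] at h3
    have h4 : B.card = 0 ∨ B.card = 3 ∨ B.card = 6 ∨ B.card = 9 := by
      rw [← hB] at h3
      omega
    have hBmem : ∀ x ∈ T, a i x = if x ∈ B then -1 else 1 := by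
      intro x hx
      by_cases hxB : x ∈ B
      · rw [if_pos hxB]; exact (Finset.mem_filter.mp hxB).2
      · rw [if_neg hxB]
        rcases ha i x hx with h | h
        · exact h
        · exact absurd (Finset.mem_filter.mpr ⟨hx, h⟩) hxB
    have hsd : (T \ B).card = 9 - B.card := by
      rw [Finset.card_sdiff_of_subset (Finset.filter_subset _ _), hT]
    rcases h4 with h4 | h4 | h4 | h4
    · exact ⟨B, Finset.filter_subset _ _, 1, Or.inl rfl, Or.inl h4, fun x hx => by rw [hBmem x hx]; ring⟩
    · exact ⟨B, Finset.filter_subset _ _, 1, Or.inl rfl, Or.inr h4, fun x hx => by rw [hBmem x hx]; ring⟩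
    · refine ⟨T \ B, Finset.sdiff_subset, -1, Or.inr rfl, Or.inr (by rw [hsd, h4]), fun x hx => ?_⟩
      rw [hBmem x hx]
      by_cases hxB : x ∈ B <;> simp [hxB, hx]
    · refine ⟨T \ B, Finset.sdiff_subset, -1, Or.inr rfl, Or.inl (by rw [hsd, h4]), fun x hx => ?_⟩
      rw [hBmem x hx]
      by_cases hxB : x ∈ B <;> simp [hxB, hx]
  choose A hAT e he hAc hA using hnorm
  -- two nonempty normalised sets are equal or disjoint
  have hdis : ∀ i j, (A i).card = 3 → (A j).card = 3 → A i = A j ∨ Disjoint (A i) (A j) := by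
    intro i j hi hj
    have h3 := h2 i j
    have e1 : ∑ x ∈ T, a i x * a j x = e i * e j * ∑ x ∈ T, ((if x ∈ A i then (-1 : ℤ) else 1) *
        (if x ∈ A j then -1 else 1)) := by
      rw [Finset.mul_sum]
      refine Finset.sum_congr rfl (fun x hx => ?_)
      rw [hA i x hx, hA j x hx]; ring
    have e2 : ∑ x ∈ T, ((if x ∈ A i then (-1 : ℤ) else 1) * (if x ∈ A j then -1 else 1))
        = 9 - 2 * (A i).card - 2 * (A j).card + 4 * ((A i ∩ A j).card : ℤ) := by
      have e3 : ∀ x ∈ T, ((if x ∈ A i then (-1 : ℤ) else 1) * (if x ∈ A j then -1 else 1))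
          = 1 - 2 * (if x ∈ A i then 1 else 0) - 2 * (if x ∈ A j then 1 else 0)
            + 4 * (if x ∈ A i ∩ A j then 1 else 0) := by
        intro x _
        simp only [Finset.mem_inter]
        by_cases hi : x ∈ A i <;> by_cases hj : x ∈ A j <;> simp [hi, hj]
      rw [Finset.sum_congr rfl e3, Finset.sum_add_distrib, Finset.sum_sub_distrib,
        Finset.sum_sub_distrib, ← Finset.mul_sum, ← Finset.mul_sum, ← Finset.mul_sum]
      have e4 : ∀ B ⊆ T, ∑ x ∈ T, (if x ∈ B then (1 : ℤ) else 0) = B.card := by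
        intro B hB
        rw [Finset.sum_boole, Finset.filter_mem_eq_inter, Finset.inter_eq_right.mpr hB]
      rw [e4 _ (hAT i), e4 _ (hAT j), e4 _ (Finset.inter_subset_left.trans (hAT i))]
      simp [hT]
    rw [e1, e2, hi, hj] at h3
    have h4 : (3 : ℤ) ∣ 9 - 2 * ((3 : ℕ) : ℤ) - 2 * ((3 : ℕ) : ℤ) + 4 * ((A i ∩ A j).card : ℤ) := by
      rcases he i with h | h <;> rcases he j with h' | h' <;> rw [h, h'] at h3 <;> omega
    have h5 : (A i ∩ A j).card ≤ 3 := by rw [← hi]; exact Finset.card_le_card Finset.inter_subset_left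
    have h6 : (A i ∩ A j).card = 0 ∨ (A i ∩ A j).card = 3 := by omega
    rcases h6 with h6 | h6
    · right
      rw [Finset.card_eq_zero] at h6
      exact Finset.disjoint_iff_inter_eq_empty.mpr h6
    · left
      have h7 : A i ∩ A j = A i := Finset.eq_of_subset_of_card_le Finset.inter_subset_left (by rw [h6, hi])
      have h8 : A i ∩ A j = A j := Finset.eq_of_subset_of_card_le Finset.inter_subset_right (by rw [h6, hj])
      rw [← h7, h8]
  by_cases hex : ∃ i, (A i).card = 3
  · obtain ⟨i, hi⟩ := hex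
    obtain ⟨x, hx, y, hy, hxy⟩ := Finset.one_lt_card.mp (by rw [hi]; norm_num : 1 < (A i).card)
    refine ⟨x, hAT i hx, y, hAT i hy, hxy, fun j => ?_⟩
    rw [hA j x (hAT i hx), hA j y (hAT i hy)]
    rcases hAc j with hj | hj
    · rw [Finset.card_eq_zero] at hj
      simp [hj]
    · rcases hdis i j hi hj with h3 | h3
      · rw [← h3]; simp [hx, hy]
      · have h4 := Finset.disjoint_left.mp h3 hx
        have h5 := Finset.disjoint_left.mp h3 hy
        simp [h4, h5]
  · push Not at hex
    obtain ⟨x, hx, y, hy, hxy⟩ := Finset.one_lt_card.mp (by rw [hT]; norm_num : 1 < T.card)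
    refine ⟨x, hx, y, hy, hxy, fun j => ?_⟩
    rw [hA j x hx, hA j y hy]
    have hj := (hAc j).resolve_right (hex j)
    rw [Finset.card_eq_zero] at hj
    simp [hj]

theorem case_nine (h : K3System G R bar v 9 9) (hu : IsRel G bar v u) : u = 0 := by
  classical
  by_contra hu0
  have hl : Fact (Nat.Prime 3) := ⟨Nat.prime_three⟩
  obtain ⟨x0, hx0⟩ := h.exists_pos (by norm_num)
  have hnf := nofix h.signed (z := x0) (by rw [hx0]; norm_num)
  have hz : ∀ x, v x ≠ 0 := by
    intro x hx
    have h1 := card_zero h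
    have h2 : 0 < (Finset.univ.filter (fun x => v x = 0)).card :=
      Finset.card_pos.mpr ⟨x, by simp [hx]⟩
    omega
  have hdv := fun g => dvd_sum_translate h 3 2 (by norm_num) rfl hu hu0 g
  obtain ⟨x, hx, y, hy, hxy, hall⟩ := nine (Finset.univ.filter (fun x => v x = 1)) h.cardm
    (fun (g : G) x => v (g • x)) (fun g x _ => by
      rcases h.val (g • x) with h3 | h3 | h3
      · exact Or.inl h3
      · exact absurd h3 (hz _)
      · exact Or.inr h3) (fun g => by exact_mod_cast hdv g) (fun g t => by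
      have := hdv (g * t⁻¹)
      rw [← sum_translate_mul h rfl hnf g t] at this
      exact_mod_cast this)
  exact hxy (h.sep x y hall)

/-- The combinatorial theorem. -/
theorem core_k3 (h : K3System G R bar v d m) (hg : GoodPair d m) (hu : IsRel G bar v u) : u = 0 := by
  obtain ⟨hodd, hmd, h1 | h1 | ⟨k, h1⟩ | h1 | ⟨h1, h2⟩ | ⟨rfl, rfl⟩⟩ := hg
  · subst h1
    exact case_one h hu
  · rcases lt_or_eq_of_le hmd with h2 | h2
    · exact case_prime h hodd h1 h2 hu
    · refine case_big_prime h (h2 ▸ h1) hodd ?_ hu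
      have := hodd.pos
      omega
  · exact case_two_pow h hodd k h1 hu
  · exact case_almost h hodd h1 hu
  · exact case_big_prime h h1 hodd h2 hu
  · exact case_nine h hu

/-- For `d ≤ 10` all pairs with `m` odd are covered, except four. -/
theorem goodPair_le_ten (d m : ℕ) (hd : d ≤ 10) (hm : Odd m) (hmd : m ≤ d)
    (hne : (d, m) ≠ (6, 3) ∧ (d, m) ≠ (9, 3) ∧ (d, m) ≠ (10, 3) ∧ (d, m) ≠ (10, 5)) :
    GoodPair d m := by
  refine ⟨hm, hmd, ?_⟩
  have hm10 : m ≤ 10 := hmd.trans hd
  interval_cases d <;> interval_cases m <;> first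
    | (exfalso; revert hm; decide)
    | (exfalso; revert hne; decide)
    | (left; rfl)
    | (right; left; decide)
    | (right; right; left; exact ⟨2, rfl⟩)
    | (right; right; left; exact ⟨3, rfl⟩)
    | (right; right; right; left; rfl)
    | (right; right; right; right; left; decide)
    | (right; right; right; right; right; exact ⟨rfl, rfl⟩)

end

end Pool.Agent.Lib.MP81632f.K3
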