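import Pool.Agent.Lib.MP_81632f_ag.K3.PGroup

/-! The case `m` an odd prime, `d < 2 m`. -/

namespace Pool.Agent.Lib.MP81632f.K3

open MulAction Pool.Agent.Lib.MP81632f Polynomial

set_option linter.unusedSectionVars false

theorem poly_lemma (l : ℕ) (hl : l.Prime) (f : ℚ[X]) (hdeg : f.natDegree < l) (hf0 : f ≠ 0)
    (hf1 : f.eval 1 = 0) : ∃ a b : ℚ[X], a * (X ^ l - 1) + b * f = X - 1 := by
  have hF : Fact l.Prime := ⟨hl⟩
  have hirr : Irreducible (cyclotomic l ℚ) := cyclotomic.irreducible_rat hl.pos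
  have hmul : cyclotomic l ℚ * (X - 1) = X ^ l - 1 := cyclotomic_prime_mul_X_sub_one ℚ l
  have hnd : ¬ cyclotomic l ℚ ∣ f := by
    intro hd
    have h1 : (X - 1 : ℚ[X]) ∣ f := by
      have h := dvd_iff_isRoot.mpr (show IsRoot f 1 from hf1)
      rwa [C_1] at h
    have hcop : IsCoprime (cyclotomic l ℚ) (X - 1 : ℚ[X]) := by
      rw [hirr.coprime_iff_not_dvd]
      intro h2
      have h3 : (cyclotomic l ℚ).eval 1 = 0 := by
        obtain ⟨q, hq⟩ := h2
        have h5 : Associated (cyclotomic l ℚ) (X - 1 : ℚ[X]) := by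
          refine associated_of_dvd_dvd ⟨q, hq⟩ ?_
          refine hirr.dvd_symm (irreducible_of_degree_eq_one ?_) ⟨q, hq⟩
          rw [← C_1]; exact degree_X_sub_C 1
        have h6 : (X - 1 : ℚ[X]) ∣ cyclotomic l ℚ := h5.symm.dvd
        have h7 : (X - C 1 : ℚ[X]) ∣ cyclotomic l ℚ := by rwa [C_1]
        exact dvd_iff_isRoot.mp h7
      rw [eval_one_cyclotomic_prime] at h3
      exact hl.ne_zero (by exact_mod_cast h3)
    have h2 := hcop.mul_dvd hd h1
    rw [hmul] at h2
    have h3 := natDegree_le_of_dvd h2 hf0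
    have h4 : (X ^ l - 1 : ℚ[X]).natDegree = l := by
      rw [← C_1]; exact natDegree_X_pow_sub_C
    omega
  obtain ⟨a, b, hab⟩ := (hirr.coprime_iff_not_dvd).mpr hnd
  refine ⟨a, b * (X - 1), ?_⟩
  rw [← hmul]
  linear_combination (X - 1 : ℚ[X]) * hab

theorem cyc_lemma {V : Type*} [AddCommGroup V] [Module ℚ V] (T : V →ₗ[ℚ] V) (e : V) (l : ℕ)
    (hl : l.Prime) (hT : (T ^ l) e = e) (U : Submodule ℚ V) (hU : ∀ u ∈ U, T u ∈ U) (c : ℕ → ℚ)
    (hw : ∑ i ∈ Finset.range l, c i • (T ^ i) e ∈ U) (hc : ∑ i ∈ Finset.range l, c i = 0)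
    (hc0 : ∃ i < l, c i ≠ 0) : T e - e ∈ U := by
  set f : ℚ[X] := ∑ i ∈ Finset.range l, monomial i (c i) with hf
  have hfe : aeval T f e = ∑ i ∈ Finset.range l, c i • (T ^ i) e := by
    rw [hf, map_sum, LinearMap.sum_apply]
    refine Finset.sum_congr rfl (fun i _ => ?_)
    rw [aeval_monomial]
    simp
  have hcoeff : ∀ i < l, f.coeff i = c i := by
    intro i hi
    rw [hf, finsetSum_coeff]
    rw [Finset.sum_eq_single i]
    · rw [coeff_monomial, if_pos rfl]
    · intro j _ hj
      rw [coeff_monomial, if_neg hj]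
    · intro h; exact absurd (Finset.mem_range.mpr hi) h
  have hf0 : f ≠ 0 := by
    obtain ⟨i, hi, hci⟩ := hc0
    intro h0
    apply hci
    rw [← hcoeff i hi, h0, coeff_zero]
  have hdeg : f.natDegree < l := by
    have h1 : f.natDegree ≤ l - 1 := by
      rw [hf]
      refine natDegree_sum_le_of_forall_le _ _ (fun i hi => ?_)
      refine (natDegree_monomial_le (c i)).trans ?_
      have := Finset.mem_range.mp hi
      omega
    have := hl.pos
    omega
  have hf1 : f.eval 1 = 0 := by
    rw [hf, eval_finsetSum, ← hc]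
    refine Finset.sum_congr rfl (fun i _ => ?_)
    simp
  obtain ⟨a, b, hab⟩ := poly_lemma l hl f hdeg hf0 hf1
  have h1 := congrArg (fun g => aeval T g e) hab
  simp only [map_add, map_mul, map_sub, map_pow, aeval_X, map_one, LinearMap.add_apply,
    LinearMap.sub_apply, Module.End.mul_apply, Module.End.one_apply] at h1
  rw [hT, sub_self, zero_add, hfe] at h1
  rw [← h1]
  -- polynomials in T preserve U
  have hpol : ∀ g : ℚ[X], ∀ u ∈ U, aeval T g u ∈ U := by
    intro g u hu
    induction g using Polynomial.induction_on' with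
    | add p q hp hq => rw [map_add, LinearMap.add_apply]; exact U.add_mem hp hq
    | monomial n r =>
      rw [aeval_monomial, Module.End.mul_apply, Module.algebraMap_end_apply]
      apply U.smul_mem
      clear h1 hab
      induction n with
      | zero => simpa using hu
      | succ n ih => rw [pow_succ', Module.End.mul_apply]; exact hU _ ih
  exact hpol b _ hw

end Pool.Agent.Lib.MP81632f.K3
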