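import Pool.Agent.Lib.MP_81632f_ag.K3.Cycle

/-! The case `m` an odd prime, `d < 2 m`: conclusion. -/

namespace Pool.Agent.Lib.MP81632f.K3

open MulAction Pool.Agent.Lib.MP81632f Polynomial

set_option linter.unusedSectionVars false

section

variable {G R : Type*} [Group G] [Finite G] [MulAction G R] [Fintype R] [DecidableEq R]
  {bar : R → R} {v u : R → ℤ} {d m : ℕ}

/-- the rational relations -/
def relSpace (G : Type*) {R : Type*} [Group G] [MulAction G R] [Fintype R] (bar : R → R)
    (v : R → ℤ) : Submodule ℚ (R → ℚ) where
  carrier := {u | (∀ x, u (bar x) = - u x) ∧ ∀ g : G, ∑ x, u x * (v (g • x) : ℚ) = 0}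
  zero_mem' := ⟨fun x => by simp, fun g => by simp⟩
  add_mem' := by
    intro a b ha hb
    refine ⟨fun x => ?_, fun g => ?_⟩
    · simp only [Pi.add_apply, ha.1, hb.1]; ring
    · simp only [Pi.add_apply, add_mul, Finset.sum_add_distrib]
      rw [ha.2 g, hb.2 g, add_zero]
  smul_mem' := by
    intro r a ha
    refine ⟨fun x => ?_, fun g => ?_⟩
    · simp only [Pi.smul_apply, ha.1, smul_eq_mul]; ring
    · simp only [Pi.smul_apply, smul_eq_mul, mul_assoc]
      rw [← Finset.mul_sum, ha.2 g, mul_zero]

theorem relSpace_smul (h : SignedSystem G R bar v) {w : R → ℚ} (hw : w ∈ relSpace G bar v) (g : G) :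
    (fun x => w (g • x)) ∈ relSpace G bar v := by
  refine ⟨fun x => ?_, fun t => ?_⟩
  · simp only
    rw [← h.bar_smul, hw.1]
  · have h1 := hw.2 (t * g⁻¹)
    rw [← h1]
    refine Fintype.sum_equiv (MulAction.toPerm g) _ _ (fun x => ?_)
    simp only [MulAction.toPerm_apply, mul_smul, inv_smul_smul]

/-- the antisymmetric basis vector -/
def evec (bar : R → R) (y : R) : R → ℚ := Pi.single y 1 - Pi.single (bar y) 1

theorem evec_smul (h : SignedSystem G R bar v) (g : G) (y : R) :
    (fun x => evec bar y (g⁻¹ • x)) = evec bar (g • y) := by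
  funext x
  simp only [evec, Pi.sub_apply, Pi.single_apply, h.bar_smul, inv_smul_eq_iff]

theorem sum_evec_mul (h : SignedSystem G R bar v) (y : R) (g : G) :
    ∑ x, evec bar y x * (v (g • x) : ℚ) = 2 * v (g • y) := by
  simp only [evec, Pi.sub_apply, sub_mul, Finset.sum_sub_distrib, Pi.single_apply, ite_mul, one_mul,
    zero_mul, Finset.sum_ite_eq', Finset.mem_univ, if_true]
  rw [← h.bar_smul, h.m_bar]
  push_cast; ring

theorem case_big_prime (h : K3System G R bar v d m) (hm : m.Prime) (hodd : Odd m) (hd : d < 2 * m)
    (hu : IsRel G bar v u) : u = 0 := by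
  classical
  have hl : Fact m.Prime := ⟨hm⟩
  obtain ⟨g, hst, hfix, x0, hx0, hgx0, hper, hcyc⟩ := exists_cycle h m hodd rfl hd
  have hnf := nofix h.signed (z := x0) (by rw [hx0]; norm_num)
  have hstpow : ∀ (i : ℕ) z, v (g ^ i • z) = v z := by
    intro i
    induction i with
    | zero => intro z; simp
    | succ n ih => intro z; rw [pow_succ, mul_smul, ih, hst]
  set T : (R → ℚ) →ₗ[ℚ] (R → ℚ) := LinearMap.funLeft ℚ ℚ (fun x => g⁻¹ • x) with hT
  have hTapp : ∀ f x, T f x = f (g⁻¹ • x) := fun f x => rfl
  have hTe : ∀ y, T (evec bar y) = evec bar (g • y) := fun y => evec_smul h.signed g y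
  have hTpow : ∀ (i : ℕ), (T ^ i) (evec bar x0) = evec bar (g ^ i • x0) := by
    intro i
    induction i with
    | zero => simp
    | succ n ih => rw [pow_succ', Module.End.mul_apply, ih, hTe, ← mul_smul, ← pow_succ']
  set U := relSpace G bar v with hU
  have hTU : ∀ w ∈ U, T w ∈ U := fun w hw => relSpace_smul h.signed hw g⁻¹
  -- the cycle enumerates the points of value one
  have himg : (Finset.range m).image (fun i => g ^ i • x0) = Finset.univ.filter (fun x => v x = 1) := by
    ext y
    simp only [Finset.mem_image, Finset.mem_range, Finset.mem_filter, Finset.mem_univ, true_and]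
    constructor
    · rintro ⟨i, -, rfl⟩
      rw [hstpow, hx0]
    · intro hy
      exact hcyc y hy
  have hinj : Set.InjOn (fun i => g ^ i • x0) (Finset.range m : Set ℕ) := by
    rw [← Finset.card_image_iff, himg, h.cardm, Finset.card_range]
  have hsumS : ∀ f : R → ℚ, ∑ x ∈ Finset.univ.filter (fun x => v x = 1), f x
      = ∑ i ∈ Finset.range m, f (g ^ i • x0) := by
    intro f
    rw [← himg, Finset.sum_image hinj]
  have hsumSV : ∀ f : R → (R → ℚ), ∑ x ∈ Finset.univ.filter (fun x => v x = 1), f x
      = ∑ i ∈ Finset.range m, f (g ^ i • x0) := by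
    intro f
    rw [← himg, Finset.sum_image hinj]
  -- elements of U vanishing at the points of value zero are zero
  have key : ∀ w ∈ U, (∀ x, v x = 0 → w x = 0) → w = 0 := by
    intro w hw hw0
    by_contra hne
    have hdec : w = ∑ y ∈ Finset.univ.filter (fun x => v x = 1), w y • evec bar y := by
      funext x
      rw [Finset.sum_apply]
      simp only [Pi.smul_apply, evec, Pi.sub_apply, Pi.single_apply, smul_eq_mul, mul_sub, mul_ite,
        mul_one, mul_zero, Finset.sum_sub_distrib]
      have e1 : ∑ y ∈ Finset.univ.filter (fun x => v x = 1), (if x = y then w y else 0)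
          = if v x = 1 then w x else 0 := by
        rw [Finset.sum_ite_eq]
        simp
      have e2 : ∑ y ∈ Finset.univ.filter (fun x => v x = 1), (if x = bar y then w y else 0)
          = if v x = -1 then - w x else 0 := by
        have e3 : ∀ y, (x = bar y) ↔ (bar x = y) := by
          intro y
          constructor
          · rintro rfl; exact h.signed.bar_bar y
          · rintro rfl; exact (h.signed.bar_bar x).symm
        simp only [e3]
        rw [Finset.sum_ite_eq]
        simp only [Finset.mem_filter, Finset.mem_univ, true_and, h.signed.m_bar, hw.1]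
        by_cases hv : v x = -1
        · rw [hv]; norm_num
        · have : ¬ - v x = 1 := by intro h3; apply hv; linarith
          simp [hv, this]
      rw [e1, e2]
      rcases h.val x with h3 | h3 | h3
      · rw [h3]; norm_num
      · rw [h3, hw0 x h3]; norm_num
      · rw [h3]; norm_num
    have hdec2 : w = ∑ i ∈ Finset.range m, w (g ^ i • x0) • (T ^ i) (evec bar x0) := by
      conv_lhs => rw [hdec]
      rw [hsumSV (fun y => w y • evec bar y)]
      exact Finset.sum_congr rfl (fun i _ => by rw [hTpow])
    have hsum0 : ∑ i ∈ Finset.range m, w (g ^ i • x0) = 0 := by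
      have h1 := hw.2 1
      simp only [one_smul] at h1
      have h2 : ∑ x, w x * (v x : ℚ) = 2 * ∑ x ∈ Finset.univ.filter (fun x => v x = 1), w x := by
        have e1 : ∑ x, w x * (v x : ℚ) = ∑ x, (if v x = 1 then w x else 0)
            + ∑ x, (if v x = -1 then - w x else 0) := by
          rw [← Finset.sum_add_distrib]
          refine Finset.sum_congr rfl (fun x _ => ?_)
          rcases h.val x with h3 | h3 | h3 <;> rw [h3] <;> norm_num
        have e2 : ∑ x, (if v x = -1 then - w x else 0) = ∑ x, (if v x = 1 then w x else 0) := by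
          have hinv : Function.Involutive bar := h.signed.bar_bar
          refine Fintype.sum_equiv hinv.toPerm _ _ (fun x => ?_)
          simp only [Function.Involutive.coe_toPerm, h.signed.m_bar, hw.1]
          by_cases hv : v x = -1
          · rw [hv]; norm_num
          · have : ¬ - v x = 1 := by intro h3; apply hv; linarith
            simp [hv, this]
        rw [e1, e2, ← Finset.sum_filter]; ring
      rw [h2, hsumS] at h1
      linarith
    have hex : ∃ i < m, w (g ^ i • x0) ≠ 0 := by
      by_contra hall
      push Not at hall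
      apply hne
      rw [hdec2]
      refine Finset.sum_eq_zero (fun i hi => ?_)
      rw [hall i (Finset.mem_range.mp hi), zero_smul]
    have hper' : (T ^ m) (evec bar x0) = evec bar x0 := by rw [hTpow, hper]
    have hmem := cyc_lemma T (evec bar x0) m hm hper' U hTU (fun i => w (g ^ i • x0))
      (by rw [← hdec2]; exact hw) hsum0 hex
    rw [hTe] at hmem
    -- contradiction with separation
    apply hgx0
    apply h.sep
    intro σ
    have h5 := hmem.2 σ
    simp only [Pi.sub_apply, sub_mul, Finset.sum_sub_distrib] at h5
    rw [sum_evec_mul h.signed, sum_evec_mul h.signed] at h5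
    have h6 : (v (σ • g • x0) : ℚ) = v (σ • x0) := by linarith
    exact_mod_cast h6
  -- every element of U vanishes at x0
  have hx0z : ∀ w ∈ U, w x0 = 0 := by
    intro w hw
    have h1 : w - T w = 0 := by
      apply key _ (U.sub_mem hw (hTU w hw))
      intro x hx
      rw [Pi.sub_apply, hTapp]
      have : g⁻¹ • x = x := by rw [inv_smul_eq_iff]; exact (hfix x hx).symm
      rw [this, sub_self]
    have h2 : ∀ x, w (g • x) = w x := by
      intro x
      have := congrFun h1 (g • x)
      rw [Pi.sub_apply, hTapp, inv_smul_smul] at this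
      have h3 : w (g • x) - w x = 0 := this
      linarith
    have h3 : ∀ (i : ℕ) , w (g ^ i • x0) = w x0 := by
      intro i
      induction i with
      | zero => simp
      | succ n ih => rw [pow_succ', mul_smul, h2, ih]
    have h4 := hw.2 1
    simp only [one_smul] at h4
    have h5 : ∑ x, w x * (v x : ℚ) = 2 * ∑ x ∈ Finset.univ.filter (fun x => v x = 1), w x := by
      have e1 : ∑ x, w x * (v x : ℚ) = ∑ x, (if v x = 1 then w x else 0)
          + ∑ x, (if v x = -1 then - w x else 0) := by
        rw [← Finset.sum_add_distrib]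
        refine Finset.sum_congr rfl (fun x _ => ?_)
        rcases h.val x with h3 | h3 | h3 <;> rw [h3] <;> norm_num
      have e2 : ∑ x, (if v x = -1 then - w x else 0) = ∑ x, (if v x = 1 then w x else 0) := by
        have hinv : Function.Involutive bar := h.signed.bar_bar
        refine Fintype.sum_equiv hinv.toPerm _ _ (fun x => ?_)
        simp only [Function.Involutive.coe_toPerm, h.signed.m_bar, hw.1]
        by_cases hv : v x = -1
        · rw [hv]; norm_num
        · have : ¬ - v x = 1 := by intro h3; apply hv; linarith
          simp [hv, this]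
      rw [e1, e2, ← Finset.sum_filter]; ring
    rw [h5, hsumS, Finset.sum_congr rfl (fun i _ => h3 i), Finset.sum_const, Finset.card_range,
      nsmul_eq_mul] at h4
    have hm0 : (m : ℚ) ≠ 0 := by exact_mod_cast hm.ne_zero
    have h6 : (m : ℚ) * w x0 = 0 := by linarith
    exact (mul_eq_zero.mp h6).resolve_left hm0
  funext y
  obtain ⟨σ, hσ⟩ := h.signed.trans x0 y
  have hmem : (fun x => (u x : ℚ)) ∈ U := by
    refine ⟨fun x => ?_, fun t => ?_⟩
    · beta_reduce
      rw [hu.1]; push_cast; ring
    · have := hu.2 t
      beta_reduce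
      exact_mod_cast this
  have h7 := hx0z _ (relSpace_smul h.signed hmem σ)
  rw [hσ] at h7
  exact_mod_cast h7

end

end Pool.Agent.Lib.MP81632f.K3
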