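import Pool.Agent.Lib.MP_81632f_ag.CoreA

/-! Relation lattices for valuations of K3 type: the values of `v` are `1, 0, -1`. -/

namespace Pool.Agent.Lib.MP81632f.K3

open MulAction Pool.Agent.Lib.MP81632f

set_option linter.unusedSectionVars false

/-- A signed system of K3 type with `2 d` points and `m` points of value `1`. -/
structure K3System (G R : Type*) [Group G] [MulAction G R] [Fintype R] [DecidableEq R]
    (bar : R → R) (v : R → ℤ) (d m : ℕ) : Prop where
  signed : SignedSystem G R bar v
  val : ∀ x, v x = 1 ∨ v x = 0 ∨ v x = -1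
  card : Fintype.card R = 2 * d
  cardm : (Finset.univ.filter (fun x => v x = 1)).card = m
  sep : ∀ x y : R, (∀ g : G, v (g • x) = v (g • y)) → x = y
  conj : ∀ x y : R, v x = 1 → v y = 1 → ∃ g : G, g • x = y ∧ ∀ z, v (g • z) = v z

/-- The pairs `(d, m)` covered. -/
def GoodPair (d m : ℕ) : Prop :=
  Odd m ∧ m ≤ d ∧ (m = 1 ∨ d.Prime ∨ (∃ k, d = 2 ^ k) ∨ d = m + 1 ∨ (m.Prime ∧ d < 2 * m) ∨ (d = 9 ∧ m = 9))

section

variable {G R : Type*} [Group G] [Finite G] [MulAction G R] [Fintype R] [DecidableEq R]
  {bar : R → R} {v u : R → ℤ} {d m : ℕ}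

theorem K3System.cardneg (h : K3System G R bar v d m) :
    (Finset.univ.filter (fun x => v x = -1)).card = m := by
  rw [← h.cardm]
  refine Finset.card_bij' (fun x _ => bar x) (fun x _ => bar x) ?_ ?_ ?_ ?_
  · intro x hx
    simp only [Finset.mem_filter, Finset.mem_univ, true_and] at hx ⊢
    rw [h.signed.m_bar, hx]; norm_num
  · intro x hx
    simp only [Finset.mem_filter, Finset.mem_univ, true_and] at hx ⊢
    rw [h.signed.m_bar, hx]
  · intro x _; exact h.signed.bar_bar x
  · intro x _; exact h.signed.bar_bar x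

/-- the sum over a half system is odd if `m` is, and at most `m` in absolute value -/
theorem K3System.half_sum (h : K3System G R bar v d m) {T : Finset R} (hT : IsHalf bar T)
    (hnf : ∀ x, bar x ≠ x) :
    ∃ a b : ℕ, a + b = m ∧ ∑ x ∈ T, v x = (a : ℤ) - b := by
  classical
  refine ⟨(T.filter (fun x => v x = 1)).card, (T.filter (fun x => v x = -1)).card, ?_, ?_⟩
  · have h1 := sum_half h.signed.bar_bar hnf hT (fun x => if v x = 0 then 0 else 1) (fun x => by
      change (if v (bar x) = 0 then (0 : ℤ) else 1) = if v x = 0 then 0 else 1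
      rw [h.signed.m_bar]; simp)
    have h2 : ∀ s : Finset R, ∑ x ∈ s, (if v x = 0 then (0 : ℤ) else 1)
        = ((s.filter (fun x => v x = 1)).card : ℤ) + (s.filter (fun x => v x = -1)).card := by
      intro s
      rw [Finset.card_filter, Finset.card_filter]
      push_cast
      rw [← Finset.sum_add_distrib]
      refine Finset.sum_congr rfl (fun x _ => ?_)
      rcases h.val x with h3 | h3 | h3 <;> rw [h3] <;> norm_num
    rw [h2, h2, h.cardm, h.cardneg] at h1
    have h3 : ((m : ℕ) : ℤ) = (T.filter (fun x => v x = 1)).card + (T.filter (fun x => v x = -1)).card := by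
      linarith
    exact_mod_cast h3.symm
  · rw [Finset.card_filter, Finset.card_filter]
    push_cast
    rw [← Finset.sum_sub_distrib]
    refine Finset.sum_congr rfl (fun x _ => ?_)
    rcases h.val x with h3 | h3 | h3 <;> rw [h3] <;> norm_num

theorem K3System.exists_pos (h : K3System G R bar v d m) (hm : 0 < m) : ∃ x, v x = 1 := by
  rw [← h.cardm, Finset.card_pos] at hm
  obtain ⟨x, hx⟩ := hm
  simp only [Finset.mem_filter, Finset.mem_univ, true_and] at hx
  exact ⟨x, hx⟩

/-- Case `m = 1`. -/
theorem case_one (h : K3System G R bar v d 1) (hu : IsRel G bar v u) : u = 0 := by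
  obtain ⟨z, hz⟩ := h.exists_pos one_pos
  have hc := h.cardm
  rw [Finset.card_eq_one] at hc
  obtain ⟨a, ha⟩ := hc
  have huniq : ∀ y, v y = 1 → y = z := by
    intro y hy
    have h1 : y ∈ Finset.univ.filter (fun x => v x = 1) := by simp [hy]
    have h2 : z ∈ Finset.univ.filter (fun x => v x = 1) := by simp [hz]
    rw [ha, Finset.mem_singleton] at h1 h2
    rw [h1, h2]
  refine core_b h.signed 2 Nat.prime_two (z := z) ?_ ?_ hu
  · rw [hz]; norm_num
  · intro y hy
    rcases h.val y with h1 | h1 | h1
    · exact Or.inl (huniq y h1)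
    · exfalso; apply hy; rw [h1]; exact dvd_zero _
    · right
      have h2 : v (bar y) = 1 := by rw [h.signed.m_bar, h1]; norm_num
      rw [← huniq _ h2, h.signed.bar_bar]

/-- Case `d = 2 ^ k`. -/
theorem case_two_pow (h : K3System G R bar v d m) (hm : Odd m) (k : ℕ) (hd : d = 2 ^ k)
    (hu : IsRel G bar v u) : u = 0 := by
  obtain ⟨z, hz⟩ := h.exists_pos hm.pos
  have hnf := nofix h.signed (z := z) (by rw [hz]; norm_num)
  have : Fact (Nat.Prime 2) := ⟨Nat.prime_two⟩
  refine core_a h.signed 2 k (by rw [h.card, hd]) ?_ hu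
  intro T hT hdvd
  obtain ⟨a, b, hab, hs⟩ := h.half_sum hT hnf
  rw [hs] at hdvd
  obtain ⟨r, hr⟩ := hm
  have : (2 : ℤ) ∣ (a : ℤ) - b := by exact_mod_cast hdvd
  omega

/-- Case `d = m + 1`. -/
theorem case_almost (h : K3System G R bar v d m) (hm : Odd m) (hd : d = m + 1)
    (hu : IsRel G bar v u) : u = 0 := by
  classical
  -- the points with value zero
  have hc0 : (Finset.univ.filter (fun x => v x = 0)).card = 2 := by
    have h1 : (Finset.univ.filter (fun x => v x = 1)).card + (Finset.univ.filter (fun x => v x = -1)).card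
        + (Finset.univ.filter (fun x => v x = 0)).card = Fintype.card R := by
      rw [← Finset.card_univ, ← Finset.card_union_of_disjoint, ← Finset.card_union_of_disjoint]
      · congr 1
        ext x
        simp only [Finset.mem_union, Finset.mem_filter, Finset.mem_univ, true_and, iff_true]
        rcases h.val x with h3 | h3 | h3 <;> simp [h3]
      · rw [Finset.disjoint_left]
        intro x hx
        simp only [Finset.mem_union, Finset.mem_filter, Finset.mem_univ, true_and] at hx ⊢
        rcases hx with hx | hx <;> rw [hx] <;> norm_num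
      · rw [Finset.disjoint_left]
        intro x hx
        simp only [Finset.mem_filter, Finset.mem_univ, true_and] at hx ⊢
        rw [hx]; norm_num
    rw [h.cardm, h.cardneg, h.card] at h1
    omega
  rw [Finset.card_eq_two] at hc0
  obtain ⟨z, w, hzw, hzw2⟩ := hc0
  have hz : v z = 0 := by
    have : z ∈ Finset.univ.filter (fun x => v x = 0) := by rw [hzw2]; simp
    simpa using this
  obtain ⟨y0, hy0⟩ := h.exists_pos hm.pos
  have hnf := nofix h.signed (z := y0) (by rw [hy0]; norm_num)
  have hbz : bar z = w := by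
    have : bar z ∈ Finset.univ.filter (fun x => v x = 0) := by
      simp only [Finset.mem_filter, Finset.mem_univ, true_and]
      rw [h.signed.m_bar, hz]; norm_num
    rw [hzw2] at this
    simp only [Finset.mem_insert, Finset.mem_singleton] at this
    exact this.resolve_left (hnf z)
  refine core_c h.signed (z := z) ?_ (by rw [hz]; exact Even.zero) ?_ hu
  · rw [h.card, hd]
    obtain ⟨r, hr⟩ := hm
    omega
  · intro y hy
    have h1 : v y = 0 := by
      rcases h.val y with h3 | h3 | h3
      · rw [h3] at hy; exact absurd hy (by decide)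
      · exact h3
      · rw [h3] at hy; exact absurd hy (by decide)
    have : y ∈ Finset.univ.filter (fun x => v x = 0) := by simp [h1]
    rw [hzw2] at this
    simp only [Finset.mem_insert, Finset.mem_singleton] at this
    rw [hbz]
    exact this

/-- Case `d` prime, `m < d`. -/
theorem case_prime (h : K3System G R bar v d m) (hm : Odd m) (hd : d.Prime) (hmd : m < d)
    (hu : IsRel G bar v u) : u = 0 := by
  obtain ⟨z, hz⟩ := h.exists_pos hm.pos
  have hnf := nofix h.signed (z := z) (by rw [hz]; norm_num)
  have : Fact (Nat.Prime d) := ⟨hd⟩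
  refine core_a h.signed d 1 (by rw [h.card, pow_one]) ?_ hu
  intro T hT hdvd
  obtain ⟨a, b, hab, hs⟩ := h.half_sum hT hnf
  rw [hs] at hdvd
  obtain ⟨r, hr⟩ := hm
  have h1 : (a : ℤ) - b = 0 := by
    apply Int.eq_zero_of_abs_lt_dvd hdvd
    rw [abs_lt]
    constructor <;> omega
  omega

end

end Pool.Agent.Lib.MP81632f.K3
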