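import Pool.Agent.Lib.MP_81632f_ag.K3.Short2

/-! Counting zero sum triples, and the theorem on relations of length three. -/

namespace Pool.Agent.Lib.MP81632f.K3

open MulAction Pool.Agent.Lib.MP81632f

set_option linter.unusedSectionVars false

section

variable {G R : Type*} [Group G] [Finite G] [MulAction G R] [Fintype R] [DecidableEq R]
  {bar : R → R} {v u : R → ℤ} {d m : ℕ}

/-- zero sum triples -/
noncomputable def triples (G : Type*) {R : Type*} [Group G] [MulAction G R] [Fintype R]
    [DecidableEq R] (v : R → ℤ) : Finset (Finset R) :=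
  open Classical in Finset.univ.filter (fun t => t.card = 3 ∧ ∀ g : G, ∑ x ∈ t, v (g • x) = 0)

theorem mem_triples {t : Finset R} :
    t ∈ triples G v ↔ t.card = 3 ∧ ∀ g : G, ∑ x ∈ t, v (g • x) = 0 := by
  unfold triples
  simp

theorem smul_triples (g : G) {t : Finset R} (ht : t ∈ triples G v) :
    t.image (g • ·) ∈ triples G v := by
  rw [mem_triples] at ht ⊢
  have hinj : Function.Injective (fun x : R => g • x) := MulAction.injective g
  refine ⟨by rw [Finset.card_image_of_injective _ hinj]; exact ht.1, fun s => ?_⟩
  rw [Finset.sum_image (fun x _ y _ e => hinj e)]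
  have := ht.2 (s * g)
  simpa only [mul_smul] using this

theorem bar_triples (h : K3System G R bar v d m) {t : Finset R} (ht : t ∈ triples G v) :
    t.image bar ∈ triples G v := by
  rw [mem_triples] at ht ⊢
  have hinj : Function.Injective bar := by
    intro x y hxy
    rw [← h.signed.bar_bar x, hxy, h.signed.bar_bar]
  refine ⟨by rw [Finset.card_image_of_injective _ hinj]; exact ht.1, fun s => ?_⟩
  rw [Finset.sum_image (fun x _ y _ e => hinj e)]
  have h1 : ∀ x, v (s • bar x) = - v (s • x) := by
    intro x; rw [← h.signed.bar_smul, h.signed.m_bar]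
  rw [Finset.sum_congr rfl (fun x _ => h1 x), Finset.sum_neg_distrib, ht.2, neg_zero]

theorem bar_triple_ne (h : K3System G R bar v d m) (hnf : ∀ x, bar x ≠ x) {t : Finset R}
    (ht : t ∈ triples G v) : t.image bar ≠ t := by
  intro e
  rw [mem_triples] at ht
  have h1 : ∑ y ∈ t, (1 : ZMod 2) = 0 := by
    refine Finset.sum_involution (fun y _ => bar y) ?_ ?_ ?_ ?_
    · intro y hy; decide
    · intro y hy _; exact hnf y
    · intro y hy
      rw [← e]; exact Finset.mem_image_of_mem _ hy
    · intro y hy; exact h.signed.bar_bar y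
  simp only [Finset.sum_const, nsmul_eq_mul, mul_one] at h1
  rw [ZMod.natCast_eq_zero_iff, ht.1] at h1
  omega

theorem bar_bar_triple (h : K3System G R bar v d m) (t : Finset R) : (t.image bar).image bar = t := by
  rw [Finset.image_image]
  have : bar ∘ bar = id := by funext x; exact h.signed.bar_bar x
  rw [this, Finset.image_id]

/-- the signs in a triple containing a point of value one -/
theorem triple_signs (h : K3System G R bar v d m) {t : Finset R} (ht : t ∈ triples G v) :
    (t.filter (fun x => v x = 1)).card = (t.filter (fun x => v x = -1)).card ∧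
      (t.filter (fun x => v x = 1)).card ≤ 1 := by
  rw [mem_triples] at ht
  have h1 := ht.2 1
  simp only [one_smul] at h1
  have h2 : ∑ x ∈ t, v x = ((t.filter (fun x => v x = 1)).card : ℤ)
      - (t.filter (fun x => v x = -1)).card := by
    rw [Finset.card_filter, Finset.card_filter]
    push_cast
    rw [← Finset.sum_sub_distrib]
    refine Finset.sum_congr rfl (fun x _ => ?_)
    rcases h.val x with h3 | h3 | h3 <;> rw [h3] <;> norm_num
  have h3 : (t.filter (fun x => v x = 1)).card + (t.filter (fun x => v x = -1)).card ≤ t.card := by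
    rw [← Finset.card_union_of_disjoint]
    · apply Finset.card_le_card
      intro x hx
      rcases Finset.mem_union.mp hx with e | e
      · exact (Finset.mem_filter.mp e).1
      · exact (Finset.mem_filter.mp e).1
    · rw [Finset.disjoint_left]
      intro x hx hx'
      rw [Finset.mem_filter] at hx hx'
      rw [hx.2] at hx'
      exact absurd hx'.2 (by norm_num)
  rw [ht.1] at h3
  omega

theorem count_triples (h : K3System G R bar v d m) (hm : 0 < m) (hex : (triples G v).Nonempty) :
    ∃ l : ℕ, 1 ≤ l ∧ l + 1 ≤ m ∧ 3 ∣ d * l ∧ 2 ∣ m * l := by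
  classical
  obtain ⟨x1, hx1⟩ := h.exists_pos hm
  have hnf := nofix h.signed (z := x1) (by rw [hx1]; norm_num)
  set lam : R → ℕ := fun x => ((triples G v).filter (fun t => x ∈ t)).card with hlam
  have hconst : ∀ x, lam x = lam x1 := by
    intro x
    obtain ⟨g, hg⟩ := h.signed.trans x1 x
    rw [hlam]
    symm
    refine Finset.card_bij' (fun t _ => t.image (g • ·)) (fun t _ => t.image (g⁻¹ • ·)) ?_ ?_ ?_ ?_
    · intro t ht
      rw [Finset.mem_filter] at ht ⊢
      exact ⟨smul_triples g ht.1, Finset.mem_image.mpr ⟨x1, ht.2, hg⟩⟩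
    · intro t ht
      rw [Finset.mem_filter] at ht ⊢
      exact ⟨smul_triples g⁻¹ ht.1, Finset.mem_image.mpr ⟨x, ht.2, by rw [← hg, inv_smul_smul]⟩⟩
    · intro t _
      rw [Finset.image_image]
      have : (fun x : R => g⁻¹ • x) ∘ (fun x => g • x) = id := by funext z; simp
      rw [this, Finset.image_id]
    · intro t _
      rw [Finset.image_image]
      have : (fun x : R => g • x) ∘ (fun x => g⁻¹ • x) = id := by funext z; simp
      rw [this, Finset.image_id]
  have hcount : ∀ s : Finset R, ∑ x ∈ s, lam x = ∑ t ∈ triples G v, (s.filter (fun x => x ∈ t)).card := by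
    intro s
    simp only [hlam, Finset.card_filter]
    rw [Finset.sum_comm]
  refine ⟨lam x1, ?_, ?_, ?_, ?_⟩
  · obtain ⟨t, ht⟩ := hex
    have h3 : 0 < t.card := by rw [(mem_triples.mp ht).1]; norm_num
    obtain ⟨y, hy⟩ := Finset.card_pos.mp h3
    rw [← hconst y]
    exact Finset.card_pos.mpr ⟨t, Finset.mem_filter.mpr ⟨ht, hy⟩⟩
  · -- at most m - 1
    have hS : ((Finset.univ.filter (fun y => v y = -1)).erase (bar x1)).card + 1 = m := by
      rw [Finset.card_erase_of_mem, h.cardneg]
      · omega
      · simp only [Finset.mem_filter, Finset.mem_univ, true_and, h.signed.m_bar, hx1]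
    rw [← hS]
    have hone : ∀ a : R, ∃ g : G, v (g • a) ≠ 0 := by
      intro a
      obtain ⟨g, hg⟩ := h.signed.trans a x1
      exact ⟨g, by rw [hg, hx1]; norm_num⟩
    -- structure of the triples containing x1
    have hstr : ∀ t ∈ (triples G v).filter (fun t => x1 ∈ t), ∃ y z : R, t = {x1, y, z} ∧
        x1 ≠ y ∧ x1 ≠ z ∧ y ≠ z ∧ v y = -1 ∧ v z = 0 := by
      intro t ht
      rw [Finset.mem_filter] at ht
      obtain ⟨ht, hxt⟩ := ht
      have ht3 := (mem_triples.mp ht).1
      have hs := triple_signs h ht
      have hpos : 1 ≤ (t.filter (fun x => v x = 1)).card :=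
        Finset.card_pos.mpr ⟨x1, Finset.mem_filter.mpr ⟨hxt, hx1⟩⟩
      have hneg : 0 < (t.filter (fun x => v x = -1)).card := by omega
      obtain ⟨y, hy⟩ := Finset.card_pos.mp hneg
      rw [Finset.mem_filter] at hy
      have hxy : x1 ≠ y := by rintro rfl; rw [hx1] at hy; exact absurd hy.2 (by norm_num)
      have h4 : ((t.erase x1).erase y).card = 1 := by
        rw [Finset.card_erase_of_mem (Finset.mem_erase.mpr ⟨hxy.symm, hy.1⟩),
          Finset.card_erase_of_mem hxt, ht3]
      obtain ⟨z, hz⟩ := Finset.card_eq_one.mp h4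
      have hzt : z ∈ (t.erase x1).erase y := by rw [hz]; exact Finset.mem_singleton_self z
      have hzy : z ≠ y := (Finset.mem_erase.mp hzt).1
      have hzx : z ≠ x1 := (Finset.mem_erase.mp (Finset.mem_erase.mp hzt).2).1
      have hteq : t = {x1, y, z} := by
        rw [← Finset.insert_erase hxt, ← Finset.insert_erase (Finset.mem_erase.mpr ⟨hxy.symm, hy.1⟩),
          hz]
      refine ⟨y, z, hteq, hxy, hzx.symm, hzy.symm, hy.2, ?_⟩
      have h5 := (mem_triples.mp ht).2 1
      simp only [one_smul] at h5
      rw [hteq, Finset.sum_insert (by simp [hxy, hzx.symm]), Finset.sum_insert (by simp [hzy.symm]),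
        Finset.sum_singleton, hx1, hy.2] at h5
      linarith
    have hsum3 : ∀ y z : R, x1 ≠ y → x1 ≠ z → y ≠ z → ({x1, y, z} : Finset R) ∈ triples G v →
        ∀ g : G, v (g • x1) + v (g • y) + v (g • z) = 0 := by
      intro y z h1 h2 h3 ht g
      have h5 := (mem_triples.mp ht).2 g
      rw [Finset.sum_insert (by simp [h1, h2]), Finset.sum_insert (by simp [h3]),
        Finset.sum_singleton] at h5
      linarith
    have hmaps : Set.MapsTo (fun t : Finset R => t.filter (fun y => v y = -1))
        ((triples G v).filter (fun t => x1 ∈ t) : Set (Finset R))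
        (((Finset.univ.filter (fun y => v y = -1)).erase (bar x1)).image (fun y => ({y} : Finset R)) : Set (Finset R)) := by
      intro t ht
      obtain ⟨y, z, hteq, h1, h2, h3, hy, hz⟩ := hstr t ht
      rw [Finset.mem_coe, Finset.mem_image]
      refine ⟨y, ?_, ?_⟩
      · rw [Finset.mem_erase]
        refine ⟨?_, by simp [hy]⟩
        rintro rfl
        obtain ⟨g, hg⟩ := hone z
        have ht' : ({x1, bar x1, z} : Finset R) ∈ triples G v := by
          rw [← hteq]; exact (Finset.mem_filter.mp (Finset.mem_coe.mp ht)).1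
        have := hsum3 _ _ h1 h2 h3 ht' g
        rw [← h.signed.bar_smul, h.signed.m_bar] at this
        apply hg; linarith
      · rw [hteq]
        ext w
        simp only [Finset.mem_singleton, Finset.mem_filter, Finset.mem_insert]
        constructor
        · rintro rfl; exact ⟨Or.inr (Or.inl rfl), hy⟩
        · rintro ⟨h5 | h5 | h5, h6⟩
          · rw [h5, hx1] at h6; norm_num at h6
          · exact h5
          · rw [h5, hz] at h6; norm_num at h6
    have hinj : Set.InjOn (fun t : Finset R => t.filter (fun y => v y = -1))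
        ((triples G v).filter (fun t => x1 ∈ t) : Set (Finset R)) := by
      intro t ht t' ht' htt
      obtain ⟨y, z, hteq, h1, h2, h3, hy, hz⟩ := hstr t ht
      obtain ⟨y', z', hteq', h1', h2', h3', hy', hz'⟩ := hstr t' ht'
      have e1 : y ∈ t'.filter (fun y => v y = -1) := by
        beta_reduce at htt
        rw [← htt, hteq]; simp [hy]
      rw [hteq', Finset.mem_filter] at e1
      have e2 : y = y' := by
        simp only [Finset.mem_insert, Finset.mem_singleton] at e1
        rcases e1.1 with h5 | h5 | h5
        · rw [h5, hx1] at hy; norm_num at hy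
        · exact h5
        · rw [h5, hz'] at hy; norm_num at hy
      subst e2
      have ht1 : ({x1, y, z} : Finset R) ∈ triples G v := by
        rw [← hteq]; exact (Finset.mem_filter.mp (Finset.mem_coe.mp ht)).1
      have ht2 : ({x1, y, z'} : Finset R) ∈ triples G v := by
        rw [← hteq']; exact (Finset.mem_filter.mp (Finset.mem_coe.mp ht')).1
      have e3 : z = z' := by
        apply h.sep
        intro g
        have h5 := hsum3 _ _ h1 h2 h3 ht1 g
        have h6 := hsum3 _ _ h1' h2' h3' ht2 g
        linarith
      rw [hteq, hteq', e3]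
    have hle := Finset.card_le_card_of_injOn _ hmaps hinj
    rw [Finset.card_image_of_injective _ Finset.singleton_injective] at hle
    have : lam x1 ≤ ((Finset.univ.filter (fun y => v y = -1)).erase (bar x1)).card := hle
    omega
  · -- 3 divides d * l
    have h1 := hcount Finset.univ
    rw [Finset.sum_congr rfl (fun x _ => hconst x), Finset.sum_const, Finset.card_univ, h.card,
      smul_eq_mul] at h1
    have h2 : ∀ t ∈ triples G v, (Finset.univ.filter (fun x => x ∈ t)).card = 3 := by
      intro t ht
      rw [Finset.filter_mem_eq_inter, Finset.univ_inter]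
      exact (mem_triples.mp ht).1
    rw [Finset.sum_congr rfl h2, Finset.sum_const, smul_eq_mul] at h1
    -- the number of triples is even
    have h3 : ∑ t ∈ triples G v, (1 : ZMod 2) = 0 := by
      refine Finset.sum_involution (fun t _ => t.image bar) ?_ ?_ ?_ ?_
      · intro t _; decide
      · intro t ht _; exact bar_triple_ne h hnf ht
      · intro t ht; exact bar_triples h ht
      · intro t ht; exact bar_bar_triple h t
    simp only [Finset.sum_const, nsmul_eq_mul, mul_one] at h3
    rw [ZMod.natCast_eq_zero_iff] at h3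
    obtain ⟨q, hq⟩ := h3
    rw [hq] at h1
    exact ⟨q, by linarith⟩
  · -- m * l is even
    have h1 := hcount (Finset.univ.filter (fun x => v x = 1))
    rw [Finset.sum_congr rfl (fun x _ => hconst x), Finset.sum_const, h.cardm, smul_eq_mul] at h1
    rw [h1]
    have h3 : ∑ t ∈ triples G v,
        (((Finset.univ.filter (fun x => v x = 1)).filter (fun x => x ∈ t)).card : ZMod 2) = 0 := by
      have hcard : ∀ t : Finset R, ((Finset.univ.filter (fun x => v x = 1)).filter (fun x => x ∈ t)).card
          = (t.filter (fun x => v x = 1)).card := by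
        intro t
        congr 1
        ext x
        simp [and_comm]
      have hbarc : ∀ t ∈ triples G v, ((t.image bar).filter (fun x => v x = 1)).card
          = (t.filter (fun x => v x = 1)).card := by
        intro t ht
        rw [(triple_signs h ht).1]
        refine Finset.card_bij' (fun x _ => bar x) (fun x _ => bar x) ?_ ?_ ?_ ?_
        · intro x hx
          rw [Finset.mem_filter, Finset.mem_image] at hx
          obtain ⟨⟨y, hy, rfl⟩, hx2⟩ := hx
          rw [h.signed.bar_bar, Finset.mem_filter]
          rw [h.signed.m_bar] at hx2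
          exact ⟨hy, by linarith⟩
        · intro x hx
          rw [Finset.mem_filter] at hx ⊢
          refine ⟨Finset.mem_image_of_mem _ hx.1, ?_⟩
          rw [h.signed.m_bar, hx.2]; norm_num
        · intro x _; exact h.signed.bar_bar x
        · intro x _; exact h.signed.bar_bar x
      refine Finset.sum_involution (fun t _ => t.image bar) ?_ ?_ ?_ ?_
      · intro t ht
        rw [hcard, hcard, hbarc t ht, ← two_mul]
        have := zmod2_a
        push_cast at this
        rw [this, zero_mul]
      · intro t ht _; exact bar_triple_ne h hnf ht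
      · intro t ht; exact bar_triples h ht
      · intro t ht; exact bar_bar_triple h t
    rw [← Nat.cast_sum, ZMod.natCast_eq_zero_iff] at h3
    exact h3

/-- a nonnegative relation of weight three gives a zero sum triple -/
theorem exists_triple (h : K3System G R bar v d m) (hm : 0 < m) (c : R → ℤ)
    (hc0 : ∀ x, 0 ≤ c x) (hc3 : ∑ x, c x = 3) (hrel : ∀ g : G, ∑ x, c x * v (g • x) = 0) :
    (triples G v).Nonempty := by
  classical
  obtain ⟨x1, hx1⟩ := h.exists_pos hm
  have hone : ∀ a : R, ∃ g : G, v (g • a) ≠ 0 := by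
    intro a
    obtain ⟨g, hg⟩ := h.signed.trans a x1
    exact ⟨g, by rw [hg, hx1]; norm_num⟩
  have hle : ∀ a, c a ≤ 1 := by
    intro a
    by_contra hlt
    push Not at hlt
    obtain ⟨g, hg⟩ := hone a
    have h1 := hrel g
    rw [← Finset.add_sum_erase _ _ (Finset.mem_univ a)] at h1 hc3
    have h2 : |∑ x ∈ Finset.univ.erase a, c x * v (g • x)| ≤ ∑ x ∈ Finset.univ.erase a, c x := by
      refine (Finset.abs_sum_le_sum_abs _ _).trans (Finset.sum_le_sum (fun x _ => ?_))
      rw [abs_mul, abs_of_nonneg (hc0 x)]
      rcases h.val (g • x) with e | e | e <;> rw [e] <;> simp [hc0 x]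
    have h3 : ∑ x ∈ Finset.univ.erase a, c x * v (g • x) = - (c a * v (g • a)) := by linarith
    rw [h3, abs_neg, abs_mul, abs_of_nonneg (hc0 a)] at h2
    have h4 : 1 ≤ |v (g • a)| := Int.one_le_abs hg
    nlinarith
  refine ⟨Finset.univ.filter (fun x => c x = 1), ?_⟩
  have hval : ∀ x, c x = if c x = 1 then 1 else 0 := by
    intro x
    have := hc0 x
    have := hle x
    split_ifs with e
    · exact e
    · omega
  rw [mem_triples]
  constructor
  · rw [Finset.sum_congr rfl (fun x _ => hval x), Finset.sum_boole] at hc3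
    exact_mod_cast hc3
  · intro g
    rw [← hrel g, Finset.sum_filter]
    refine Finset.sum_congr rfl (fun x _ => ?_)
    split_ifs with e
    · rw [e, one_mul]
    · have := hval x
      rw [if_neg e] at this
      rw [this, zero_mul]

theorem short_three (h : K3System G R bar v d m) (hm : 0 < m) (hT : TripleFree d m) (c : R → ℤ)
    (hc0 : ∀ x, 0 ≤ c x) (hc3 : ∑ x, c x ≤ 3) (hrel : ∀ g : G, ∑ x, c x * v (g • x) = 0)
    (hrel2 : IsRel G bar v (fun x => c x - c (bar x))) (x : R) :
    c x = c (bar x) := by
  classical
  obtain ⟨hd, hT⟩ := hT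
  have hmd := m_le_d h
  by_cases hbig : 2 * d < 3 * m
  · exact short_relation h hbig c hc0 hc3 hrel x
  by_cases hc2 : ∑ x, c x ≤ 2
  · exact weight_two h hm c hc0 hc2 hrel x
  have hc3' : ∑ x, c x = 3 := by omega
  obtain ⟨x1, hx1⟩ := h.exists_pos hm
  have hnf := nofix h.signed (z := x1) (by rw [hx1]; norm_num)
  by_cases hprime : d.Prime ∧ Odd d ∧ 3 < d
  · refine short_prime h hm hprime.1 hprime.2.1 c hc0 ?_ hrel2 x
    rw [hc3']
    exact_mod_cast hprime.2.2
  by_cases hgood : GoodPair d m
  · have := congrFun (core_k3 h hgood hrel2) x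
    simp only [Pi.zero_apply] at this
    linarith
  exfalso
  by_cases htwo : d = 4 ∨ d = 8
  · have h1 : ∃ k, d = 2 ^ k := by
      rcases htwo with e | e
      · exact ⟨2, e⟩
      · exact ⟨3, e⟩
    obtain ⟨k, hk⟩ := h1
    obtain ⟨T, hT⟩ := exists_half h.signed.bar_bar
    have h2 := even_weight_two h hm k hk hrel2 hT
    have h3 := weight_half h.signed.bar_bar hnf hT c
    rw [hc3'] at h3
    omega
  by_cases hnine : d = 9 ∧ Odd m
  · have hl : Fact (Nat.Prime 3) := ⟨Nat.prime_three⟩
    obtain ⟨T, hT, h2⟩ := even_weight_odd h hnine.2 3 (by decide) 2 (by rw [hnine.1]; norm_num) hrel2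
    have h3 := weight_half h.signed.bar_bar hnf hT c
    rw [hc3'] at h3
    omega
  obtain ⟨l, hl1, hl2, hl3, hl4⟩ := count_triples h hm (exists_triple h hm c hc0 hc3' hrel)
  have hm2 : 2 ≤ m := by omega
  have hm7 : m ≤ 7 := by omega
  have hdp : d ≠ 5 ∧ d ≠ 7 ∧ d ≠ 11 := by
    refine ⟨?_, ?_, ?_⟩ <;> (rintro rfl; exact hprime (by decide))
  have hnine' : d = 9 → m % 2 = 0 := by
    intro e
    by_contra hne
    exact hnine ⟨e, Nat.odd_iff.mpr (by omega)⟩
  clear hprime hgood hnine hrel hrel2 hc0 hc3 hc3' hc2 h
  interval_cases m <;> interval_cases d <;> first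
    | omega
    | (exfalso; revert hT; decide)

end

end Pool.Agent.Lib.MP81632f.K3
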