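import Pool.Agent.Lib.MP_81632f_ag.K3.CaseG

/-! The case `m` an odd prime, `d < 2 m`. -/

namespace Pool.Agent.Lib.MP81632f.K3

open MulAction Pool.Agent.Lib.MP81632f Polynomial

set_option linter.unusedSectionVars false

section

variable {G R : Type*} [Group G] [Finite G] [MulAction G R] [Fintype R] [DecidableEq R]
  {bar : R → R} {v u : R → ℤ} {d m : ℕ}

theorem card_zero (h : K3System G R bar v d m) :
    (Finset.univ.filter (fun x => v x = 0)).card + 2 * m = 2 * d := by
  have h1 : (Finset.univ.filter (fun x => v x = 1)).card + (Finset.univ.filter (fun x => v x = -1)).card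
      + (Finset.univ.filter (fun x => v x = 0)).card = Fintype.card R := by
    rw [← Finset.card_univ, ← Finset.card_union_of_disjoint, ← Finset.card_union_of_disjoint]
    · congr 1
      ext x
      simp only [Finset.mem_union, Finset.mem_filter, Finset.mem_univ, true_and, iff_true]
      rcases h.val x with h3 | h3 | h3 <;> simp [h3]
    · rw [Finset.disjoint_left]
      intro x hx
      simp only [Finset.mem_union, Finset.mem_filter, Finset.mem_univ, true_and] at hx ⊢
      rcases hx with hx | hx <;> rw [hx] <;> norm_num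
    · rw [Finset.disjoint_left]
      intro x hx
      simp only [Finset.mem_filter, Finset.mem_univ, true_and] at hx ⊢
      rw [hx]; norm_num
  rw [h.cardm, h.cardneg, h.card] at h1
  omega

/-- an `l`-subgroup of the stabiliser fixes the points of value zero -/
theorem fix_zero (h : K3System G R bar v d m) (l : ℕ) [hl : Fact l.Prime] (hodd : Odd l)
    (hm : m = l) (hd : d < 2 * m) (P : Subgroup G) (hP : IsPGroup l P)
    (hst : ∀ g ∈ P, ∀ z, v (g • z) = v z) (hnf : ∀ x, bar x ≠ x) (g : G) (hg : g ∈ P) (x : R)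
    (hx : v x = 0) : g • x = x := by
  classical
  by_contra hne
  have hl3 : 3 ≤ l := by
    have := hl.out.two_le
    obtain ⟨r, hr⟩ := hodd
    omega
  set O : Finset R := (orbit P x).toFinset with hO
  have hOmem : ∀ y, y ∈ O ↔ ∃ a ∈ P, a • x = y := by
    intro y
    rw [hO, Set.mem_toFinset]
    constructor
    · rintro ⟨a, ha⟩
      exact ⟨a.1, a.2, ha⟩
    · rintro ⟨a, ha, hay⟩
      exact ⟨⟨a, ha⟩, hay⟩
  have hcard : ∃ n : ℕ, O.card = l ^ n := by
    obtain ⟨n, hn⟩ := hP.card_orbit x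
    refine ⟨n, ?_⟩
    rw [← hn, hO, Nat.card_coe_set_eq, Set.ncard_eq_toFinset_card']
  obtain ⟨n, hn⟩ := hcard
  set Z : Finset R := Finset.univ.filter (fun x => v x = 0) with hZ
  have hZcard : Z.card < 2 * l := by
    have h1 : Z.card + 2 * m = 2 * d := card_zero h
    omega
  have hOZ : O ⊆ Z := by
    intro y hy
    obtain ⟨a, ha, rfl⟩ := (hOmem y).mp hy
    rw [hZ, Finset.mem_filter]
    exact ⟨Finset.mem_univ _, by rw [hst a ha, hx]⟩
  have hxO : x ∈ O := (hOmem x).mpr ⟨1, P.one_mem, one_smul _ _⟩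
  have hgxO : g • x ∈ O := (hOmem _).mpr ⟨g, hg, rfl⟩
  have hn0 : n ≠ 0 := by
    rintro rfl
    rw [pow_zero, Finset.card_eq_one] at hn
    obtain ⟨a, ha⟩ := hn
    rw [ha, Finset.mem_singleton] at hxO hgxO
    exact hne (hgxO.trans hxO.symm)
  have hn1 : n = 1 := by
    by_contra hn1
    have h2 : 2 ≤ n := by omega
    have h3 : l ^ 2 ≤ l ^ n := Nat.pow_le_pow_right hl.out.pos h2
    have h4 := Finset.card_le_card hOZ
    rw [hn] at h4
    nlinarith
  rw [hn1, pow_one] at hn
  by_cases hbar : bar x ∈ O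
  · -- the orbit is stable under bar, contradiction with parity
    have hbO : ∀ y ∈ O, bar y ∈ O := by
      intro y hy
      obtain ⟨a, ha, rfl⟩ := (hOmem y).mp hy
      obtain ⟨b, hb, hb2⟩ := (hOmem _).mp hbar
      rw [h.signed.bar_smul, ← hb2, ← mul_smul]
      exact (hOmem _).mpr ⟨a * b, P.mul_mem ha hb, rfl⟩
    have h1 : ∑ y ∈ O, (1 : ZMod 2) = 0 := by
      refine Finset.sum_involution (fun y _ => bar y) ?_ ?_ ?_ ?_
      · intro y hy; decide
      · intro y hy _; exact hnf y
      · intro y hy; exact hbO y hy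
      · intro y hy; exact h.signed.bar_bar y
    simp only [Finset.sum_const, nsmul_eq_mul, mul_one] at h1
    rw [ZMod.natCast_eq_zero_iff, hn] at h1
    obtain ⟨r, hr⟩ := hodd
    omega
  · have hinj : Function.Injective bar := by
      intro x y hxy
      rw [← h.signed.bar_bar x, hxy, h.signed.bar_bar]
    have hdisj : Disjoint O (O.image bar) := by
      rw [Finset.disjoint_left]
      intro y hy hy'
      obtain ⟨z, hz, hzy⟩ := Finset.mem_image.mp hy'
      obtain ⟨a, ha, ha2⟩ := (hOmem _).mp hz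
      obtain ⟨b, hb, hb2⟩ := (hOmem _).mp hy
      apply hbar
      refine (hOmem _).mpr ⟨a⁻¹ * b, P.mul_mem (P.inv_mem ha) hb, ?_⟩
      rw [mul_smul, hb2, ← hzy, ← ha2, h.signed.bar_smul, inv_smul_smul]
    have hsub : O ∪ O.image bar ⊆ Z := by
      intro y hy
      rcases Finset.mem_union.mp hy with h1 | h1
      · exact hOZ h1
      · obtain ⟨z, hz, rfl⟩ := Finset.mem_image.mp h1
        have h2 := hOZ hz
        rw [hZ, Finset.mem_filter] at h2 ⊢
        exact ⟨Finset.mem_univ _, by rw [h.signed.m_bar, h2.2, neg_zero]⟩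
    have h5 := Finset.card_le_card hsub
    rw [Finset.card_union_of_disjoint hdisj, Finset.card_image_of_injective _ hinj, hn] at h5
    omega

theorem exists_cycle (h : K3System G R bar v d m) (l : ℕ) [hl : Fact l.Prime] (hodd : Odd l)
    (hm : m = l) (hd : d < 2 * m) :
    ∃ g : G, (∀ z, v (g • z) = v z) ∧ (∀ z, v z = 0 → g • z = z) ∧
      ∃ x0, v x0 = 1 ∧ g • x0 ≠ x0 ∧ g ^ l • x0 = x0 ∧ ∀ y, v y = 1 → ∃ i < l, g ^ i • x0 = y := by
  classical
  obtain ⟨x0, hx0⟩ := h.exists_pos (by rw [hm]; exact hl.out.pos)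
  have hnf := nofix h.signed (z := x0) (by rw [hx0]; norm_num)
  obtain ⟨P, hP, hst, htr⟩ := exists_pgroup h l 1 (by rw [hm, pow_one])
  -- another point
  have h2 : 1 < (Finset.univ.filter (fun x => v x = 1)).card := by
    rw [h.cardm, hm]; exact hl.out.one_lt
  obtain ⟨y0, hy0, hne⟩ := Finset.exists_mem_ne h2 x0
  simp only [Finset.mem_filter, Finset.mem_univ, true_and] at hy0
  obtain ⟨g, hg, hgx⟩ := htr x0 y0 hx0 hy0
  have hgne : g • x0 ≠ x0 := by rw [hgx]; exact hne
  refine ⟨g, hst g hg, fun z hz => fix_zero h l hodd hm hd P hP hst hnf g hg z hz, x0, hx0, hgne, ?_⟩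
  -- the orbit of x0 under the cyclic group
  have hZP : Subgroup.zpowers g ≤ P := by rw [Subgroup.zpowers_le]; exact hg
  have hZ : IsPGroup l (Subgroup.zpowers g) := hP.to_le hZP
  obtain ⟨n, hn⟩ := hZ.card_orbit x0
  set O : Finset R := (orbit (Subgroup.zpowers g) x0).toFinset with hO
  have hOcard : O.card = l ^ n := by
    rw [← hn, hO, Nat.card_coe_set_eq, Set.ncard_eq_toFinset_card']
  have hOmem : ∀ y, y ∈ O ↔ ∃ i : ℤ, g ^ i • x0 = y := by
    intro y
    rw [hO, Set.mem_toFinset]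
    constructor
    · rintro ⟨⟨a, i, rfl⟩, ha⟩
      exact ⟨i, ha⟩
    · rintro ⟨i, hi⟩
      exact ⟨⟨g ^ i, ⟨i, rfl⟩⟩, hi⟩
  have hsub : O ⊆ Finset.univ.filter (fun x => v x = 1) := by
    intro y hy
    obtain ⟨i, rfl⟩ := (hOmem y).mp hy
    simp only [Finset.mem_filter, Finset.mem_univ, true_and]
    rw [hst _ (P.zpow_mem hg i), hx0]
  have hx0O : x0 ∈ O := (hOmem x0).mpr ⟨0, by simp⟩
  have hgO : g • x0 ∈ O := (hOmem _).mpr ⟨1, by simp⟩
  have hn0 : n ≠ 0 := by
    rintro rfl
    rw [pow_zero, Finset.card_eq_one] at hOcard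
    obtain ⟨a, ha⟩ := hOcard
    rw [ha, Finset.mem_singleton] at hx0O hgO
    exact hgne (hgO.trans hx0O.symm)
  have hcle := Finset.card_le_card hsub
  rw [h.cardm, hm, hOcard] at hcle
  have hn1 : n = 1 := by
    by_contra hn1
    have h2 : 2 ≤ n := by omega
    have h3 : l ^ 2 ≤ l ^ n := Nat.pow_le_pow_right hl.out.pos h2
    have := hl.out.two_le
    nlinarith
  rw [hn1, pow_one] at hOcard
  have hOeq : O = Finset.univ.filter (fun x => v x = 1) := by
    apply Finset.eq_of_subset_of_card_le hsub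
    rw [h.cardm, hm, hOcard]
  have hper : g ^ l • x0 = x0 := by
    have e1 : Function.minimalPeriod (g • ·) x0 = l := by
      rw [minimalPeriod_eq_card, ← hOcard, hO, Set.toFinset_card]
    have e2 := MulAction.pow_period_smul g x0
    rw [MulAction.period, e1] at e2
    exact e2
  refine ⟨hper, ?_⟩
  intro y hy
  have hyO : y ∈ O := by rw [hOeq]; simp [hy]
  obtain ⟨i, rfl⟩ := (hOmem y).mp hyO
  have hl0 : (0 : ℤ) < l := by exact_mod_cast hl.out.pos
  refine ⟨(i % l).toNat, ?_, ?_⟩
  · have := Int.emod_lt_of_pos i hl0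
    have h3 := Int.emod_nonneg i hl0.ne'
    omega
  · have h3 := Int.emod_nonneg i hl0.ne'
    have h4 : g ^ (i % l).toNat = g ^ (i % (l : ℤ)) := by
      rw [← zpow_natCast, Int.toNat_of_nonneg h3]
    rw [h4]
    have h5 : g ^ i = g ^ (i % (l : ℤ)) * (g ^ l) ^ (i / l) := by
      rw [← zpow_natCast g l, ← zpow_mul, ← zpow_add, Int.emod_add_mul_ediv]
    rw [h5, mul_smul]
    have h6 : (g ^ l) ^ (i / (l : ℤ)) • x0 = x0 := by
      have : (g ^ l) ∈ stabilizer G x0 := hper
      exact (stabilizer G x0).zpow_mem this _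
    rw [h6]

end

end Pool.Agent.Lib.MP81632f.K3
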