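import Mathlib

/-! Definitions used by the statement of `K3Powers`. -/

namespace Pool.Agent.Lib.MP81632f.K3

open Polynomial Module Module.End

section

variable (p : ℕ) [Fact p.Prime] (a : ℕ)

/-- `|z| ^ h = |q| ^ k` for the `p`-adic absolute value, `q = p ^ a`: `z` has slope `k / h`. -/
def SlopeIs (h k : ℕ) (z : PadicAlgCl p) : Prop := ‖z‖ ^ h = ‖(p : PadicAlgCl p) ^ a‖ ^ k

/-- `P` is of K3 type of height `h` over the field with `q = p ^ a` elements, of degree `2 d` and
with `m` steep roots: `P` is irreducible over the rationals of degree `2 d`, its complex roots are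
algebraic integers of absolute value `q`, different complex roots have different `N`-th powers for
all `N > 0`, every root in an algebraic closure of the `p`-adic numbers has slope `1 - 1 / h`, `1`
or `1 + 1 / h`, exactly `m > 0` of them have slope `1 + 1 / h` (the steep roots), and these are
conjugate over the `p`-adic numbers. -/
structure IsK3Type (h : ℕ) (P : ℚ[X]) (d m : ℕ) : Prop where
  ha : 0 < a
  height : 0 < h
  irr : Irreducible P
  degree : P.natDegree = 2 * d
  weil : ∀ z : ℂ, aeval z P = 0 → IsIntegral ℤ z ∧ ‖z‖ = (p : ℝ) ^ a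
  geom : ∀ (z w : ℂ) (N : ℕ), aeval z P = 0 → aeval w P = 0 → 0 < N → z ^ N = w ^ N → z = w
  slope : ∀ z : PadicAlgCl p, aeval z P = 0 →
    SlopeIs p a h (h - 1) z ∨ SlopeIs p a h h z ∨ SlopeIs p a h (h + 1) z
  pos : 0 < m
  count : {z : PadicAlgCl p | aeval z P = 0 ∧ SlopeIs p a h (h + 1) z}.ncard = m
  conj : ∀ z w : PadicAlgCl p, aeval z P = 0 → aeval w P = 0 →
    SlopeIs p a h (h + 1) z → SlopeIs p a h (h + 1) w → minpoly ℚ_[p] z = minpoly ℚ_[p] w

end

/-- The types `(d, m)` for which there is no condition on `i` and on the Galois group (for a K3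
surface `d ≤ 10`). -/
def Covered (d m : ℕ) : Prop :=
  (Odd m ∧ d ≤ 11 ∧ (d, m) ≠ (6, 3) ∧ (d, m) ≠ (9, 3) ∧ (d, m) ≠ (10, 3) ∧ (d, m) ≠ (10, 5)) ∨
  (d = 2 ∧ m = 2)

/-- The types `(d, m)` for which there is no condition on the Galois group if `i ≤ 3`. -/
def TripleFree (d m : ℕ) : Prop :=
  d ≤ 11 ∧ (d, m) ≠ (3, 2) ∧ (d, m) ≠ (6, 2) ∧ (d, m) ≠ (6, 3) ∧ (d, m) ≠ (6, 4) ∧
    (d, m) ≠ (9, 2) ∧ (d, m) ≠ (9, 4) ∧ (d, m) ≠ (9, 6) ∧ (d, m) ≠ (10, 4) ∧ (d, m) ≠ (10, 6)

section

variable (p a : ℕ)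

/-- `y` is `x` or `q ^ 2 / x`, `q = p ^ a`. -/
def SamePair {L : Type} [Field L] (x y : L) : Prop := y = x ∨ y = (p : L) ^ (2 * a) / x

/-- The Galois group of `P` acts doubly transitively on the pairs `{x, q ^ 2 / x}` of roots. -/
def DoublyTransitive (P : ℚ[X]) : Prop :=
  ∀ x y x' y' : P.SplittingField, aeval x P = 0 → aeval y P = 0 → aeval x' P = 0 →
    aeval y' P = 0 → ¬ SamePair p a x y → ¬ SamePair p a x' y' →
    ∃ g : P.SplittingField ≃ₐ[ℚ] P.SplittingField, SamePair p a x' (g x) ∧ SamePair p a y' (g y)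

/-- For any two roots `x`, `y` of `P` in different pairs some element `g` of the Galois group maps
every root `z` to `z` or `q ^ 2 / z` and fixes exactly one of `x`, `y`. -/
def SeparatingSigns (P : ℚ[X]) : Prop :=
  ∀ x y : P.SplittingField, aeval x P = 0 → aeval y P = 0 → ¬ SamePair p a x y →
    ∃ g : P.SplittingField ≃ₐ[ℚ] P.SplittingField, (∀ z, aeval z P = 0 → SamePair p a z (g z)) ∧
      ((g x = x ∧ g y ≠ y) ∨ (g x ≠ x ∧ g y = y))

/-- The field `ℚ(z)` generated by a complex root `z` of `P` contains no square root of a negative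
rational number, i.e. no imaginary quadratic field. -/
def NoImaginaryQuadratic (P : ℚ[X]) : Prop :=
  ∀ z : ℂ, aeval z P = 0 → ∀ θ ∈ IntermediateField.adjoin ℚ {z}, ∀ t : ℚ, θ ^ 2 = (t : ℂ) → 0 ≤ t

/-- The range of the theorem, for polynomials `P` of degree `2 d` with `m` steep roots and classes
of codimension `i`. -/
def InRange (P : ℚ[X]) (d m i : ℕ) : Prop :=
  Covered d m ∨ (Odd m ∧ m < d ∧ DoublyTransitive p a P) ∨ SeparatingSigns p a P ∨
    (i ≤ 3 ∧ TripleFree d m) ∨ (((d.Prime ∧ Odd d) ∨ d = 4) ∧ (i < d ∨ NoImaginaryQuadratic P))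

end

section

variable {K R : Type} [Field K] [CommRing R] [Algebra K R]

/-- The `η` in `W` with `F η = μ η`. -/
def eigenIn (F : R →ₐ[K] R) (W : Submodule K R) (μ : K) : Set R := {η | η ∈ W ∧ F η = μ • η}

/-- Every `ω` in `W ^ i` (the span of the products of `i` elements of `W`) which is a generalised
eigenvector of `F` for `q ^ i` is an eigenvector, and it is a polynomial in the `η` in `W` with
`F η = q η` and the `η` in `W ^ 2` with `F η = q ^ 2 η`. -/
def PairGenerated (F : R →ₐ[K] R) (W : Submodule K R) (q : K) (i : ℕ) : Prop :=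
  ∀ ω ∈ W ^ i, ω ∈ maxGenEigenspace F.toLinearMap (q ^ i) →
    F ω = q ^ i • ω ∧ ω ∈ Algebra.adjoin K (eigenIn F W q ∪ eigenIn F (W ^ 2) (q ^ 2))

end

/-- Let `K` be an algebraically closed field of characteristic zero, `R` a commutative
`K`-algebra with an endomorphism `F` and `W` a finite dimensional subspace with `F(W)` in `W`, on
which `(F ^ M - q ^ M) P(F)` vanishes, `q = p ^ a`.  If `N > 0` is divisible by `M`, then
`PairGenerated (F ^ N) W (q ^ N) i`. -/
def GeneratedByPairs (p a : ℕ) (P : ℚ[X]) (i : ℕ) : Prop :=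
  ∀ (K R : Type) [Field K] [CharZero K] [IsAlgClosed K] [CommRing R] [Algebra K R]
    (F : R →ₐ[K] R) (W : Submodule K R) (M N : ℕ),
    FiniteDimensional K W → (∀ w ∈ W, F w ∈ W) → 0 < N → M ∣ N →
    (∀ w ∈ W, aeval F.toLinearMap
      ((X ^ M - C (((p : K) ^ a) ^ M)) * P.map (algebraMap ℚ K)) w = 0) →
    PairGenerated (F ^ N) W (((p : K) ^ a) ^ N) i

end Pool.Agent.Lib.MP81632f.K3
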