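import Pool.Agent.Lib.MP_81632f_ag.CoreD
import Pool.Agent.Lib.MP_81632f_ag.K3.Case9
import Pool.Agent.Lib.MP_81632f_ag.K3.Statement

/-! Further cases: `d = m = 2`, double transitivity, separating sign changes. -/

namespace Pool.Agent.Lib.MP81632f.K3

open MulAction Pool.Agent.Lib.MP81632f

set_option linter.unusedSectionVars false

/-- Some group elements act by sign changes, and these separate the pairs. -/
def SignSeparating (G : Type*) {R : Type*} [Group G] [MulAction G R] (bar : R → R) : Prop :=
  ∀ x y : R, y ≠ x → y ≠ bar x → ∃ g : G, (∀ z : R, g • z = z ∨ g • z = bar z) ∧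
    ((g • x = x ∧ g • y ≠ y) ∨ (g • x ≠ x ∧ g • y = y))

section

variable {G R : Type*} [Group G] [Finite G] [MulAction G R] [Fintype R] [DecidableEq R]
  {bar : R → R} {v u : R → ℤ} {d m : ℕ}

theorem m_le_d (h : K3System G R bar v d m) : m ≤ d := by
  have := card_zero h
  omega

theorem case_two_two (h : K3System G R bar v 2 2) (hu : IsRel G bar v u) : u = 0 := by
  classical
  have h2 : 1 < (Finset.univ.filter (fun x => v x = 1)).card := by rw [h.cardm]; norm_num
  obtain ⟨x, hx, y, hy, hxy⟩ := Finset.one_lt_card.mp h2
  simp only [Finset.mem_filter, Finset.mem_univ, true_and] at hx hy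
  have hnf := nofix h.signed (z := x) (by rw [hx]; norm_num)
  -- {x, y} is a half system
  have hT1 : ({x, y} : Finset R) = Finset.univ.filter (fun x => v x = 1) := by
    apply Finset.eq_of_subset_of_card_le
    · intro z hz
      simp only [Finset.mem_insert, Finset.mem_singleton] at hz
      rcases hz with rfl | rfl <;> simp [hx, hy]
    · rw [h.cardm, Finset.card_pair hxy]
  have hz : ∀ z, v z ≠ 0 := by
    intro z hz
    have h1 := card_zero h
    have h2 : 0 < (Finset.univ.filter (fun x => v x = 0)).card :=
      Finset.card_pos.mpr ⟨z, by simp [hz]⟩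
    omega
  have hhalf : IsHalf bar ({x, y} : Finset R) := by
    rw [hT1]
    refine ⟨fun x => ?_, fun x hx hbx => ?_⟩
    · simp only [Finset.mem_filter, Finset.mem_univ, true_and, h.signed.m_bar]
      rcases h.val x with h3 | h3 | h3
      · exact Or.inl h3
      · exact absurd h3 (hz x)
      · right; rw [h3]; norm_num
    · simp only [Finset.mem_filter, Finset.mem_univ, true_and, h.signed.m_bar] at hx hbx
      rw [hx] at hbx
      norm_num at hbx
  have hrel := fun g => rel_half h.signed hnf hu hhalf g
  simp only [Finset.sum_pair hxy] at hrel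
  have h1 := hrel 1
  rw [one_smul, one_smul, hx, hy] at h1
  have hux : u x = 0 := by
    by_contra hne
    apply hxy
    apply h.sep
    intro g
    have h2 := hrel g
    have h3 : u y = - u x := by linarith
    rw [h3] at h2
    have h4 : u x * (v (g • x) - v (g • y)) = 0 := by linarith
    have h5 := (mul_eq_zero.mp h4).resolve_left hne
    linarith
  have huy : u y = 0 := by linarith
  funext z
  rcases hhalf.1 z with h3 | h3
  · simp only [Finset.mem_insert, Finset.mem_singleton] at h3
    rcases h3 with rfl | rfl
    · exact hux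
    · exact huy
  · simp only [Finset.mem_insert, Finset.mem_singleton] at h3
    have h4 := hu.1 z
    rcases h3 with h3 | h3
    · rw [h3, hux] at h4
      simp only [Pi.zero_apply]; linarith
    · rw [h3, huy] at h4
      simp only [Pi.zero_apply]; linarith

theorem case_two_transitive (h : K3System G R bar v d m) (hm : Odd m) (hmd : m < d)
    (h2 : PairTwoTransitive G bar) (hu : IsRel G bar v u) : u = 0 := by
  classical
  have _ := Fintype.ofFinite G
  have h0 := card_zero h
  have h3 : 0 < (Finset.univ.filter (fun x => v x = 0)).card := by omega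
  obtain ⟨z, hz⟩ := Finset.card_pos.mp h3
  simp only [Finset.mem_filter, Finset.mem_univ, true_and] at hz
  refine core_d h.signed h2 ?_ (z := z) (by rw [hz]; exact Even.zero) hu
  have hset : (Finset.univ.filter (fun x => Odd (v x)))
      = Finset.univ.filter (fun x => v x = 1) ∪ Finset.univ.filter (fun x => v x = -1) := by
    ext x
    simp only [Finset.mem_union, Finset.mem_filter, Finset.mem_univ, true_and]
    rcases h.val x with h3 | h3 | h3 <;> rw [h3] <;> decide
  rw [hset, Finset.card_union_of_disjoint, h.cardm, h.cardneg]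
  · obtain ⟨r, hr⟩ := hm
    omega
  · rw [Finset.disjoint_left]
    intro x hx
    simp only [Finset.mem_filter, Finset.mem_univ, true_and] at hx ⊢
    rw [hx]; norm_num

theorem case_signs (h : K3System G R bar v d m) (hm : 0 < m) (h2 : SignSeparating G bar)
    (hu : IsRel G bar v u) : u = 0 := by
  classical
  by_contra hu0
  obtain ⟨x0, hx0⟩ := Function.ne_iff.mp hu0
  obtain ⟨x1, hx1⟩ := h.exists_pos hm
  have hnf := nofix h.signed (z := x1) (by rw [hx1]; norm_num)
  -- relations vanishing on a set of points
  have key : ∀ S : Finset R, x0 ∉ S → bar x0 ∉ S → ∃ w, IsRel G bar v w ∧ w x0 ≠ 0 ∧ ∀ y ∈ S, w y = 0 := by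
    intro S
    induction S using Finset.induction_on with
    | empty => intro _ _; exact ⟨u, hu, hx0, fun y hy => absurd hy (Finset.notMem_empty y)⟩
    | insert y S _ ih =>
      intro h3 h4
      rw [Finset.mem_insert, not_or] at h3 h4
      obtain ⟨w, hw, hw0, hwS⟩ := ih h3.2 h4.2
      obtain ⟨g, hg, hsep⟩ := h2 x0 y (Ne.symm h3.1) (Ne.symm h4.1)
      have hS : ∀ s ∈ S, w (g • s) = 0 := by
        intro s hs
        rcases hg s with h5 | h5 <;> rw [h5]
        · exact hwS s hs
        · rw [hw.1, hwS s hs, neg_zero]
      have hwg := rel_smul h.signed hw g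
      rcases hsep with ⟨h5, h6⟩ | ⟨h5, h6⟩
      · have h7 := (hg y).resolve_left h6
        refine ⟨w + fun x => w (g • x), (relGroup G bar v).add_mem hw hwg, ?_, ?_⟩
        · simp only [Pi.add_apply, h5]
          intro h8; apply hw0; linarith
        · intro s hs
          rcases Finset.mem_insert.mp hs with rfl | hs
          · simp only [Pi.add_apply, h7, hw.1]; ring
          · simp only [Pi.add_apply, hwS s hs, hS s hs]; norm_num
      · have h7 := (hg x0).resolve_left h5
        refine ⟨w - fun x => w (g • x), (relGroup G bar v).sub_mem hw hwg, ?_, ?_⟩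
        · simp only [Pi.sub_apply, h7, hw.1]
          intro h8; apply hw0; linarith
        · intro s hs
          rcases Finset.mem_insert.mp hs with rfl | hs
          · simp only [Pi.sub_apply, h6, sub_self]
          · simp only [Pi.sub_apply, hwS s hs, hS s hs]; norm_num
  obtain ⟨w, hw, hw0, hwS⟩ := key (Finset.univ \ {x0, bar x0}) (by simp) (by simp)
  have hws : ∀ y, y ≠ x0 → y ≠ bar x0 → w y = 0 := by
    intro y h3 h4
    apply hwS
    simp [h3, h4]
  obtain ⟨g, hg⟩ := h.signed.trans x0 x1
  have h3 := hw.2 g
  have hne : x0 ≠ bar x0 := (hnf x0).symm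
  rw [← Finset.add_sum_erase _ _ (Finset.mem_univ x0),
    ← Finset.add_sum_erase _ _ (Finset.mem_erase.mpr ⟨hne.symm, Finset.mem_univ (bar x0)⟩),
    Finset.sum_eq_zero (fun y hy => ?_), hw.1, ← h.signed.bar_smul, h.signed.m_bar, hg, hx1] at h3
  · apply hw0; linarith
  · rw [Finset.mem_erase, Finset.mem_erase] at hy
    rw [hws y hy.2.1 hy.1, zero_mul]

/-- The combinatorial theorem. -/
theorem core_all (h : K3System G R bar v d m) (hm : 0 < m)
    (hc : Covered d m ∨ (Odd m ∧ m < d ∧ PairTwoTransitive G bar) ∨ SignSeparating G bar)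
    (hu : IsRel G bar v u) : u = 0 := by
  rcases hc with hc | ⟨h1, h2, h3⟩ | hc
  · have hmd := m_le_d h
    rcases hc with ⟨h1, h2, h3⟩ | ⟨rfl, rfl⟩
    · by_cases h4 : d ≤ 10
      · exact core_k3 h (goodPair_le_ten d m h4 h1 hmd h3) hu
      · have h5 : d = 11 := by omega
        exact core_k3 h ⟨h1, hmd, Or.inr (Or.inl (by rw [h5]; decide))⟩ hu
    · exact case_two_two h hu
  · exact case_two_transitive h h1 h2 h3 hu
  · exact case_signs h hm hc hu

end

end Pool.Agent.Lib.MP81632f.K3
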