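import Pool.Agent.Lib.MP_81632f_ag.K3.Count

/-! The case `d = 4`. -/

namespace Pool.Agent.Lib.MP81632f.K3

open MulAction Pool.Agent.Lib.MP81632f

set_option linter.unusedSectionVars false

section

variable {G R : Type*} [Group G] [Finite G] [MulAction G R] [Fintype R] [DecidableEq R]
  {bar : R → R} {v u : R → ℤ} {d m : ℕ}

theorem sq_bar (hu : IsRel G bar v u) (x : R) : u (bar x) ^ 2 = u x ^ 2 := by
  rw [hu.1]; ring

/-- If three of the four pairs have equal squares for all relations, so has the fourth. -/
theorem three_of_four (h : SignedSystem G R bar v) {a b c e : R}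
    (hT : ∀ x : R, x = a ∨ x = b ∨ x = c ∨ x = e ∨ x = bar a ∨ x = bar b ∨ x = bar c ∨ x = bar e)
    (hab : b ≠ a) (hab' : b ≠ bar a)
    (hq : ∀ w, IsRel G bar v w → w a ^ 2 = w b ^ 2 ∧ w a ^ 2 = w c ^ 2) (hu : IsRel G bar v u)
    (x y : R) : u x ^ 2 = u y ^ 2 := by
  obtain ⟨σ, hσ⟩ := h.trans a e
  have h1 := hq _ (rel_smul h hu σ)
  have h2 := hq u hu
  simp only [hσ] at h1
  have hb : σ • b ≠ e := by
    rw [← hσ]; exact fun E => hab (MulAction.injective σ E)
  have hb' : σ • b ≠ bar e := by
    rw [← hσ, h.bar_smul]; exact fun E => hab' (MulAction.injective σ E)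
  have h3 : u (σ • b) ^ 2 = u a ^ 2 := by
    rcases hT (σ • b) with E | E | E | E | E | E | E | E
    · rw [E]
    · rw [E, h2.1]
    · rw [E, h2.2]
    · exact absurd E hb
    · rw [E, sq_bar hu]
    · rw [E, sq_bar hu, h2.1]
    · rw [E, sq_bar hu, h2.2]
    · exact absurd E hb'
  have he : u e ^ 2 = u a ^ 2 := by rw [h1.1, h3]
  have hall : ∀ x, u x ^ 2 = u a ^ 2 := by
    intro x
    rcases hT x with E | E | E | E | E | E | E | E <;> rw [E]
    · exact h2.1.symm
    · exact h2.2.symm
    · exact he
    · exact sq_bar hu a
    · rw [sq_bar hu]; exact h2.1.symm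
    · rw [sq_bar hu]; exact h2.2.symm
    · rw [sq_bar hu]; exact he
  rw [hall x, hall y]

theorem four_four (h : K3System G R bar v 4 4) (hu : IsRel G bar v u) (x y : R) :
    u x ^ 2 = u y ^ 2 := by
  classical
  by_cases hu0 : u = 0
  · rw [hu0]; rfl
  obtain ⟨z0, hz0⟩ := Function.ne_iff.mp hu0
  have hnz : ∀ x, ∃ w, IsRel G bar v w ∧ w x ≠ 0 := by
    intro x
    obtain ⟨g, hg⟩ := h.signed.trans x z0
    exact ⟨_, rel_smul h.signed hu g, by rw [hg]; exact hz0⟩
  obtain ⟨x1, hx1⟩ := h.exists_pos (by norm_num)
  have hnf := nofix h.signed (z := x1) (by rw [hx1]; norm_num)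
  have hval : ∀ x, v x = 1 ∨ v x = -1 := by
    intro x
    rcases h.val x with e | e | e
    · exact Or.inl e
    · exfalso
      have h1 := card_zero h
      have h2 : 0 < (Finset.univ.filter (fun x => v x = 0)).card :=
        Finset.card_pos.mpr ⟨x, by simp [e]⟩
      omega
    · exact Or.inr e
  have hcard := h.cardm
  rw [Finset.card_eq_succ] at hcard
  obtain ⟨a, t1, hat1, ht1, hc1⟩ := hcard
  rw [Finset.card_eq_three] at hc1
  obtain ⟨b, c, e, hbc, hbe, hce, rfl⟩ := hc1
  have hmemT : ∀ x, v x = 1 → x = a ∨ x = b ∨ x = c ∨ x = e := by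
    intro x hx
    have h1 : x ∈ Finset.univ.filter (fun x => v x = 1) := by simp [hx]
    rw [← ht1] at h1
    simpa using h1
  have hT : ∀ x : R, x = a ∨ x = b ∨ x = c ∨ x = e ∨ x = bar a ∨ x = bar b ∨ x = bar c ∨ x = bar e := by
    intro x
    rcases hval x with E | E
    · rcases hmemT x E with F | F | F | F
      · exact Or.inl F
      · exact Or.inr (Or.inl F)
      · exact Or.inr (Or.inr (Or.inl F))
      · exact Or.inr (Or.inr (Or.inr (Or.inl F)))
    · have h1 : v (bar x) = 1 := by rw [h.signed.m_bar, E]; norm_num
      have h2 : ∀ y, bar x = y → x = bar y := by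
        rintro y rfl; exact (h.signed.bar_bar x).symm
      rcases hmemT _ h1 with F | F | F | F
      · exact Or.inr (Or.inr (Or.inr (Or.inr (Or.inl (h2 _ F)))))
      · exact Or.inr (Or.inr (Or.inr (Or.inr (Or.inr (Or.inl (h2 _ F))))))
      · exact Or.inr (Or.inr (Or.inr (Or.inr (Or.inr (Or.inr (Or.inl (h2 _ F)))))))
      · exact Or.inr (Or.inr (Or.inr (Or.inr (Or.inr (Or.inr (Or.inr (h2 _ F)))))))
  simp only [Finset.mem_insert, Finset.mem_singleton, not_or] at hat1
  have hone : ∀ x, x = a ∨ x = b ∨ x = c ∨ x = e → v x = 1 := by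
    intro x hx
    have h1 : x ∈ insert a ({b, c, e} : Finset R) := by simpa using hx
    rw [ht1] at h1
    simpa using h1
  have va := hone a (Or.inl rfl)
  have vb := hone b (Or.inr (Or.inl rfl))
  have vc := hone c (Or.inr (Or.inr (Or.inl rfl)))
  have ve := hone e (Or.inr (Or.inr (Or.inr rfl)))
  -- the orthogonality relations
  have hhalf : IsHalf bar (insert a ({b, c, e} : Finset R)) := by
    rw [ht1]
    refine ⟨fun x => ?_, fun x hx hbx => ?_⟩
    · simp only [Finset.mem_filter, Finset.mem_univ, true_and, h.signed.m_bar]
      rcases hval x with h3 | h3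
      · exact Or.inl h3
      · right; rw [h3]; norm_num
    · simp only [Finset.mem_filter, Finset.mem_univ, true_and, h.signed.m_bar] at hx hbx
      rw [hx] at hbx
      norm_num at hbx
  have horth : ∀ w, IsRel G bar v w → ∀ g : G,
      w a * v (g • a) + w b * v (g • b) + w c * v (g • c) + w e * v (g • e) = 0 := by
    intro w hw g
    have h1 := rel_half h.signed hnf hw hhalf g
    rw [Finset.sum_insert (by simp [hat1]), Finset.sum_insert (by simp [hbc, hbe]),
      Finset.sum_insert (by simp [hce]), Finset.sum_singleton] at h1
    linarith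
  have hsum : ∀ w, IsRel G bar v w → w a + w b + w c + w e = 0 := by
    intro w hw
    have h1 := horth w hw 1
    simp only [one_smul, va, vb, vc, ve] at h1
    linarith
  -- for different i, j the two possibilities
  have key : ∀ i j k l : R, (∀ w, IsRel G bar v w → ∀ g : G,
      w i * v (g • i) + w j * v (g • j) + w k * v (g • k) + w l * v (g • l) = 0) →
      (∀ w, IsRel G bar v w → w i + w j + w k + w l = 0) → i ≠ j →
      (∀ w, IsRel G bar v w → w i = - w k ∧ w j = - w l) ∨
      (∀ w, IsRel G bar v w → w i = - w l ∧ w j = - w k) := by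
    intro i j k l ho hs hij
    obtain ⟨g, hg⟩ : ∃ g : G, v (g • i) ≠ v (g • j) := by
      by_contra hall
      push Not at hall
      exact hij (h.sep i j hall)
    rcases hval (g • i) with e1 | e1 <;> rcases hval (g • j) with e2 | e2 <;>
      rcases hval (g • k) with e3 | e3 <;> rcases hval (g • l) with e4 | e4 <;>
      first
      | (exfalso; apply hg; rw [e1, e2]; done)
      | (left; intro w hw
         have h1 := ho w hw g
         have h2 := hs w hw
         rw [e1, e2, e3, e4] at h1
         constructor <;> linarith)
      | (right; intro w hw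
         have h1 := ho w hw g
         have h2 := hs w hw
         rw [e1, e2, e3, e4] at h1
         constructor <;> linarith)
      | (exfalso
         obtain ⟨w, hw, hwi⟩ := hnz i
         have h1 := ho w hw g
         have h2 := hs w hw
         rw [e1, e2, e3, e4] at h1
         apply hwi; linarith)
      | (exfalso
         obtain ⟨w, hw, hwj⟩ := hnz j
         have h1 := ho w hw g
         have h2 := hs w hw
         rw [e1, e2, e3, e4] at h1
         apply hwj; linarith)
  refine three_of_four h.signed hT (Ne.symm hat1.1) ?_ ?_ hu x y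
  · rintro rfl
    rw [h.signed.m_bar, va] at vb
    norm_num at vb
  · rcases key a b c e horth hsum hat1.1 with K | K
    · -- w a = - w c, w b = - w e
      have horth' : ∀ w, IsRel G bar v w → ∀ g : G,
          w a * v (g • a) + w c * v (g • c) + w b * v (g • b) + w e * v (g • e) = 0 := by
        intro w hw g; linarith [horth w hw g]
      have hsum' : ∀ w, IsRel G bar v w → w a + w c + w b + w e = 0 := by
        intro w hw; linarith [hsum w hw]
      rcases key a c b e horth' hsum' hat1.2.1 with L | L
      · intro w hw
        have h1 := K w hw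
        have h2 := L w hw
        constructor
        · rw [h2.1]; ring
        · rw [h1.1]; ring
      · intro w hw
        have h1 := K w hw
        have h2 := L w hw
        constructor
        · rw [h2.1, h1.2]
        · rw [h1.1]; ring
    · -- w a = - w e, w b = - w c
      have horth' : ∀ w, IsRel G bar v w → ∀ g : G,
          w a * v (g • a) + w e * v (g • e) + w b * v (g • b) + w c * v (g • c) = 0 := by
        intro w hw g; linarith [horth w hw g]
      have hsum' : ∀ w, IsRel G bar v w → w a + w e + w b + w c = 0 := by
        intro w hw; linarith [hsum w hw]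
      rcases key a e b c horth' hsum' hat1.2.2 with L | L
      · intro w hw
        have h1 := K w hw
        have h2 := L w hw
        constructor
        · rw [h2.1]; ring
        · rw [h1.1, h2.2]; ring
      · intro w hw
        have h1 := K w hw
        have h2 := L w hw
        constructor
        · have : w a = w b := by rw [h2.1, h1.2]
          rw [this]
        · rw [h2.1]; ring

theorem four_two (h : K3System G R bar v 4 2) (hu : IsRel G bar v u) (x y : R) :
    u x ^ 2 = u y ^ 2 := by
  classical
  by_cases hu0 : u = 0
  · rw [hu0]; rfl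
  obtain ⟨z0, hz0⟩ := Function.ne_iff.mp hu0
  have hnz : ∀ x, ∃ w, IsRel G bar v w ∧ w x ≠ 0 := by
    intro x
    obtain ⟨g, hg⟩ := h.signed.trans x z0
    exact ⟨_, rel_smul h.signed hu g, by rw [hg]; exact hz0⟩
  have hcard := h.cardm
  rw [Finset.card_eq_two] at hcard
  obtain ⟨a, b, hab, hS⟩ := hcard
  have va : v a = 1 := by
    have : a ∈ Finset.univ.filter (fun x => v x = 1) := by rw [hS]; simp
    simpa using this
  have vb : v b = 1 := by
    have : b ∈ Finset.univ.filter (fun x => v x = 1) := by rw [hS]; simp
    simpa using this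
  have hnf := nofix h.signed (z := a) (by rw [va]; norm_num)
  -- the points of value zero
  have hz4 : (Finset.univ.filter (fun x => v x = 0)).card = 4 := by
    have := card_zero h
    omega
  obtain ⟨c, hc⟩ := Finset.card_pos.mp (by rw [hz4]; norm_num :
    0 < (Finset.univ.filter (fun x => v x = 0)).card)
  have vc : v c = 0 := by simpa using hc
  have vbc : v (bar c) = 0 := by rw [h.signed.m_bar, vc]; norm_num
  obtain ⟨e, he, hec⟩ : ∃ e ∈ Finset.univ.filter (fun x => v x = 0), e ∉ ({c, bar c} : Finset R) := by
    by_contra hall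
    push Not at hall
    have h1 : (Finset.univ.filter (fun x => v x = 0)) ⊆ ({c, bar c} : Finset R) := hall
    have h2 := Finset.card_le_card h1
    rw [hz4] at h2
    have h3 := Finset.card_le_two (a := c) (b := bar c)
    omega
  have ve : v e = 0 := by simpa using he
  simp only [Finset.mem_insert, Finset.mem_singleton, not_or] at hec
  have hbinv : ∀ x y : R, bar x = y → x = bar y := by
    rintro x y rfl; exact (h.signed.bar_bar x).symm
  have hinj : Function.Injective bar := by
    intro x y hxy
    rw [← h.signed.bar_bar x, hxy, h.signed.bar_bar]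
  have hZ : Finset.univ.filter (fun x => v x = 0) = {c, e, bar c, bar e} := by
    symm
    apply Finset.eq_of_subset_of_card_le
    · intro x hx
      simp only [Finset.mem_insert, Finset.mem_singleton] at hx
      simp only [Finset.mem_filter, Finset.mem_univ, true_and]
      rcases hx with rfl | rfl | rfl | rfl
      · exact vc
      · exact ve
      · exact vbc
      · rw [h.signed.m_bar, ve]; norm_num
    · rw [hz4]
      have h1 : c ∉ ({e, bar c, bar e} : Finset R) := by
        simp only [Finset.mem_insert, Finset.mem_singleton, not_or]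
        refine ⟨Ne.symm hec.1, Ne.symm (hnf c), fun E => hec.2 (hbinv _ _ E.symm)⟩
      have h2 : e ∉ ({bar c, bar e} : Finset R) := by
        simp only [Finset.mem_insert, Finset.mem_singleton, not_or]
        exact ⟨hec.2, Ne.symm (hnf e)⟩
      have h3 : bar c ∉ ({bar e} : Finset R) := by
        simp only [Finset.mem_singleton]
        exact fun E => hec.1 (hinj E).symm
      rw [Finset.card_insert_of_notMem h1, Finset.card_insert_of_notMem h2,
        Finset.card_insert_of_notMem h3, Finset.card_singleton]
  have hmemS : ∀ x, v x = 1 → x = a ∨ x = b := by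
    intro x hx
    have h1 : x ∈ Finset.univ.filter (fun x => v x = 1) := by simp [hx]
    rw [hS] at h1
    simpa using h1
  have hmemZ : ∀ x, v x = 0 → x = c ∨ x = e ∨ x = bar c ∨ x = bar e := by
    intro x hx
    have h1 : x ∈ Finset.univ.filter (fun x => v x = 0) := by simp [hx]
    rw [hZ] at h1
    simpa using h1
  have hT : ∀ x : R, x = a ∨ x = b ∨ x = c ∨ x = e ∨ x = bar a ∨ x = bar b ∨ x = bar c ∨ x = bar e := by
    intro x
    rcases h.val x with E | E | E
    · rcases hmemS x E with F | F
      · exact Or.inl F
      · exact Or.inr (Or.inl F)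
    · rcases hmemZ x E with F | F | F | F
      · exact Or.inr (Or.inr (Or.inl F))
      · exact Or.inr (Or.inr (Or.inr (Or.inl F)))
      · exact Or.inr (Or.inr (Or.inr (Or.inr (Or.inr (Or.inr (Or.inl F))))))
      · exact Or.inr (Or.inr (Or.inr (Or.inr (Or.inr (Or.inr (Or.inr F))))))
    · have h1 : v (bar x) = 1 := by rw [h.signed.m_bar, E]; norm_num
      rcases hmemS _ h1 with F | F
      · exact Or.inr (Or.inr (Or.inr (Or.inr (Or.inl (hbinv _ _ F)))))
      · exact Or.inr (Or.inr (Or.inr (Or.inr (Or.inr (Or.inl (hbinv _ _ F))))))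
  have hba : b ≠ bar a := by
    rintro rfl
    rw [h.signed.m_bar, va] at vb
    norm_num at vb
  -- the half system
  have hac : a ≠ c := by rintro rfl; rw [va] at vc; norm_num at vc
  have hae : a ≠ e := by rintro rfl; rw [va] at ve; norm_num at ve
  have hbc : b ≠ c := by rintro rfl; rw [vb] at vc; norm_num at vc
  have hbe : b ≠ e := by rintro rfl; rw [vb] at ve; norm_num at ve
  have hhalf : IsHalf bar ({a, b, c, e} : Finset R) := by
    refine ⟨fun x => ?_, fun x hx hbx => ?_⟩
    · simp only [Finset.mem_insert, Finset.mem_singleton]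
      rcases hT x with E | E | E | E | E | E | E | E
      · exact Or.inl (Or.inl E)
      · exact Or.inl (Or.inr (Or.inl E))
      · exact Or.inl (Or.inr (Or.inr (Or.inl E)))
      · exact Or.inl (Or.inr (Or.inr (Or.inr E)))
      · right; rw [E, h.signed.bar_bar]; exact Or.inl rfl
      · right; rw [E, h.signed.bar_bar]; exact Or.inr (Or.inl rfl)
      · right; rw [E, h.signed.bar_bar]; exact Or.inr (Or.inr (Or.inl rfl))
      · right; rw [E, h.signed.bar_bar]; exact Or.inr (Or.inr (Or.inr rfl))
    · exfalso
      simp only [Finset.mem_insert, Finset.mem_singleton] at hx hbx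
      have hvb := h.signed.m_bar x
      rcases hx with rfl | rfl | rfl | rfl
      · rcases hbx with E | E | E | E
        · exact hnf _ E
        · exact hba E.symm
        · rw [E, vc, va] at hvb; norm_num at hvb
        · rw [E, ve, va] at hvb; norm_num at hvb
      · rcases hbx with E | E | E | E
        · exact hba (hbinv _ _ E)
        · exact hnf _ E
        · rw [E, vc, vb] at hvb; norm_num at hvb
        · rw [E, ve, vb] at hvb; norm_num at hvb
      · rcases hbx with E | E | E | E
        · rw [E, vc, va] at hvb; norm_num at hvb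
        · rw [E, vc, vb] at hvb; norm_num at hvb
        · exact hnf _ E
        · exact hec.2 E.symm
      · rcases hbx with E | E | E | E
        · rw [E, ve, va] at hvb; norm_num at hvb
        · rw [E, ve, vb] at hvb; norm_num at hvb
        · exact hec.2 (hbinv _ _ E)
        · exact hnf _ E
  have hsum4 : ∀ f : R → ℤ, ∑ x ∈ ({a, b, c, e} : Finset R), f x = f a + f b + f c + f e := by
    intro f
    rw [Finset.sum_insert (by simp [hab, hac, hae]), Finset.sum_insert (by simp [hbc, hbe]),
      Finset.sum_insert (by simp [Ne.symm hec.1]), Finset.sum_singleton]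
    ring
  have horth : ∀ w, IsRel G bar v w → ∀ g : G,
      w a * v (g • a) + w b * v (g • b) + w c * v (g • c) + w e * v (g • e) = 0 := by
    intro w hw g
    have h1 := rel_half h.signed hnf hw hhalf g
    rwa [hsum4] at h1
  -- exactly two of the four values are nonzero
  have hcnt : ∀ g : G, |v (g • a)| + |v (g • b)| + |v (g • c)| + |v (g • e)| = 2 := by
    intro g
    have e1 := sum_half h.signed.bar_bar hnf hhalf (fun y => |v (g • y)|) (fun y => by
      rw [← h.signed.bar_smul, h.signed.m_bar, abs_neg])
    have e2 : ∑ y, |v (g • y)| = 4 := by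
      have e3 : ∑ y, |v (g • y)| = ∑ y, |v y| :=
        Fintype.sum_equiv (MulAction.toPerm g) _ _ (fun y => rfl)
      rw [e3]
      have e1 : ∀ y, |v y| = (if v y = 1 then (1 : ℤ) else 0) + (if v y = -1 then 1 else 0) := by
        intro y
        rcases h.val y with e | e | e <;> rw [e] <;> norm_num
      rw [Finset.sum_congr rfl (fun y _ => e1 y), Finset.sum_add_distrib, Finset.sum_boole,
        Finset.sum_boole, h.cardm, h.cardneg]
      norm_num
    rw [e2, hsum4] at e1
    linarith
  have hsum : ∀ w, IsRel G bar v w → w a + w b = 0 := by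
    intro w hw
    have h1 := horth w hw 1
    simp only [one_smul, va, vb, vc, ve] at h1
    linarith
  by_cases hcase : ∃ g : G, v (g • a) ≠ 0 ∧ v (g • b) = 0
  · obtain ⟨g, hga, hgb⟩ := hcase
    have h2 := hcnt g
    have h3 : |v (g • a)| = 1 := by
      rcases h.val (g • a) with E | E | E
      · rw [E]; norm_num
      · exact absurd E hga
      · rw [E]; norm_num
    rw [h3, hgb, abs_zero] at h2
    have hor : v (g • c) = 0 ∨ v (g • e) = 0 := by
      by_contra hne
      rw [not_or] at hne
      have e1 := Int.one_le_abs hne.1
      have e2 := Int.one_le_abs hne.2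
      omega
    have hsq : ∀ p q r s : ℤ, (r = 1 ∨ r = -1) → (s = 1 ∨ s = -1) → p * r + q * s = 0 → p ^ 2 = q ^ 2 := by
      intro p q r s hr hs hpq
      rcases hr with rfl | rfl <;> rcases hs with rfl | rfl
      · have : p = -q := by linarith
        rw [this]; ring
      · have : p = q := by linarith
        rw [this]
      · have : p = q := by linarith
        rw [this]
      · have : p = -q := by linarith
        rw [this]; ring
    have hpm : ∀ z : R, v z ≠ 0 → v z = 1 ∨ v z = -1 := by
      intro z hz
      rcases h.val z with E | E | E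
      · exact Or.inl E
      · exact absurd E hz
      · exact Or.inr E
    rcases hor with hgc | hge
    · -- partner e
      have hgene : v (g • e) ≠ 0 := by
        intro E
        rw [hgc, E] at h2
        norm_num at h2
      refine three_of_four (a := a) (b := b) (c := e) (e := c) h.signed ?_ hab.symm hba ?_ hu x y
      · intro x
        rcases hT x with E | E | E | E | E | E | E | E
        · exact Or.inl E
        · exact Or.inr (Or.inl E)
        · exact Or.inr (Or.inr (Or.inr (Or.inl E)))
        · exact Or.inr (Or.inr (Or.inl E))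
        · exact Or.inr (Or.inr (Or.inr (Or.inr (Or.inl E))))
        · exact Or.inr (Or.inr (Or.inr (Or.inr (Or.inr (Or.inl E)))))
        · exact Or.inr (Or.inr (Or.inr (Or.inr (Or.inr (Or.inr (Or.inr E))))))
        · exact Or.inr (Or.inr (Or.inr (Or.inr (Or.inr (Or.inr (Or.inl E))))))
      · intro w hw
        refine ⟨?_, ?_⟩
        · have : w a = - w b := by linarith [hsum w hw]
          rw [this]; ring
        · have h4 := horth w hw g
          rw [hgb, hgc, mul_zero, mul_zero, add_zero, add_zero] at h4
          exact hsq _ _ _ _ (hpm _ hga) (hpm _ hgene) h4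
    · have hgcne : v (g • c) ≠ 0 := by
        intro E
        rw [hge, E] at h2
        norm_num at h2
      refine three_of_four (a := a) (b := b) (c := c) (e := e) h.signed hT hab.symm hba ?_ hu x y
      intro w hw
      refine ⟨?_, ?_⟩
      · have : w a = - w b := by linarith [hsum w hw]
        rw [this]; ring
      · have h4 := horth w hw g
        rw [hgb, hge, mul_zero, mul_zero, add_zero, add_zero] at h4
        exact hsq _ _ _ _ (hpm _ hga) (hpm _ hgcne) h4
  · exfalso
    push Not at hcase
    -- also the converse
    obtain ⟨s, hs1, hs2⟩ := h.conj a b va vb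
    have hsb : s • b = a := by
      have h1 : v (s • b) = 1 := by rw [hs2, vb]
      rcases hmemS _ h1 with E | E
      · exact E
      · exfalso
        rw [← hs1] at E
        exact hab ((MulAction.injective s E).symm.trans hs1)
    have hconv : ∀ t : G, v (t • b) ≠ 0 → v (t • a) ≠ 0 := by
      intro t ht
      have h1 := hcase (t * s) (by rw [mul_smul, hs1]; exact ht)
      rw [mul_smul, hsb] at h1
      exact h1
    obtain ⟨g, hg⟩ : ∃ g : G, v (g • a) ≠ v (g • b) := by
      by_contra hall
      push Not at hall
      exact hab (h.sep a b hall)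
    have hga : v (g • a) ≠ 0 := by
      intro E
      have h1 : v (g • b) = 0 := by
        by_contra h2
        exact hconv g h2 E
      exact hg (E.trans h1.symm)
    have hgb := hcase g hga
    have h2 := hcnt g
    have e1 := Int.one_le_abs hga
    have e2 := Int.one_le_abs hgb
    have e3 := abs_nonneg (v (g • c))
    have e4 := abs_nonneg (v (g • e))
    have e5 : v (g • c) = 0 := abs_eq_zero.mp (by omega)
    have e6 : v (g • e) = 0 := abs_eq_zero.mp (by omega)
    obtain ⟨w, hw, hwa⟩ := hnz a
    have h4 := horth w hw g
    rw [e5, e6, mul_zero, mul_zero, add_zero, add_zero] at h4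
    have h5 := hsum w hw
    apply hwa
    rcases h.val (g • a) with E | E | E
    · rcases h.val (g • b) with F | F | F
      · exact absurd (E.trans F.symm) hg
      · exact absurd F hgb
      · rw [E, F] at h4; linarith
    · exact absurd E hga
    · rcases h.val (g • b) with F | F | F
      · rw [E, F] at h4; linarith
      · exact absurd F hgb
      · exact absurd (E.trans F.symm) hg

/-- For `d` an odd prime or `d = 4`, all values of a relation have the same square. -/
theorem const_sq (h : K3System G R bar v d m) (hm : 0 < m) (hd : (d.Prime ∧ Odd d) ∨ d = 4)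
    (hu : IsRel G bar v u) (x y : R) : u x ^ 2 = u y ^ 2 := by
  rcases hd with ⟨h1, h2⟩ | rfl
  · exact prime_const h hm h1 h2 hu x y
  · have hmd := m_le_d h
    by_cases hodd : Odd m
    · have h1 := core_k3 h ⟨hodd, hmd, Or.inr (Or.inr (Or.inl ⟨2, rfl⟩))⟩ hu
      rw [h1]; rfl
    · have h2 : m = 2 ∨ m = 4 := by
        rw [Nat.not_odd_iff_even, Nat.even_iff] at hodd
        omega
      rcases h2 with rfl | rfl
      · exact four_two h hu x y
      · exact four_four h hu x y

/-- Nonnegative relations of total weight less than `d` are trivial. -/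
theorem short_const (h : K3System G R bar v d m) (hm : 0 < m) (hd : (d.Prime ∧ Odd d) ∨ d = 4)
    (c : R → ℤ) (hc0 : ∀ x, 0 ≤ c x) (hcd : ∑ x, c x < d)
    (hrel : IsRel G bar v (fun x => c x - c (bar x))) (x : R) : c x = c (bar x) := by
  by_contra hne
  have hconst := const_sq h hm hd hrel
  have h1 : ∀ y, 1 ≤ c y + c (bar y) := by
    intro y
    by_contra hlt
    push Not at hlt
    have h2 := hc0 y
    have h3 := hc0 (bar y)
    have h4 : c y - c (bar y) = 0 := by
      have e1 : c y = 0 := by omega
      have e2 : c (bar y) = 0 := by omega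
      rw [e1, e2]; ring
    have h5 := hconst x y
    beta_reduce at h5
    rw [h4] at h5
    have h6 : (c x - c (bar x)) ^ 2 = 0 := by rw [h5]; ring
    have h7 := pow_eq_zero_iff (two_ne_zero) |>.mp h6
    apply hne; linarith
  have h2 : ∑ y, (c y + c (bar y)) = 2 * ∑ y, c y := by
    rw [Finset.sum_add_distrib]
    have hinv : Function.Involutive bar := h.signed.bar_bar
    have : ∑ y, c (bar y) = ∑ y, c y := Fintype.sum_equiv hinv.toPerm _ _ (fun y => rfl)
    rw [this]; ring
  have h3 : (Fintype.card R : ℤ) ≤ ∑ y, (c y + c (bar y)) := by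
    calc (Fintype.card R : ℤ) = ∑ y : R, (1 : ℤ) := by simp
      _ ≤ _ := Finset.sum_le_sum (fun y _ => h1 y)
  rw [h2, h.card] at h3
  push_cast at h3
  linarith

end

end Pool.Agent.Lib.MP81632f.K3
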