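import Pool.Agent.Lib.MP_81632f_ag.K3.Comb

/-! The stabiliser of the valuation and its Sylow subgroups. -/

namespace Pool.Agent.Lib.MP81632f.K3

open MulAction Pool.Agent.Lib.MP81632f

set_option linter.unusedSectionVars false

section

variable {G R : Type*} [Group G] [Finite G] [MulAction G R] [Fintype R] [DecidableEq R]
  {bar : R → R} {v u : R → ℤ} {d m : ℕ}

/-- The stabiliser of the function `v`. -/
def stab (G : Type*) {R : Type*} [Group G] [MulAction G R] (v : R → ℤ) : Subgroup G where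
  carrier := {g | ∀ z, v (g • z) = v z}
  one_mem' := fun z => by rw [one_smul]
  mul_mem' := by
    intro a b ha hb z
    rw [mul_smul, ha, hb]
  inv_mem' := by
    intro a ha z
    have := ha (a⁻¹ • z)
    rw [smul_inv_smul] at this
    exact this.symm

theorem mem_stab {g : G} : g ∈ stab G v ↔ ∀ z, v (g • z) = v z := Iff.rfl

/-- A relation which is nonzero modulo `l` and invariant modulo `l` under an `l`-subgroup. -/
theorem exists_fixed' (h : SignedSystem G R bar v) (l : ℕ) [hl : Fact l.Prime] (P : Subgroup G)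
    (hP : IsPGroup l P) (hu : IsRel G bar v u) (hu0 : u ≠ 0) :
    ∃ w : R → ℤ, IsRel G bar v w ∧ (∃ x, ¬ (l : ℤ) ∣ w x) ∧
      ∀ g ∈ P, ∀ x, ((w (g • x) : ℤ) : ZMod l) = (w x : ZMod l) := by
  classical
  set c : (R → ℤ) →+ (R → ZMod l) := (Int.castAddHom (ZMod l)).compLeft R with hc
  have hcapp : ∀ (f : R → ℤ) x, c f x = ((f x : ℤ) : ZMod l) := fun f x => rfl
  set U : AddSubgroup (R → ZMod l) := (relGroup G bar v).map c with hU
  have hact : ∀ (g : P) (f : U), (fun x => f.1 ((g⁻¹ : P) • x)) ∈ U := by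
    rintro g ⟨f, hf⟩
    obtain ⟨w, hw, rfl⟩ := hf
    refine ⟨fun x => w ((g⁻¹ : P) • x), ?_, ?_⟩
    · exact rel_smul h hw ((g⁻¹ : P) : G)
    · rfl
  let act : MulAction P U :=
    { smul := fun g f => ⟨fun x => f.1 ((g⁻¹ : P) • x), hact g f⟩
      one_smul := by
        intro f
        apply Subtype.ext
        funext x
        change f.1 (((1 : P)⁻¹ : P) • x) = f.1 x
        rw [inv_one, one_smul]
      mul_smul := by
        intro a b f
        apply Subtype.ext
        funext x
        change f.1 (((a * b : P)⁻¹ : P) • x)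
          = f.1 ((b⁻¹ : P) • ((a⁻¹ : P) • x))
        rw [mul_inv_rev, mul_smul] }
  have hsm : ∀ (g : P) (f : U) x, (g • f).1 x = f.1 ((g⁻¹ : P) • x) :=
    fun g f x => rfl
  -- U is nonzero
  obtain ⟨w, hw, x0, hx0⟩ := exists_primitive hu hu0 l hl.out.one_lt
  have hvU : c w ∈ U := ⟨w, hw, rfl⟩
  have hv0 : (⟨c w, hvU⟩ : U) ≠ 0 := by
    intro h0
    have h1 : c w x0 = 0 := by
      have := congrArg Subtype.val h0
      simpa using congrFun this x0
    rw [hcapp, ZMod.intCast_zmod_eq_zero_iff_dvd] at h1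
    exact hx0 h1
  have hord : addOrderOf (⟨c w, hvU⟩ : U) = l := by
    refine addOrderOf_eq_prime ?_ hv0
    apply Subtype.ext
    funext x
    simp
  have hdvd : l ∣ Nat.card U := by
    have e1 := addOrderOf_dvd_natCard (⟨c w, hvU⟩ : U)
    rwa [hord] at e1
  have h0 : (0 : U) ∈ fixedPoints P U := by
    intro g
    apply Subtype.ext
    funext x
    rw [hsm]
    rfl
  obtain ⟨b, hb, hb0⟩ := hP.exists_fixed_point_of_prime_dvd_card_of_fixed_point U hdvd h0
  obtain ⟨w, hw, hwb⟩ := b.2
  refine ⟨w, hw, ?_, ?_⟩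
  · by_contra hall
    push Not at hall
    apply hb0
    symm
    apply Subtype.ext
    rw [← hwb]
    funext x
    rw [hcapp]
    simpa [ZMod.intCast_zmod_eq_zero_iff_dvd] using hall x
  · intro g hg x
    have h1 := hb ((⟨g, hg⟩ : P)⁻¹)
    have h2 := congrArg (fun f : U => f.1 x) h1
    simp only [hsm, inv_inv] at h2
    rw [← hwb] at h2
    exact h2

/-- If `m` is a power of `l`, some `l`-subgroup of the stabiliser of `v` is transitive on the
points of value one. -/
theorem exists_pgroup (h : K3System G R bar v d m) (l : ℕ) [hl : Fact l.Prime] (k : ℕ)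
    (hm : m = l ^ k) :
    ∃ P : Subgroup G, IsPGroup l P ∧ (∀ g ∈ P, ∀ z, v (g • z) = v z) ∧
      ∀ x y, v x = 1 → v y = 1 → ∃ g ∈ P, g • x = y := by
  classical
  -- the stabiliser acts on the points of value one
  let S := {x : R // v x = 1}
  let D := stab G v
  let act : MulAction D S :=
    { smul := fun g x => ⟨g.1 • x.1, by rw [g.2]; exact x.2⟩
      one_smul := by
        intro x
        apply Subtype.ext
        change (1 : G) • x.1 = x.1
        rw [one_smul]
      mul_smul := by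
        intro a b x
        apply Subtype.ext
        change (a.1 * b.1) • x.1 = a.1 • (b.1 • x.1)
        rw [mul_smul] }
  have hsm : ∀ (g : D) (x : S), (g • x).1 = g.1 • x.1 := fun _ _ => rfl
  have htr : ∀ x y : S, ∃ g : D, g • x = y := by
    intro x y
    obtain ⟨g, hg, hg2⟩ := h.conj x.1 y.1 x.2 y.2
    exact ⟨⟨g, hg2⟩, Subtype.ext hg⟩
  have hcS : Fintype.card S = l ^ k := by
    rw [Fintype.card_subtype, h.cardm, hm]
  obtain ⟨Q⟩ : Nonempty (Sylow l D) := inferInstance
  refine ⟨(Q : Subgroup D).map D.subtype, Q.isPGroup'.map _, ?_, ?_⟩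
  · rintro g ⟨a, -, rfl⟩ z
    exact a.2 z
  · intro x y hx hy
    have h1 := orbit_dvd l Q htr ⟨x, hx⟩ k (by rw [hcS])
    have h2 : orbit (Q : Subgroup D) (⟨x, hx⟩ : S) = Set.univ := by
      rw [← Set.toFinset_inj]
      simp only [Set.toFinset_univ]
      apply Finset.eq_univ_of_card
      apply le_antisymm (Finset.card_le_univ _)
      rw [hcS]
      have h3 : Nat.card (orbit (Q : Subgroup D) (⟨x, hx⟩ : S))
          = (orbit (Q : Subgroup D) (⟨x, hx⟩ : S)).toFinset.card := by
        rw [Nat.card_coe_set_eq, Set.ncard_eq_toFinset_card']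
      rw [h3] at h1
      refine Nat.le_of_dvd (Finset.card_pos.mpr ⟨⟨x, hx⟩, ?_⟩) h1
      rw [Set.mem_toFinset]
      exact mem_orbit_self _
    have h3 : (⟨y, hy⟩ : S) ∈ orbit (Q : Subgroup D) (⟨x, hx⟩ : S) := by rw [h2]; trivial
    obtain ⟨g, hg⟩ := h3
    refine ⟨g.1.1, ⟨g.1, g.2, rfl⟩, ?_⟩
    exact congrArg Subtype.val hg

end

end Pool.Agent.Lib.MP81632f.K3
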