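import Pool.Agent.Lib.MP_81632f_ag.K3.Weil
import Pool.Agent.Lib.MP_81632f_ag.K3.Four

/-! Relations with constant squares produce an imaginary quadratic field. -/

namespace Pool.Agent.Lib.MP81632f.K3

open MulAction Polynomial Pool.Agent.Lib.MP81632f

set_option linter.unusedSectionVars false

section

variable {G R : Type*} [Group G] [Finite G] [MulAction G R] [Fintype R] [DecidableEq R]
  {bar : R → R} {v u : R → ℤ} {d m : ℕ}

theorem prime_sign (h : K3System G R bar v d m) (hm : 0 < m)
    (hd : (d.Prime ∧ Odd d) ∨ d = 4) (hu : IsRel G bar v u) (g : G) : (∀ x, u (g • x) = u x) ∨ (∀ x, u (g • x) = - u x) := by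
  obtain ⟨x0, -⟩ := h.exists_pos hm
  have hug := rel_smul h.signed hu g
  have h1 := const_sq h hm hd hu (g • x0) x0
  rcases sq_eq_sq_iff_eq_or_eq_neg.mp h1 with e | e
  · left
    have hw : IsRel G bar v ((fun x => u (g • x)) - u) := (relGroup G bar v).sub_mem hug hu
    intro x
    have h2 := const_sq h hm hd hw x x0
    simp only [Pi.sub_apply, e, sub_self] at h2
    have h3 := pow_eq_zero_iff (two_ne_zero) |>.mp (h2.trans (by ring))
    linarith
  · right
    have hw : IsRel G bar v ((fun x => u (g • x)) + u) := (relGroup G bar v).add_mem hug hu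
    intro x
    have h2 := const_sq h hm hd hw x x0
    simp only [Pi.add_apply, e, neg_add_cancel] at h2
    have h3 := pow_eq_zero_iff (two_ne_zero) |>.mp (h2.trans (by ring))
    linarith

end

section

variable {p : ℕ} [hp : Fact p.Prime] {a h : ℕ} {P : ℚ[X]} {d m : ℕ}

theorem relation_zero_of_noImaginary (hT : IsK3Type p a h P d m) (hd : (d.Prime ∧ Odd d) ∨ d = 4)
    (hP : NoImaginaryQuadratic P) {u : Rts P → ℤ} (hu : IsRel P.Gal (barR (weil_of hT)) (vK p a h P) u) :
    u = 0 := by
  classical
  by_contra hu0
  obtain ⟨x0, hx0⟩ := Function.ne_iff.mp hu0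
  have hs := k3System hT
  have hsign := fun g => prime_sign hs hT.pos hd hu g
  have hnz : ∀ x, u x ≠ 0 := by
    intro x hx
    have := const_sq hs hT.pos hd hu x0 x
    rw [hx] at this
    exact hx0 (pow_eq_zero_iff (two_ne_zero) |>.mp (this.trans (by ring)))
  -- a nonzero power sum
  obtain ⟨k, hk⟩ : ∃ k : ℕ, ∑ x : Rts P, (u x : P.SplittingField) * (x : P.SplittingField) ^ k ≠ 0 := by
    by_contra hall
    push Not at hall
    have hind := linearIndependent_monoidHom (Multiplicative ℕ) P.SplittingField
    let f : Rts P → (Multiplicative ℕ →* P.SplittingField) := fun x => powersHom P.SplittingField x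
    have hf : Function.Injective f := by
      intro x y hxy
      have := DFunLike.congr_fun hxy (Multiplicative.ofAdd 1)
      simp only [f, powersHom_apply, toAdd_ofAdd, pow_one] at this
      exact Subtype.ext this
    have hind2 := hind.comp f hf
    rw [Fintype.linearIndependent_iff] at hind2
    have h1 := hind2 (fun x => (u x : P.SplittingField)) (by
      funext k
      rw [Finset.sum_apply]
      have := hall (Multiplicative.toAdd k)
      simpa [f, powersHom_apply] using this) x0
    exact hx0 (by exact_mod_cast h1)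
  set θ : P.SplittingField := ∑ x : Rts P, (u x : P.SplittingField) * (x : P.SplittingField) ^ k with hθ
  -- action of the Galois group
  have hact : ∀ (g : P.Gal), g θ = ∑ x : Rts P, (u x : P.SplittingField) * ((g • x : Rts P) : P.SplittingField) ^ k := by
    intro g
    rw [hθ, map_sum]
    refine Finset.sum_congr rfl (fun x _ => ?_)
    rw [map_mul, map_pow, map_intCast, smul_coe]
  have hact1 : ∀ g : P.Gal, (∀ x, u (g • x) = u x) → g θ = θ := by
    intro g hg
    rw [hact, hθ]
    refine Fintype.sum_equiv (MulAction.toPerm g) _ _ (fun x => ?_)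
    simp only [MulAction.toPerm_apply, hg]
  have hact2 : ∀ g : P.Gal, (∀ x, u (g • x) = - u x) → g θ = - θ := by
    intro g hg
    rw [hact, hθ, ← Finset.sum_neg_distrib]
    refine Fintype.sum_equiv (MulAction.toPerm g) _ _ (fun x => ?_)
    simp only [MulAction.toPerm_apply, hg]
    push_cast; ring
  have hgal : IsGalois ℚ P.SplittingField :=
    IsGalois.of_separable_splitting_field (p := P) hT.irr.separable
  have hfin : FiniteDimensional ℚ P.SplittingField := IsSplittingField.finiteDimensional _ P
  -- the square is rational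
  obtain ⟨t, ht⟩ : ∃ t : ℚ, algebraMap ℚ P.SplittingField t = θ ^ 2 := by
    have h1 : θ ^ 2 ∈ (⊥ : IntermediateField ℚ P.SplittingField) := by
      rw [IsGalois.mem_bot_iff_fixed]
      intro g
      have hg : g (θ ^ 2) = (g θ) ^ 2 := map_pow g θ 2
      rcases hsign g with e | e
      · exact hg.trans (congrArg (· ^ 2) (hact1 g e))
      · exact hg.trans ((congrArg (· ^ 2) (hact2 g e)).trans (neg_sq θ))
    exact IntermediateField.mem_bot.mp h1
  -- the element lies in the field generated by a root
  have hmem : θ ∈ IntermediateField.adjoin ℚ {(x0 : P.SplittingField)} := by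
    rw [← IsGalois.fixedField_fixingSubgroup (IntermediateField.adjoin ℚ {(x0 : P.SplittingField)})]
    rw [IntermediateField.mem_fixedField_iff]
    intro g hg
    have hgx : g (x0 : P.SplittingField) = x0 := by
      rw [IntermediateField.mem_fixingSubgroup_iff] at hg
      exact hg _ (IntermediateField.subset_adjoin ℚ _ rfl)
    let g' : P.Gal := g
    have hgx' : g' • x0 = x0 := Subtype.ext hgx
    rcases hsign g' with e | e
    · exact hact1 g' e
    · exfalso
      have h1 := e x0
      rw [hgx'] at h1
      apply hnz x0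
      linarith
  -- the image in the complex numbers
  have hmem' : emb P ℂ θ ∈ IntermediateField.adjoin ℚ {emb P ℂ x0} := by
    have h1 : emb P ℂ θ ∈ (IntermediateField.adjoin ℚ {(x0 : P.SplittingField)}).map (emb P ℂ) :=
      ⟨θ, hmem, rfl⟩
    rw [IntermediateField.adjoin_map, Set.image_singleton] at h1
    exact h1
  have hsq : (emb P ℂ θ) ^ 2 = (t : ℂ) := by
    rw [← map_pow, ← ht, AlgHom.commutes]
    rfl
  have ht0 := hP _ (emb_root (K := ℂ) x0) _ hmem' t hsq
  -- complex conjugation changes the sign
  obtain ⟨σ, hσ, hσbar⟩ := exists_conj hT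
  have hσθ : σ θ = - θ := by
    apply hact2
    intro x
    rw [hσbar, hu.1]
  have hconj : (starRingEnd ℂ) (emb P ℂ θ) = - emb P ℂ θ := by
    rw [← hσ, hσθ, map_neg]
  have hne : emb P ℂ θ ≠ 0 := by
    intro e
    apply hk
    exact (emb P ℂ).toRingHom.injective (by rw [map_zero]; exact e)
  have h5 : emb P ℂ θ * (starRingEnd ℂ) (emb P ℂ θ) = (Complex.normSq (emb P ℂ θ) : ℂ) :=
    Complex.mul_conj _
  rw [hconj, mul_neg, ← pow_two, hsq] at h5
  have h6 : -(t : ℝ) = Complex.normSq (emb P ℂ θ) := by exact_mod_cast h5
  have h7 : 0 < Complex.normSq (emb P ℂ θ) := Complex.normSq_pos.mpr hne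
  have h8 : (0 : ℝ) ≤ t := by exact_mod_cast ht0
  linarith

end

end Pool.Agent.Lib.MP81632f.K3
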