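import Pool.Agent.Lib.MP_81632f_ag.K3.Alg
import Pool.Agent.Lib.MP_81632f_ag.K3.Quadratic

/-! The proof of the theorem. -/

namespace Pool.Agent.Lib.MP81632f.K3

open Polynomial Module Module.End Pool.Agent.Lib.MP81632f

set_option linter.unusedSectionVars false

section

variable {p : ℕ} [hp : Fact p.Prime] {a h : ℕ} {P : ℚ[X]} {d m : ℕ}

theorem signSeparating (hP : IsK3Type p a h P d m) (h2 : SeparatingSigns p a P) :
    SignSeparating P.Gal (barR (weil_of hP)) := by
  intro x y h3 h4
  obtain ⟨g, hg1, hg2⟩ := h2 x y (rts_root x) (rts_root y)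
    (fun e => ((samePair_iff hP _ _).mp e).elim h3 h4)
  let g' : P.Gal := g
  have hg' : ∀ z : Rts P, ((g' • z : Rts P) : P.SplittingField) = g z := fun z => rfl
  have hfix : ∀ z : Rts P, g' • z = z ↔ g z = z := by
    intro z
    rw [← Subtype.coe_inj, hg']
  refine ⟨g', fun z => ?_, ?_⟩
  · exact (samePair_iff hP _ _).mp (by rw [hg']; exact hg1 z (rts_root z))
  · rw [Ne, Ne, hfix, hfix]
    exact hg2

/-- multiplicative relations give elements of the relation lattice -/
theorem isRel_mul (hP : IsK3Type p a h P d m) (c : Rts P → ℤ) {N : ℕ} (hN : 0 < N) {M : ℤ}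
    (hc : (∏ x : Rts P, (x : P.SplittingField) ^ c x) ^ N = (p : P.SplittingField) ^ M) :
    IsRel P.Gal (barR (weil_of hP)) (vK p a h P) (fun x => c x - c (barR (weil_of hP) x)) :=
  isRel_of_mul (weil_of hP) (by have := hP.ha; omega) (slope_of hP) c hN hc

theorem rel_mul (hP : IsK3Type p a h P d m) (c : Rts P → ℤ) {N : ℕ} (hN : 0 < N) {M : ℤ}
    (hc : (∏ x : Rts P, (x : P.SplittingField) ^ c x) ^ N = (p : P.SplittingField) ^ M)
    (σ : P.Gal) : ∑ x, c x * vK p a h P (σ • x) = 0 :=
  rel_of_mul (weil_of hP) (by have := hP.ha; omega) (slope_of hP) c hN hc σ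

/-- In the range of the theorem the nonnegative relations of weight at most `i` are trivial. -/
theorem neat (hP : IsK3Type p a h P d m) (i : ℕ) (hr : InRange p a P d m i) (c : Rts P → ℤ)
    (N : ℕ) (M : ℤ) (hc0 : ∀ x, 0 ≤ c x) (hci : ∑ x, c x ≤ i) (hN : 0 < N)
    (hprod : (∏ x : Rts P, (x : P.SplittingField) ^ c x) ^ N = (p : P.SplittingField) ^ M)
    (x : Rts P) : c x = c (barR (weil_of hP) x) := by
  classical
  have hrel := isRel_mul hP c hN hprod
  have hall : (Covered d m ∨ (Odd m ∧ m < d ∧ PairTwoTransitive P.Gal (barR (weil_of hP))) ∨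
      SignSeparating P.Gal (barR (weil_of hP))) → c x = c (barR (weil_of hP) x) := by
    intro h1
    have h2 := congrFun (core_all (k3System hP) hP.pos h1 hrel) x
    simp only [Pi.zero_apply] at h2
    linarith
  rcases hr with h1 | ⟨h1, h2, h3⟩ | h1 | ⟨h1, h2⟩ | ⟨h1, h2 | h2⟩
  · exact hall (Or.inl h1)
  · exact hall (Or.inr (Or.inl ⟨h1, h2, pairTwoTransitive hP h3⟩))
  · exact hall (Or.inr (Or.inr (signSeparating hP h1)))
  · exact short_three (k3System hP) hP.pos h2 c hc0 (hci.trans (by exact_mod_cast h1))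
      (fun g => rel_mul hP c hN hprod g) hrel x
  · exact short_const (k3System hP) hP.pos h1 c hc0 (lt_of_le_of_lt hci (by exact_mod_cast h2))
      hrel x
  · have h3 := congrFun (relation_zero_of_noImaginary hP h1 h2 hrel) x
    simp only [Pi.zero_apply] at h3
    linarith

/-- The theorem. -/
theorem main (hP : IsK3Type p a h P d m) (i : ℕ) (hr : InRange p a P d m i) :
    GeneratedByPairs p a P i := by
  intro K R _ _ _ _ _ F W M N hfin hFW hN hMN hF ω hω hg
  have hM : 0 < M := Nat.pos_of_dvd_of_pos hMN hN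
  rw [← pow_mul] at hg
  have h1 := tate_comm' (weil_of hP) (fun x y N hN h2 => geomR hP hN h2) (nofixR hP) i
    (neat hP i hr) F W hFW M hM hF N hN hMN ω hω hg
  rw [← pow_mul]
  refine ⟨h1.1, ?_⟩
  have h2 := h1.2
  rw [pow_mul _ N 2] at h2
  exact h2

end

end Pool.Agent.Lib.MP81632f.K3
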