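import Pool.Agent.Lib.MP_81632f_ag.K3.Triple

/-! Short relations: prime degree, powers of two, odd prime powers. -/

namespace Pool.Agent.Lib.MP81632f.K3

open MulAction Pool.Agent.Lib.MP81632f Polynomial

set_option linter.unusedSectionVars false

section

variable {G R : Type*} [Group G] [Finite G] [MulAction G R] [Fintype R] [DecidableEq R]
  {bar : R → R} {v u : R → ℤ} {d m : ℕ}

/-- an element acting as an `l`-cycle on a half system, if `d = l` is an odd prime -/
theorem exists_cycle_half (h : K3System G R bar v d m) (hm : 0 < m) (l : ℕ) [hl : Fact l.Prime]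
    (hodd : Odd l) (hd : d = l) :
    ∃ g : G, ∃ x0, g • x0 ≠ x0 ∧ g ^ l • x0 = x0 ∧
      IsHalf bar ((Finset.range l).image (fun i => g ^ i • x0)) ∧
      Set.InjOn (fun i => g ^ i • x0) (Finset.range l : Set ℕ) := by
  classical
  obtain ⟨x0, hx0⟩ := h.exists_pos hm
  have hnf := nofix h.signed (z := x0) (by rw [hx0]; norm_num)
  have hl3 : 3 ≤ l := by
    have := hl.out.two_le
    obtain ⟨r, hr⟩ := hodd
    omega
  obtain ⟨P⟩ : Nonempty (Sylow l G) := inferInstance
  have hdv := orbit_dvd l P h.signed.trans x0 1 (by rw [h.card, hd, pow_one]; exact Dvd.intro_left 2 rfl)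
  rw [pow_one] at hdv
  -- some element of P moves x0
  have hmove : ∃ g ∈ (P : Subgroup G), g • x0 ≠ x0 := by
    by_contra hall
    push Not at hall
    have h1 : orbit (P : Subgroup G) x0 = {x0} := by
      ext y
      simp only [Set.mem_singleton_iff]
      constructor
      · rintro ⟨g, rfl⟩
        exact hall g.1 g.2
      · rintro rfl
        exact mem_orbit_self _
    rw [h1, Nat.card_coe_set_eq, Set.ncard_singleton] at hdv
    have := Nat.le_of_dvd one_pos hdv
    omega
  obtain ⟨g, hg, hgne⟩ := hmove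
  have hZP : Subgroup.zpowers g ≤ (P : Subgroup G) := by rw [Subgroup.zpowers_le]; exact hg
  have hZ : IsPGroup l (Subgroup.zpowers g) := P.isPGroup'.to_le hZP
  obtain ⟨n, hn⟩ := hZ.card_orbit x0
  set O : Finset R := (orbit (Subgroup.zpowers g) x0).toFinset with hO
  have hOcard : O.card = l ^ n := by
    rw [← hn, hO, Nat.card_coe_set_eq, Set.ncard_eq_toFinset_card']
  have hOmem : ∀ y, y ∈ O ↔ ∃ i : ℤ, g ^ i • x0 = y := by
    intro y
    rw [hO, Set.mem_toFinset]
    constructor
    · rintro ⟨⟨a, i, rfl⟩, ha⟩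
      exact ⟨i, ha⟩
    · rintro ⟨i, hi⟩
      exact ⟨⟨g ^ i, ⟨i, rfl⟩⟩, hi⟩
  have hx0O : x0 ∈ O := (hOmem x0).mpr ⟨0, by simp⟩
  have hgO : g • x0 ∈ O := (hOmem _).mpr ⟨1, by simp⟩
  have hn0 : n ≠ 0 := by
    rintro rfl
    rw [pow_zero, Finset.card_eq_one] at hOcard
    obtain ⟨a, ha⟩ := hOcard
    rw [ha, Finset.mem_singleton] at hx0O hgO
    exact hgne (hgO.trans hx0O.symm)
  have hn1 : n = 1 := by
    by_contra hn1
    have h2 : 2 ≤ n := by omega
    have h3 : l ^ 2 ≤ l ^ n := Nat.pow_le_pow_right hl.out.pos h2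
    have h4 := Finset.card_le_univ O
    rw [hOcard, h.card, hd] at h4
    nlinarith
  rw [hn1, pow_one] at hOcard
  have hper : g ^ l • x0 = x0 := by
    have e1 : Function.minimalPeriod (g • ·) x0 = l := by
      rw [minimalPeriod_eq_card, ← hOcard, hO, Set.toFinset_card]
    have e2 := MulAction.pow_period_smul g x0
    rw [MulAction.period, e1] at e2
    exact e2
  have hOimg : O = (Finset.range l).image (fun i => g ^ i • x0) := by
    ext y
    rw [hOmem, Finset.mem_image]
    constructor
    · rintro ⟨i, rfl⟩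
      have hl0 : (0 : ℤ) < l := by exact_mod_cast hl.out.pos
      refine ⟨(i % l).toNat, ?_, ?_⟩
      · have := Int.emod_lt_of_pos i hl0
        have h3 := Int.emod_nonneg i hl0.ne'
        rw [Finset.mem_range]
        omega
      · have h3 := Int.emod_nonneg i hl0.ne'
        have h4 : g ^ (i % l).toNat = g ^ (i % (l : ℤ)) := by
          rw [← zpow_natCast, Int.toNat_of_nonneg h3]
        rw [h4]
        have h5 : g ^ i = g ^ (i % (l : ℤ)) * (g ^ l) ^ (i / l) := by
          rw [← zpow_natCast g l, ← zpow_mul, ← zpow_add, Int.emod_add_mul_ediv]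
        rw [h5, mul_smul]
        have h6 : (g ^ l) ^ (i / (l : ℤ)) • x0 = x0 := by
          have : (g ^ l) ∈ stabilizer G x0 := hper
          exact (stabilizer G x0).zpow_mem this _
        rw [h6]
    · rintro ⟨i, -, rfl⟩
      exact ⟨i, by rw [zpow_natCast]⟩
  have hinj : Set.InjOn (fun i => g ^ i • x0) (Finset.range l : Set ℕ) := by
    rw [← Finset.card_image_iff, ← hOimg, hOcard, Finset.card_range]
  refine ⟨g, x0, hgne, hper, ?_, hinj⟩
  rw [← hOimg]
  -- bar does not preserve the orbit
  have hbinj : Function.Injective bar := by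
    intro x y hxy
    rw [← h.signed.bar_bar x, hxy, h.signed.bar_bar]
  have hdisj : Disjoint O (O.image bar) := by
    rw [Finset.disjoint_left]
    intro y hy hy'
    obtain ⟨z, hz, hzy⟩ := Finset.mem_image.mp hy'
    obtain ⟨i, hi⟩ := (hOmem _).mp hz
    obtain ⟨j, hj⟩ := (hOmem _).mp hy
    have hbO : ∀ w ∈ O, bar w ∈ O := by
      intro w hw
      obtain ⟨k, hk⟩ := (hOmem _).mp hw
      refine (hOmem _).mpr ⟨k - i + j, ?_⟩
      rw [zpow_add, mul_smul, hj, ← hzy, ← hi, h.signed.bar_smul, ← mul_smul, ← zpow_add,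
        sub_add_cancel, ← h.signed.bar_smul, hk]
    have h1 : ∑ y ∈ O, (1 : ZMod 2) = 0 := by
      refine Finset.sum_involution (fun y _ => bar y) ?_ ?_ ?_ ?_
      · intro y hy; decide
      · intro y hy _; exact hnf y
      · intro y hy; exact hbO y hy
      · intro y hy; exact h.signed.bar_bar y
    simp only [Finset.sum_const, nsmul_eq_mul, mul_one] at h1
    rw [ZMod.natCast_eq_zero_iff, hOcard] at h1
    obtain ⟨r, hr⟩ := hodd
    omega
  have hunion : O ∪ O.image bar = Finset.univ := by
    apply Finset.eq_univ_of_card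
    rw [Finset.card_union_of_disjoint hdisj, Finset.card_image_of_injective _ hbinj, hOcard,
      h.card, hd]
    ring
  refine ⟨fun x => ?_, fun x hx hbx => ?_⟩
  · have hx : x ∈ O ∪ O.image bar := hunion ▸ Finset.mem_univ x
    rcases Finset.mem_union.mp hx with h3 | h3
    · exact Or.inl h3
    · right
      rw [Finset.mem_image] at h3
      obtain ⟨y, hy, rfl⟩ := h3
      rw [h.signed.bar_bar]; exact hy
  · exfalso
    exact Finset.disjoint_left.mp hdisj hbx (Finset.mem_image_of_mem _ hx)

/-- If `d` is an odd prime, all values of a relation have the same square. -/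
theorem prime_const (h : K3System G R bar v d m) (hm : 0 < m) (hd : d.Prime) (hodd : Odd d)
    (hu : IsRel G bar v u) (x y : R) : u x ^ 2 = u y ^ 2 := by
  classical
  have hl : Fact d.Prime := ⟨hd⟩
  obtain ⟨g, x0, hgne, hper, hhalf, hinj⟩ := exists_cycle_half h hm d hodd rfl
  set O := (Finset.range d).image (fun i => g ^ i • x0) with hO
  obtain ⟨x1, hx1⟩ := h.exists_pos hm
  have hnf := nofix h.signed (z := x1) (by rw [hx1]; norm_num)
  set T : (R → ℚ) →ₗ[ℚ] (R → ℚ) := LinearMap.funLeft ℚ ℚ (fun x => g⁻¹ • x) with hT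
  have hTapp : ∀ f x, T f x = f (g⁻¹ • x) := fun f x => rfl
  have hTe : ∀ y, T (evec bar y) = evec bar (g • y) := fun y => evec_smul h.signed g y
  have hTpow : ∀ (i : ℕ), (T ^ i) (evec bar x0) = evec bar (g ^ i • x0) := by
    intro i
    induction i with
    | zero => simp
    | succ n ih => rw [pow_succ', Module.End.mul_apply, ih, hTe, ← mul_smul, ← pow_succ']
  set U := relSpace G bar v with hU
  have hTU : ∀ w ∈ U, T w ∈ U := fun w hw => relSpace_smul h.signed hw g⁻¹
  have hsumO : ∀ f : R → ℚ, ∑ x ∈ O, f x = ∑ i ∈ Finset.range d, f (g ^ i • x0) := by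
    intro f
    rw [hO, Finset.sum_image hinj]
  -- decomposition of antisymmetric functions
  have hdec : ∀ w ∈ U, w = ∑ i ∈ Finset.range d, w (g ^ i • x0) • (T ^ i) (evec bar x0) := by
    intro w hw
    have h1 : ∑ i ∈ Finset.range d, w (g ^ i • x0) • (T ^ i) (evec bar x0)
        = ∑ y ∈ O, w y • evec bar y := by
      rw [hO, Finset.sum_image hinj]
      exact Finset.sum_congr rfl (fun i _ => by rw [hTpow])
    rw [h1]
    funext x
    rw [Finset.sum_apply]
    simp only [Pi.smul_apply, evec, Pi.sub_apply, Pi.single_apply, smul_eq_mul, mul_sub, mul_ite,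
      mul_one, mul_zero, Finset.sum_sub_distrib]
    have e1 : ∑ y ∈ O, (if x = y then w y else 0) = if x ∈ O then w x else 0 := by
      rw [Finset.sum_ite_eq]
    have e2 : ∑ y ∈ O, (if x = bar y then w y else 0) = if bar x ∈ O then - w x else 0 := by
      have e3 : ∀ y, (x = bar y) ↔ (bar x = y) := by
        intro y
        constructor
        · rintro rfl; exact h.signed.bar_bar y
        · rintro rfl; exact (h.signed.bar_bar x).symm
      simp only [e3]
      rw [Finset.sum_ite_eq, hw.1]
    rw [e1, e2]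
    by_cases hx : x ∈ O
    · have hbx : bar x ∉ O := fun e => hnf x (hhalf.2 x hx e)
      rw [if_pos hx, if_neg hbx, sub_zero]
    · have hbx : bar x ∈ O := (hhalf.1 x).resolve_left hx
      rw [if_neg hx, if_pos hbx]; ring
  have hper' : (T ^ d) (evec bar x0) = evec bar x0 := by rw [hTpow, hper]
  -- elements of U are invariant under T
  have key : ∀ w ∈ U, T w = w := by
    intro w hw
    by_contra hne
    have hw' : w - T w ∈ U := U.sub_mem hw (hTU w hw)
    have hw'0 : w - T w ≠ 0 := by
      intro e
      exact hne (sub_eq_zero.mp e).symm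
    have hsum0 : ∑ i ∈ Finset.range d, (w - T w) (g ^ i • x0) = 0 := by
      simp only [Pi.sub_apply, hTapp, Finset.sum_sub_distrib]
      have h1 : ∀ i : ℕ, g⁻¹ • g ^ (i + 1) • x0 = g ^ i • x0 := by
        intro i
        rw [pow_succ', mul_smul, inv_smul_smul]
      obtain ⟨e, he⟩ : ∃ e, d = e + 1 := ⟨d - 1, by have := hd.pos; omega⟩
      have h2 : ∑ i ∈ Finset.range d, w (g⁻¹ • g ^ i • x0)
          = ∑ i ∈ Finset.range d, w (g ^ i • x0) := by
        rw [he, Finset.sum_range_succ', Finset.sum_range_succ]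
        congr 1
        · exact Finset.sum_congr rfl (fun i _ => by rw [h1])
        · rw [pow_zero, one_smul]
          congr 1
          rw [inv_smul_eq_iff, ← mul_smul, ← pow_succ', ← he, hper]
      rw [h2, sub_self]
    have hex : ∃ i < d, (w - T w) (g ^ i • x0) ≠ 0 := by
      by_contra hall
      push Not at hall
      apply hw'0
      rw [hdec _ hw']
      refine Finset.sum_eq_zero (fun i hi => ?_)
      rw [hall i (Finset.mem_range.mp hi), zero_smul]
    have hmem := cyc_lemma T (evec bar x0) d hd hper' U hTU (fun i => (w - T w) (g ^ i • x0))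
      (by rw [← hdec _ hw']; exact hw') hsum0 hex
    rw [hTe] at hmem
    apply hgne
    apply h.sep
    intro σ
    have h5 := hmem.2 σ
    simp only [Pi.sub_apply, sub_mul, Finset.sum_sub_distrib] at h5
    rw [sum_evec_mul h.signed, sum_evec_mul h.signed] at h5
    have h6 : (v (σ • g • x0) : ℚ) = v (σ • x0) := by linarith
    exact_mod_cast h6
  have hmem : (fun x => (u x : ℚ)) ∈ U := by
    refine ⟨fun x => ?_, fun t => ?_⟩
    · beta_reduce
      rw [hu.1]; push_cast; ring
    · have := hu.2 t
      beta_reduce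
      exact_mod_cast this
  have hinv := key _ hmem
  have h2 : ∀ x, (u (g • x) : ℚ) = u x := by
    intro x
    have := congrFun hinv (g • x)
    rw [hTapp, inv_smul_smul] at this
    exact this.symm
  have h3 : ∀ (i : ℕ), (u (g ^ i • x0) : ℚ) = u x0 := by
    intro i
    induction i with
    | zero => simp
    | succ n ih => rw [pow_succ', mul_smul, h2, ih]
  have h4 : ∀ z, u z ^ 2 = u x0 ^ 2 := by
    intro z
    rcases hhalf.1 z with e | e
    · rw [hO, Finset.mem_image] at e
      obtain ⟨i, -, rfl⟩ := e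
      have := h3 i
      have h5 : u (g ^ i • x0) = u x0 := by exact_mod_cast this
      rw [h5]
    · rw [hO, Finset.mem_image] at e
      obtain ⟨i, -, hi⟩ := e
      have := h3 i
      have h5 : u (g ^ i • x0) = u x0 := by exact_mod_cast this
      rw [hi, hu.1] at h5
      rw [← h5]; ring
  rw [h4 x, h4 y]

/-- Case `d` an odd prime: nonnegative relations of total weight less than `d` are trivial. -/
theorem short_prime (h : K3System G R bar v d m) (hm : 0 < m) (hd : d.Prime) (hodd : Odd d)
    (c : R → ℤ) (hc0 : ∀ x, 0 ≤ c x) (hcd : ∑ x, c x < d)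
    (hrel : IsRel G bar v (fun x => c x - c (bar x))) (x : R) : c x = c (bar x) := by
  by_contra hne
  have hconst := prime_const h hm hd hodd hrel
  have h1 : ∀ y, 1 ≤ c y + c (bar y) := by
    intro y
    by_contra hlt
    push Not at hlt
    have h2 := hc0 y
    have h3 := hc0 (bar y)
    have h4 : c y - c (bar y) = 0 := by
      have e1 : c y = 0 := by omega
      have e2 : c (bar y) = 0 := by omega
      rw [e1, e2]; ring
    have h5 := hconst x y
    beta_reduce at h5
    rw [h4] at h5
    have h6 : (c x - c (bar x)) ^ 2 = 0 := by rw [h5]; ring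
    have h7 := pow_eq_zero_iff (two_ne_zero) |>.mp h6
    apply hne; linarith
  have h2 : ∑ y, (c y + c (bar y)) = 2 * ∑ y, c y := by
    rw [Finset.sum_add_distrib]
    have hinv : Function.Involutive bar := h.signed.bar_bar
    have : ∑ y, c (bar y) = ∑ y, c y := Fintype.sum_equiv hinv.toPerm _ _ (fun y => rfl)
    rw [this]; ring
  have h3 : (Fintype.card R : ℤ) ≤ ∑ y, (c y + c (bar y)) := by
    calc (Fintype.card R : ℤ) = ∑ y : R, (1 : ℤ) := by simp
      _ ≤ _ := Finset.sum_le_sum (fun y _ => h1 y)
  rw [h2, h.card] at h3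
  push_cast at h3
  linarith

end

end Pool.Agent.Lib.MP81632f.K3
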