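import Pool.Agent.Lib.MP_81632f_ag.K3.Short

/-! Short relations: powers of two, odd prime powers, counting of triples. -/

namespace Pool.Agent.Lib.MP81632f.K3

open MulAction Pool.Agent.Lib.MP81632f

set_option linter.unusedSectionVars false

theorem zmod2_a : ((2 : ℕ) : ZMod 2) = 0 := by decide

theorem zmod2_b : (1 : ZMod 2) ≠ 0 := by decide

theorem zmod2_c : ∀ a : ZMod 2, a ≠ 0 → a = 1 := by decide

section

variable {G R : Type*} [Group G] [Finite G] [MulAction G R] [Fintype R] [DecidableEq R]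
  {bar : R → R} {v u : R → ℤ} {d m : ℕ}

/-- If `d` is a power of two, every relation has even weight on a half system. -/
theorem even_weight_two (h : K3System G R bar v d m) (hm : 0 < m) (k : ℕ) (hd : d = 2 ^ k)
    (hu : IsRel G bar v u) {T : Finset R} (hT : IsHalf bar T) : (2 : ℤ) ∣ ∑ x ∈ T, u x := by
  classical
  have hF : Fact (Nat.Prime 2) := ⟨Nat.prime_two⟩
  obtain ⟨x1, hx1⟩ := h.exists_pos hm
  have hnf := nofix h.signed (z := x1) (by rw [hx1]; norm_num)
  obtain ⟨P⟩ : Nonempty (Sylow 2 G) := inferInstance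
  -- the subgroup of functions modulo two orthogonal to u
  let A : AddSubgroup (R → ZMod 2) :=
    AddSubgroup.closure (Set.range (fun g : G => fun x => ((v (g • x) : ℤ) : ZMod 2)))
  have hgen : ∀ g : G, (fun x => ((v (g • x) : ℤ) : ZMod 2)) ∈ A :=
    fun g => AddSubgroup.subset_closure ⟨g, rfl⟩
  have hact : ∀ (t : G) (f : R → ZMod 2), f ∈ A → (fun x => f (t • x)) ∈ A := by
    intro t f hf
    refine AddSubgroup.closure_induction (p := fun f _ => (fun x => f (t • x)) ∈ A) ?_ ?_ ?_ ?_ hf
    · rintro _ ⟨g, rfl⟩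
      have : (fun x => ((v (g • t • x) : ℤ) : ZMod 2)) = fun x => ((v ((g * t) • x) : ℤ) : ZMod 2) := by
        funext x; rw [mul_smul]
      beta_reduce
      rw [this]
      exact hgen (g * t)
    · exact A.zero_mem
    · intro a b _ _ ha hb
      exact A.add_mem ha hb
    · intro a _ ha
      exact A.neg_mem ha
  let act : MulAction (P : Subgroup G) A :=
    { smul := fun g f => ⟨fun x => f.1 ((g⁻¹ : (P : Subgroup G)) • x),
        hact ((g⁻¹ : (P : Subgroup G)) : G) f.1 f.2⟩
      one_smul := by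
        intro f
        apply Subtype.ext
        funext x
        change f.1 (((1 : (P : Subgroup G))⁻¹ : (P : Subgroup G)) • x) = f.1 x
        rw [inv_one, one_smul]
      mul_smul := by
        intro a b f
        apply Subtype.ext
        funext x
        change f.1 (((a * b : (P : Subgroup G))⁻¹ : (P : Subgroup G)) • x)
          = f.1 ((b⁻¹ : (P : Subgroup G)) • ((a⁻¹ : (P : Subgroup G)) • x))
        rw [mul_inv_rev, mul_smul] }
  have hsm : ∀ (g : (P : Subgroup G)) (f : A) x, (g • f).1 x = f.1 ((g⁻¹ : (P : Subgroup G)) • x) :=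
    fun g f x => rfl
  have hv1 : (fun x => ((v ((1 : G) • x) : ℤ) : ZMod 2)) ∈ A := hgen 1
  have hv0 : (⟨_, hv1⟩ : A) ≠ 0 := by
    intro h0
    have h1 := congrFun (congrArg Subtype.val h0) x1
    have h2 : (1 : ZMod 2) = 0 := by simpa [hx1] using h1
    exact zmod2_b h2
  have hord : addOrderOf (⟨_, hv1⟩ : A) = 2 := by
    refine addOrderOf_eq_prime ?_ hv0
    apply Subtype.ext
    funext x
    simp only [AddSubgroup.coe_nsmul, Pi.smul_apply, nsmul_eq_mul, ZeroMemClass.coe_zero,
      Pi.zero_apply]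
    rw [zmod2_a, zero_mul]
  have hdvd : 2 ∣ Nat.card A := by
    have e1 := addOrderOf_dvd_natCard (⟨_, hv1⟩ : A)
    rwa [hord] at e1
  have h0 : (0 : A) ∈ fixedPoints (P : Subgroup G) A := by
    intro g
    apply Subtype.ext
    funext x
    rw [hsm]
    rfl
  obtain ⟨b, hb, hb0⟩ := P.isPGroup'.exists_fixed_point_of_prime_dvd_card_of_fixed_point A hdvd h0
  have hfix : ∀ g ∈ (P : Subgroup G), ∀ x, b.1 (g • x) = b.1 x := by
    intro g hg x
    have h1 := hb ((⟨g, hg⟩ : (P : Subgroup G))⁻¹)
    have h2 := congrArg (fun f : A => f.1 x) h1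
    simp only [hsm, inv_inv] at h2
    exact h2
  -- b is the constant function one
  have hconst : ∀ x, b.1 x = 1 := by
    obtain ⟨x0, hx0⟩ : ∃ x0, b.1 x0 ≠ 0 := by
      by_contra hall
      push Not at hall
      apply hb0
      symm
      apply Subtype.ext
      funext x
      exact hall x
    have hx01 : b.1 x0 = 1 := zmod2_c _ hx0
    have hdv := orbit_dvd 2 P h.signed.trans x0 (k + 1) (by rw [h.card, hd, pow_succ]; ring_nf; rfl)
    intro x
    set O : Finset R := (orbit (P : Subgroup G) x0).toFinset with hO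
    have hOcard : Nat.card (orbit (P : Subgroup G) x0) = O.card := by
      rw [hO, Nat.card_coe_set_eq, Set.ncard_eq_toFinset_card']
    rw [hOcard] at hdv
    have hOuniv : O = Finset.univ := by
      apply Finset.eq_univ_of_card
      apply le_antisymm (Finset.card_le_univ _)
      rw [h.card, hd]
      have h3 : 2 * 2 ^ k = 2 ^ (k + 1) := by ring
      rw [h3]
      refine Nat.le_of_dvd (Finset.card_pos.mpr ⟨x0, ?_⟩) hdv
      rw [hO, Set.mem_toFinset]
      exact mem_orbit_self _
    have hx : x ∈ O := hOuniv ▸ Finset.mem_univ x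
    rw [hO, Set.mem_toFinset] at hx
    obtain ⟨g, rfl⟩ := hx
    rw [← hx01]
    exact hfix g.1 g.2 x0
  -- orthogonality
  have horth : ∀ f ∈ A, ∑ x ∈ T, ((u x : ℤ) : ZMod 2) * f x = 0 := by
    intro f hf
    refine AddSubgroup.closure_induction
      (p := fun f _ => ∑ x ∈ T, ((u x : ℤ) : ZMod 2) * f x = 0) ?_ ?_ ?_ ?_ hf
    · rintro _ ⟨g, rfl⟩
      have h1 := rel_half h.signed hnf hu hT g
      have h2 := congrArg (fun n : ℤ => (n : ZMod 2)) h1
      push_cast at h2
      exact h2
    · simp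
    · intro a b _ _ ha hb
      simp only [Pi.add_apply, mul_add, Finset.sum_add_distrib, ha, hb, add_zero]
    · intro a _ ha
      simp only [Pi.neg_apply, mul_neg, Finset.sum_neg_distrib, ha, neg_zero]
  have h1 := horth b.1 b.2
  simp only [hconst, mul_one] at h1
  have h2 : ((∑ x ∈ T, u x : ℤ) : ZMod 2) = 0 := by push_cast; exact h1
  have h3 := (ZMod.intCast_zmod_eq_zero_iff_dvd (∑ x ∈ T, u x) 2).mp h2
  exact_mod_cast h3

/-- If `d = l ^ k` with `l` an odd prime and `m` is odd, every relation has even weight on some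
half system. -/
theorem even_weight_odd (h : K3System G R bar v d m) (hm : Odd m) (l : ℕ) [hl : Fact l.Prime]
    (hodd : Odd l) (k : ℕ) (hd : d = l ^ k) (hu : IsRel G bar v u) :
    ∃ T : Finset R, IsHalf bar T ∧ (2 : ℤ) ∣ ∑ x ∈ T, u x := by
  classical
  obtain ⟨x1, hx1⟩ := h.exists_pos hm.pos
  have hnf := nofix h.signed (z := x1) (by rw [hx1]; norm_num)
  obtain ⟨P⟩ : Nonempty (Sylow l G) := inferInstance
  have _ := Fintype.ofFinite G
  -- every orbit of P has l ^ k elements
  have horb : ∀ x : R, Nat.card (orbit (P : Subgroup G) x) = l ^ k := by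
    intro x
    have hdv := orbit_dvd l P h.signed.trans x k (by rw [h.card, hd]; exact Dvd.intro_left 2 rfl)
    obtain ⟨n, hn⟩ := P.isPGroup'.card_orbit x
    rw [hn] at hdv ⊢
    have h1 : k ≤ n := (Nat.pow_dvd_pow_iff_le_right hl.out.one_lt).mp hdv
    have h2 : l ^ n ≤ 2 * l ^ k := by
      rw [← hn, ← hd, ← h.card, Nat.card_coe_set_eq, Set.ncard_eq_toFinset_card']
      exact Finset.card_le_univ _
    have h3 : n = k := by
      by_contra hne
      have h4 : k + 1 ≤ n := by omega
      have h5 : l ^ (k + 1) ≤ l ^ n := Nat.pow_le_pow_right hl.out.pos h4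
      have h6 : 3 ≤ l := by
        have := hl.out.two_le
        obtain ⟨r, hr⟩ := hodd
        omega
      have h7 : 0 < l ^ k := pow_pos hl.out.pos k
      rw [pow_succ] at h5
      nlinarith
    rw [h3]
  set O : Finset R := (orbit (P : Subgroup G) x1).toFinset with hO
  have hOmem : ∀ y, y ∈ O ↔ ∃ a ∈ (P : Subgroup G), a • x1 = y := by
    intro y
    rw [hO, Set.mem_toFinset]
    constructor
    · rintro ⟨a, ha⟩
      exact ⟨a.1, a.2, ha⟩
    · rintro ⟨a, ha, hay⟩
      exact ⟨⟨a, ha⟩, hay⟩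
  have hOcard : O.card = l ^ k := by
    rw [← horb x1, hO, Nat.card_coe_set_eq, Set.ncard_eq_toFinset_card']
  have hlk : Odd (l ^ k) := hodd.pow
  have hbinj : Function.Injective bar := by
    intro x y hxy
    rw [← h.signed.bar_bar x, hxy, h.signed.bar_bar]
  have hdisj : Disjoint O (O.image bar) := by
    rw [Finset.disjoint_left]
    intro y hy hy'
    obtain ⟨z, hz, hzy⟩ := Finset.mem_image.mp hy'
    obtain ⟨a, ha, ha2⟩ := (hOmem _).mp hz
    obtain ⟨b, hb, hb2⟩ := (hOmem _).mp hy
    have hbO : ∀ w ∈ O, bar w ∈ O := by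
      intro w hw
      obtain ⟨c, hc, hc2⟩ := (hOmem _).mp hw
      refine (hOmem _).mpr ⟨c * a⁻¹ * b, (P : Subgroup G).mul_mem ((P : Subgroup G).mul_mem hc
        ((P : Subgroup G).inv_mem ha)) hb, ?_⟩
      rw [mul_smul, hb2, mul_smul, ← hzy, ← ha2, h.signed.bar_smul, inv_smul_smul,
        ← h.signed.bar_smul, hc2]
    have h1 : ∑ y ∈ O, (1 : ZMod 2) = 0 := by
      refine Finset.sum_involution (fun y _ => bar y) ?_ ?_ ?_ ?_
      · intro y hy; decide
      · intro y hy _; exact hnf y
      · intro y hy; exact hbO y hy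
      · intro y hy; exact h.signed.bar_bar y
    simp only [Finset.sum_const, nsmul_eq_mul, mul_one] at h1
    rw [ZMod.natCast_eq_zero_iff, hOcard] at h1
    obtain ⟨r, hr⟩ := hlk
    omega
  have hunion : O ∪ O.image bar = Finset.univ := by
    apply Finset.eq_univ_of_card
    rw [Finset.card_union_of_disjoint hdisj, Finset.card_image_of_injective _ hbinj, hOcard,
      h.card, hd]
    ring
  have hhalf : IsHalf bar O := by
    refine ⟨fun x => ?_, fun x hx hbx => ?_⟩
    · have hx : x ∈ O ∪ O.image bar := hunion ▸ Finset.mem_univ x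
      rcases Finset.mem_union.mp hx with h3 | h3
      · exact Or.inl h3
      · right
        rw [Finset.mem_image] at h3
        obtain ⟨y, hy, rfl⟩ := h3
        rw [h.signed.bar_bar]; exact hy
    · exfalso
      exact Finset.disjoint_left.mp hdisj hbx (Finset.mem_image_of_mem _ hx)
  refine ⟨O, hhalf, ?_⟩
  -- the sum of |v| over the half system is m
  have hvO : ∑ y ∈ O, |v y| = m := by
    have e1 := sum_half h.signed.bar_bar hnf hhalf (fun y => |v y|) (fun y => by
      rw [h.signed.m_bar, abs_neg])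
    have e2 : ∑ y, |v y| = 2 * m := by
      have e1 : ∀ y, |v y| = (if v y = 1 then (1 : ℤ) else 0) + (if v y = -1 then 1 else 0) := by
        intro y
        rcases h.val y with e | e | e <;> rw [e] <;> norm_num
      rw [Finset.sum_congr rfl (fun y _ => e1 y), Finset.sum_add_distrib, Finset.sum_boole,
        Finset.sum_boole, h.cardm, h.cardneg]
      ring
    rw [e2] at e1
    omega
  -- sum over P of |v (g x)| for x in O
  let PF : Finset G := Finset.univ.filter (fun g => g ∈ (P : Subgroup G))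
  have hPF : ∀ g, g ∈ PF ↔ g ∈ (P : Subgroup G) := by intro g; simp [PF]
  have hPconst : ∀ x ∈ O, ∑ g ∈ PF, |v (g • x)| = ∑ g ∈ PF, |v (g • x1)| := by
    intro x hx
    obtain ⟨a, ha, rfl⟩ := (hOmem x).mp hx
    refine Finset.sum_bij' (fun g _ => g * a) (fun g _ => g * a⁻¹) ?_ ?_ ?_ ?_ ?_
    · intro g hg; rw [hPF] at hg ⊢; exact (P : Subgroup G).mul_mem hg ha
    · intro g hg; rw [hPF] at hg ⊢; exact (P : Subgroup G).mul_mem hg ((P : Subgroup G).inv_mem ha)
    · intro g _; group
    · intro g _; group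
    · intro g _; rw [mul_smul]
  set A : ℤ := ∑ g ∈ PF, |v (g • x1)| with hA
  have hAeq : (l ^ k : ℤ) * A = PF.card * m := by
    have e1 : ∑ x ∈ O, ∑ g ∈ PF, |v (g • x)| = (O.card : ℤ) * A := by
      rw [Finset.sum_congr rfl hPconst, Finset.sum_const, nsmul_eq_mul]
    have e2 : ∑ x ∈ O, ∑ g ∈ PF, |v (g • x)| = (PF.card : ℤ) * m := by
      rw [Finset.sum_comm, Finset.sum_congr rfl (g := fun _ => (m : ℤ)), Finset.sum_const,
        nsmul_eq_mul]
      intro g hg
      rw [hPF] at hg
      rw [← hvO]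
      refine Finset.sum_bij' (fun x _ => g • x) (fun x _ => g⁻¹ • x) ?_ ?_ ?_ ?_ ?_
      · intro x hx
        obtain ⟨a, ha, rfl⟩ := (hOmem x).mp hx
        exact (hOmem _).mpr ⟨g * a, (P : Subgroup G).mul_mem hg ha, mul_smul _ _ _⟩
      · intro x hx
        obtain ⟨a, ha, rfl⟩ := (hOmem x).mp hx
        exact (hOmem _).mpr ⟨g⁻¹ * a, (P : Subgroup G).mul_mem ((P : Subgroup G).inv_mem hg) ha,
          mul_smul _ _ _⟩
      · intro x _; rw [inv_smul_smul]
      · intro x _; rw [smul_inv_smul]
      · intro x _; rfl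
    rw [e1, hOcard] at e2
    push_cast at e2
    exact e2
  -- A is odd
  have hPFodd : Odd (PF.card : ℤ) := by
    have e1 : PF.card = Nat.card (P : Subgroup G) := by
      rw [Nat.card_eq_fintype_card, Fintype.card_subtype]
    obtain ⟨n, hn⟩ := (IsPGroup.iff_card).mp P.isPGroup'
    rw [e1, hn]
    push_cast
    exact (by exact_mod_cast hodd : Odd (l : ℤ)).pow
  have hAodd : Odd A := by
    have h1 : Odd ((l ^ k : ℤ) * A) := by
      rw [hAeq]
      exact hPFodd.mul (by exact_mod_cast hm)
    exact (Int.odd_mul.mp h1).2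
  -- each orthogonality relation is even
  have hev : (2 : ℤ) ∣ ∑ g ∈ PF, ∑ x ∈ O, u x * |v (g • x)| := by
    refine Finset.dvd_sum (fun g _ => ?_)
    have h1 := rel_half h.signed hnf hu hhalf g
    have h2 : (2 : ℤ) ∣ ∑ x ∈ O, u x * |v (g • x)| - ∑ x ∈ O, u x * v (g • x) := by
      rw [← Finset.sum_sub_distrib]
      refine Finset.dvd_sum (fun x _ => ?_)
      rcases h.val (g • x) with e | e | e
      · rw [e]; norm_num
      · rw [e]; norm_num
      · rw [e]
        exact ⟨u x, by norm_num; ring⟩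
    rwa [h1, sub_zero] at h2
  rw [Finset.sum_comm] at hev
  have h5 : ∑ x ∈ O, ∑ g ∈ PF, u x * |v (g • x)| = A * ∑ x ∈ O, u x := by
    rw [Finset.mul_sum]
    refine Finset.sum_congr rfl (fun x hx => ?_)
    rw [← Finset.mul_sum, hPconst x hx]; ring
  rw [h5] at hev
  rcases (Int.prime_two.dvd_or_dvd hev) with h6 | h6
  · obtain ⟨r, hr⟩ := hAodd
    omega
  · exact h6

/-- a nonnegative relation of weight at most two is trivial -/
theorem weight_two (h : K3System G R bar v d m) (hm : 0 < m) (c : R → ℤ)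
    (hc0 : ∀ x, 0 ≤ c x) (hc2 : ∑ x, c x ≤ 2) (hrel : ∀ g : G, ∑ x, c x * v (g • x) = 0) (x : R) :
    c x = c (bar x) := by
  classical
  obtain ⟨x1, hx1⟩ := h.exists_pos hm
  have hnf := nofix h.signed (z := x1) (by rw [hx1]; norm_num)
  -- no single point relation
  have hone : ∀ a : R, ∃ g : G, v (g • a) ≠ 0 := by
    intro a
    obtain ⟨g, hg⟩ := h.signed.trans a x1
    exact ⟨g, by rw [hg, hx1]; norm_num⟩
  by_cases hzero : ∀ y, c y = 0
  · rw [hzero, hzero]
  push Not at hzero
  obtain ⟨a, ha⟩ := hzero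
  have ha1 : 1 ≤ c a := by have := hc0 a; omega
  set c' : R → ℤ := fun y => c y - if y = a then 1 else 0 with hc'
  have hc'0 : ∀ y, 0 ≤ c' y := by
    intro y
    simp only [hc']
    split_ifs with e
    · rw [e]; omega
    · have := hc0 y; omega
  have hsum' : ∑ y, c' y = ∑ y, c y - 1 := by
    simp only [hc', Finset.sum_sub_distrib, Finset.sum_ite_eq', Finset.mem_univ, if_true]
  have hrel' : ∀ g : G, ∑ y, c' y * v (g • y) = - v (g • a) := by
    intro g
    simp only [hc', sub_mul, Finset.sum_sub_distrib, hrel g, ite_mul, one_mul, zero_mul,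
      Finset.sum_ite_eq', Finset.mem_univ, if_true]
    ring
  by_cases hz' : ∀ y, c' y = 0
  · exfalso
    obtain ⟨g, hg⟩ := hone a
    have := hrel' g
    rw [Finset.sum_eq_zero (fun y _ => by rw [hz' y, zero_mul])] at this
    apply hg; linarith
  push Not at hz'
  obtain ⟨b, hb⟩ := hz'
  have hb1 : 1 ≤ c' b := by have := hc'0 b; omega
  have hother : ∀ y, y ≠ b → c' y = 0 := by
    intro y hy
    by_contra hne
    have h1 : 1 ≤ c' y := by have := hc'0 y; omega
    have h2 : c' y + c' b ≤ ∑ z, c' z := by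
      rw [← Finset.add_sum_erase _ _ (Finset.mem_univ b),
        ← Finset.add_sum_erase _ _ (Finset.mem_erase.mpr ⟨hy, Finset.mem_univ y⟩)]
      have : 0 ≤ ∑ z ∈ (Finset.univ.erase b).erase y, c' z := Finset.sum_nonneg (fun z _ => hc'0 z)
      linarith
    omega
  have hcb : c' b = 1 := by
    have h2 : c' b ≤ ∑ z, c' z := Finset.single_le_sum (fun z _ => hc'0 z) (Finset.mem_univ b)
    omega
  have hab : ∀ g : G, v (g • bar b) = v (g • a) := by
    intro g
    have h1 := hrel' g
    rw [Finset.sum_eq_single b (fun y _ hy => by rw [hother y hy, zero_mul])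
      (fun e => absurd (Finset.mem_univ _) e), hcb, one_mul] at h1
    rw [← h.signed.bar_smul, h.signed.m_bar, h1, neg_neg]
  have hba : bar b = a := h.sep _ _ hab
  have hbne : b ≠ a := by
    rintro rfl
    exact hnf b hba
  have hbara : bar a = b := by rw [← hba, h.signed.bar_bar]
  have hval : ∀ y, c y = (if y = a then 1 else 0) + (if y = b then 1 else 0) := by
    intro y
    have h1 : c y = c' y + if y = a then 1 else 0 := by simp only [hc']; ring
    rw [h1]
    by_cases hyb : y = b
    · rw [hyb, hcb, if_neg hbne, if_pos rfl]; ring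
    · rw [hother y hyb, if_neg hyb]; ring
  rw [hval, hval]
  have e1 : (bar x = a) ↔ (x = b) := by
    constructor
    · intro e; rw [← hbara, ← e, h.signed.bar_bar]
    · rintro rfl; exact hba
  have e2 : (bar x = b) ↔ (x = a) := by
    constructor
    · intro e; rw [← hba, ← e, h.signed.bar_bar]
    · rintro rfl; exact hbara
  simp only [e1, e2]
  ring

/-- the weight of a nonnegative function modulo two, on a half system -/
theorem weight_half (hbb : ∀ x, bar (bar x) = x) (hnf : ∀ x, bar x ≠ x) {T : Finset R}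
    (hT : IsHalf bar T) (c : R → ℤ) :
    (2 : ℤ) ∣ ∑ x, c x - ∑ x ∈ T, (c x - c (bar x)) := by
  have h1 := sum_half hbb hnf hT (fun x => c x + c (bar x)) (fun x => by rw [hbb]; ring)
  have h2 : ∑ x, (c x + c (bar x)) = 2 * ∑ x, c x := by
    rw [Finset.sum_add_distrib]
    have hinv : Function.Involutive bar := hbb
    have : ∑ y, c (bar y) = ∑ y, c y := Fintype.sum_equiv hinv.toPerm _ _ (fun y => rfl)
    rw [this]; ring
  rw [h2, Finset.sum_add_distrib] at h1
  rw [Finset.sum_sub_distrib]
  have h3 : ∑ x, c x = ∑ x ∈ T, c x + ∑ x ∈ T, c (bar x) := by linarith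
  exact ⟨∑ x ∈ T, c (bar x), by rw [h3]; ring⟩

end

end Pool.Agent.Lib.MP81632f.K3
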