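import Pool.Agent.Lib.MP_81632f_ag.K3.Extra

/-! Relations of length at most three. -/

namespace Pool.Agent.Lib.MP81632f.K3

open MulAction Pool.Agent.Lib.MP81632f

set_option linter.unusedSectionVars false

section

variable {G R : Type*} [Group G] [Finite G] [MulAction G R] [Fintype R] [DecidableEq R]
  {bar : R → R} {v u : R → ℤ} {d m : ℕ}

/-- the sum of the absolute values over the group -/
theorem sum_abs (h : K3System G R bar v d m) [Fintype G] (x : R) :
    (d : ℤ) * ∑ g : G, |v (g • x)| = (Fintype.card G : ℤ) * m := by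
  classical
  have hconst : ∀ y, ∑ g : G, |v (g • y)| = ∑ g : G, |v (g • x)| := by
    intro y
    obtain ⟨t, ht⟩ := h.signed.trans x y
    rw [← ht]
    refine Fintype.sum_equiv (Equiv.mulRight t) _ _ (fun g => ?_)
    simp only [Equiv.coe_mulRight, mul_smul]
  have h1 : ∑ y, ∑ g : G, |v (g • y)| = (Fintype.card R : ℤ) * ∑ g : G, |v (g • x)| := by
    rw [Finset.sum_congr rfl (fun y _ => hconst y), Finset.sum_const, Finset.card_univ,
      nsmul_eq_mul]
  have h2 : ∑ y, |v y| = 2 * m := by
    have e1 : ∀ y, |v y| = (if v y = 1 then (1 : ℤ) else 0) + (if v y = -1 then 1 else 0) := by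
      intro y
      rcases h.val y with e | e | e <;> rw [e] <;> norm_num
    rw [Finset.sum_congr rfl (fun y _ => e1 y), Finset.sum_add_distrib, Finset.sum_boole,
      Finset.sum_boole, h.cardm, h.cardneg]
    ring
  have h3 : ∑ y, ∑ g : G, |v (g • y)| = (Fintype.card G : ℤ) * (2 * m) := by
    rw [Finset.sum_comm, Finset.sum_congr rfl (g := fun _ => (2 * m : ℤ)), Finset.sum_const,
      Finset.card_univ, nsmul_eq_mul]
    intro g _
    rw [← h2]
    exact Fintype.sum_equiv (MulAction.toPerm g) _ _ (fun y => rfl)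
  rw [h3, h.card] at h1
  push_cast at h1
  linarith

/-- A nonnegative relation of total weight at most three is trivial if `2 d < 3 m`. -/
theorem short_relation (h : K3System G R bar v d m) (hmd : 2 * d < 3 * m) (c : R → ℤ)
    (hc0 : ∀ x, 0 ≤ c x) (hc3 : ∑ x, c x ≤ 3) (hrel : ∀ g : G, ∑ x, c x * v (g • x) = 0) (x : R) :
    c x = c (bar x) := by
  classical
  have _ := Fintype.ofFinite G
  have hm0 : 0 < m := by omega
  obtain ⟨x1, hx1⟩ := h.exists_pos hm0
  have hnf := nofix h.signed (z := x1) (by rw [hx1]; norm_num)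
  have hGpos : (0 : ℤ) < Fintype.card G := by exact_mod_cast Fintype.card_pos
  -- the weight of the nonzero values is even
  have hle : ∀ g : G, ∑ x, c x * |v (g • x)| ≤ 2 := by
    intro g
    have h1 : ∑ x, c x * |v (g • x)| ≤ 3 := by
      refine le_trans (Finset.sum_le_sum (fun x _ => ?_)) hc3
      rcases h.val (g • x) with e | e | e <;> rw [e] <;> simp [hc0 x]
    have h2 : (2 : ℤ) ∣ ∑ x, c x * |v (g • x)| - ∑ x, c x * v (g • x) := by
      rw [← Finset.sum_sub_distrib]
      refine Finset.dvd_sum (fun x _ => ?_)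
      rcases h.val (g • x) with e | e | e
      · rw [e]; norm_num
      · rw [e]; norm_num
      · rw [e]
        exact ⟨c x, by norm_num; ring⟩
    rw [hrel g, sub_zero] at h2
    omega
  have htot : (∑ x, c x) * m ≤ 2 * d := by
    have h1 : ∑ g : G, ∑ x, c x * |v (g • x)| ≤ ∑ g : G, 2 := Finset.sum_le_sum (fun g _ => hle g)
    rw [Finset.sum_const, Finset.card_univ, nsmul_eq_mul, Finset.sum_comm] at h1
    have h2 : (d : ℤ) * ∑ x, ∑ g : G, c x * |v (g • x)| = (∑ x, c x) * ((Fintype.card G : ℤ) * m) := by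
      rw [Finset.mul_sum, Finset.sum_mul]
      refine Finset.sum_congr rfl (fun x _ => ?_)
      rw [← Finset.mul_sum, ← sum_abs h x]; ring
    have h3 : (d : ℤ) * ∑ x, ∑ g : G, c x * |v (g • x)| ≤ d * ((Fintype.card G : ℤ) * 2) :=
      mul_le_mul_of_nonneg_left h1 (by positivity)
    rw [h2] at h3
    have h4 : (Fintype.card G : ℤ) * ((∑ x, c x) * m) ≤ (Fintype.card G : ℤ) * (2 * d) := by linarith
    exact le_of_mul_le_mul_left h4 hGpos
  have hc2 : ∑ x, c x ≤ 2 := by
    by_contra hlt
    push Not at hlt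
    have h1 : ∑ x, c x = 3 := by omega
    rw [h1] at htot
    have : (3 * m : ℤ) ≤ 2 * d := htot
    omega
  -- no single point relation
  have hone : ∀ a : R, ∃ g : G, v (g • a) ≠ 0 := by
    intro a
    obtain ⟨g, hg⟩ := h.signed.trans a x1
    exact ⟨g, by rw [hg, hx1]; norm_num⟩
  by_cases hzero : ∀ y, c y = 0
  · rw [hzero, hzero]
  push Not at hzero
  obtain ⟨a, ha⟩ := hzero
  have ha1 : 1 ≤ c a := by have := hc0 a; omega
  set c' : R → ℤ := fun y => c y - if y = a then 1 else 0 with hc'
  have hc'0 : ∀ y, 0 ≤ c' y := by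
    intro y
    simp only [hc']
    split_ifs with e
    · rw [e]; omega
    · have := hc0 y; omega
  have hsum' : ∑ y, c' y = ∑ y, c y - 1 := by
    simp only [hc', Finset.sum_sub_distrib, Finset.sum_ite_eq', Finset.mem_univ, if_true]
  have hrel' : ∀ g : G, ∑ y, c' y * v (g • y) = - v (g • a) := by
    intro g
    simp only [hc', sub_mul, Finset.sum_sub_distrib, hrel g, ite_mul, one_mul, zero_mul,
      Finset.sum_ite_eq', Finset.mem_univ, if_true]
    ring
  by_cases hz' : ∀ y, c' y = 0
  · exfalso
    obtain ⟨g, hg⟩ := hone a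
    have := hrel' g
    rw [Finset.sum_eq_zero (fun y _ => by rw [hz' y, zero_mul])] at this
    apply hg; linarith
  push Not at hz'
  obtain ⟨b, hb⟩ := hz'
  have hb1 : 1 ≤ c' b := by have := hc'0 b; omega
  have hother : ∀ y, y ≠ b → c' y = 0 := by
    intro y hy
    by_contra hne
    have h1 : 1 ≤ c' y := by have := hc'0 y; omega
    have h2 : c' y + c' b ≤ ∑ z, c' z := by
      rw [← Finset.add_sum_erase _ _ (Finset.mem_univ b),
        ← Finset.add_sum_erase _ _ (Finset.mem_erase.mpr ⟨hy, Finset.mem_univ y⟩)]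
      have : 0 ≤ ∑ z ∈ (Finset.univ.erase b).erase y, c' z := Finset.sum_nonneg (fun z _ => hc'0 z)
      linarith
    omega
  have hcb : c' b = 1 := by
    have h2 : c' b ≤ ∑ z, c' z := Finset.single_le_sum (fun z _ => hc'0 z) (Finset.mem_univ b)
    omega
  have hab : ∀ g : G, v (g • bar b) = v (g • a) := by
    intro g
    have h1 := hrel' g
    rw [Finset.sum_eq_single b (fun y _ hy => by rw [hother y hy, zero_mul])
      (fun e => absurd (Finset.mem_univ _) e), hcb, one_mul] at h1
    rw [← h.signed.bar_smul, h.signed.m_bar, h1, neg_neg]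
  have hba : bar b = a := h.sep _ _ hab
  have hbne : b ≠ a := by
    rintro rfl
    exact hnf b hba
  have hbara : bar a = b := by rw [← hba, h.signed.bar_bar]
  have hval : ∀ y, c y = (if y = a then 1 else 0) + (if y = b then 1 else 0) := by
    intro y
    have h1 : c y = c' y + if y = a then 1 else 0 := by simp only [hc']; ring
    rw [h1]
    by_cases hyb : y = b
    · rw [hyb, hcb, if_neg hbne, if_pos rfl]; ring
    · rw [hother y hyb, if_neg hyb]; ring
  rw [hval, hval]
  have e1 : (bar x = a) ↔ (x = b) := by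
    constructor
    · intro e; rw [← hbara, ← e, h.signed.bar_bar]
    · rintro rfl; exact hba
  have e2 : (bar x = b) ↔ (x = a) := by
    constructor
    · intro e; rw [← hba, ← e, h.signed.bar_bar]
    · rintro rfl; exact hbara
  simp only [e1, e2]
  ring

end

end Pool.Agent.Lib.MP81632f.K3
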