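import Pool.Agent.Lib.MP_81632f_ag.K3Bridge
import Pool.Agent.Lib.MP_81632f_ag.K3.Case9
import Pool.Agent.Lib.MP_81632f_ag.K3.Statement

/-! From polynomials of K3 type to signed systems. -/

namespace Pool.Agent.Lib.MP81632f.K3

open Polynomial Pool.Agent.Lib.MP81632f

set_option linter.unusedSectionVars false

section

variable {p : ℕ} [hp : Fact p.Prime] {a h : ℕ} {P : ℚ[X]} {d m : ℕ}

theorem weil_of (hP : IsK3Type p a h P d m) : IsWeil p (2 * a) P :=
  ⟨hP.irr, fun z hz => by rw [(hP.weil z hz).2, ← pow_mul, mul_comm]⟩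

open Classical in
/-- the slope function -/
noncomputable def mK (p : ℕ) [Fact p.Prime] (a h : ℕ) (z : PadicAlgCl p) : ℤ :=
  if ‖z‖ ^ h = ‖(p : PadicAlgCl p) ^ a‖ ^ (h + 1) then 1
  else if ‖z‖ ^ h = ‖(p : PadicAlgCl p) ^ a‖ ^ h then 0 else -1

theorem mK_three (z : PadicAlgCl p) : mK p a h z = 1 ∨ mK p a h z = 0 ∨ mK p a h z = -1 := by
  unfold mK
  split_ifs
  · exact Or.inl rfl
  · exact Or.inr (Or.inl rfl)
  · exact Or.inr (Or.inr rfl)

theorem mK_one (z : PadicAlgCl p) :
    mK p a h z = 1 ↔ ‖z‖ ^ h = ‖(p : PadicAlgCl p) ^ a‖ ^ (h + 1) := by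
  unfold mK
  split_ifs with h1 h2
  · exact ⟨fun _ => h1, fun _ => rfl⟩
  · exact ⟨fun h3 => by norm_num at h3, fun h3 => absurd h3 h1⟩
  · exact ⟨fun h3 => by norm_num at h3, fun h3 => absurd h3 h1⟩

theorem norm_mK (hP : IsK3Type p a h P d m) {z : PadicAlgCl p} (hz : aeval z P = 0) :
    ‖z‖ ^ h = ‖(p : PadicAlgCl p) ^ a‖ ^ ((h : ℤ) + mK p a h z) := by
  unfold mK
  split_ifs with h1 h2
  · rw [h1, ← zpow_natCast]
    push_cast
    rfl
  · rw [h2, add_zero, zpow_natCast]
  · have h3 := (hP.slope z hz).resolve_right (by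
      rintro (h4 | h4)
      · exact h2 h4
      · exact h1 h4)
    have h4 : (h : ℤ) + -1 = ((h - 1 : ℕ) : ℤ) := by
      have := hP.height
      omega
    rw [h3, h4, zpow_natCast]

theorem slope_of (hP : IsK3Type p a h P d m) : IsSlope p (2 * a) P h (mK p a h) := by
  intro z hz
  have h1 := norm_mK hP hz
  rw [mul_comm 2 h, pow_mul, h1, mul_comm 2 a, pow_mul, norm_pow ((p : PadicAlgCl p) ^ a) 2]
  generalize ‖(p : PadicAlgCl p) ^ a‖ = b
  rw [← zpow_natCast (b ^ ((h : ℤ) + mK p a h z)) 2, ← zpow_natCast b 2, ← zpow_mul, ← zpow_mul,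
    mul_comm]

/-- the slope function on the roots -/
noncomputable abbrev vK (p : ℕ) [Fact p.Prime] (a h : ℕ) (P : ℚ[X]) : Rts P → ℤ :=
  mR P (mK p a h)

theorem card_vK (hP : IsK3Type p a h P d m) :
    (Finset.univ.filter (fun x => vK p a h P x = 1)).card = m := by
  classical
  rw [← hP.count]
  have hset : {z : PadicAlgCl p | aeval z P = 0 ∧ SlopeIs p a h (h + 1) z}
      = ((Finset.univ.filter (fun x => vK p a h P x = 1)).image
          (fun x : Rts P => emb P (PadicAlgCl p) x) : Finset (PadicAlgCl p)) := by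
    ext y
    simp only [Set.mem_ofPred_eq, Finset.coe_image, Finset.coe_filter, Finset.mem_univ, true_and,
      Set.mem_image]
    constructor
    · rintro ⟨hy, hy1⟩
      obtain ⟨x, rfl⟩ := emb_surj (weil_of hP) hy
      exact ⟨x, (mK_one _).mpr hy1, rfl⟩
    · rintro ⟨x, hx, rfl⟩
      exact ⟨emb_root x, (mK_one _).mp hx⟩
  rw [hset, Set.ncard_coe_finset, Finset.card_image_of_injective]
  intro x y hxy
  exact emb_inj hxy

theorem geomR (hP : IsK3Type p a h P d m) {x y : Rts P} {N : ℕ} (hN : 0 < N)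
    (h2 : (x : P.SplittingField) ^ N = (y : P.SplittingField) ^ N) : x = y := by
  apply emb_inj (K := ℂ)
  apply hP.geom _ _ N (emb_root x) (emb_root y) hN
  rw [← map_pow, ← map_pow, h2]

theorem sepR (hP : IsK3Type p a h P d m) (x y : Rts P)
    (hxy : ∀ g : P.Gal, vK p a h P (g • x) = vK p a h P (g • y)) : x = y := by
  have h1 : ∀ σ : P.Gal, ‖emb P (PadicAlgCl p) (σ x)‖ = ‖emb P (PadicAlgCl p) (σ y)‖ := by
    intro σ
    have e1 := norm_mK hP (emb_root (K := PadicAlgCl p) (σ • x))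
    have e2 := norm_mK hP (emb_root (K := PadicAlgCl p) (σ • y))
    have e3 : mK p a h (emb P (PadicAlgCl p) (σ • x : Rts P))
        = mK p a h (emb P (PadicAlgCl p) (σ • y : Rts P)) := hxy σ
    rw [e3, ← e2] at e1
    exact (pow_left_inj₀ (norm_nonneg _) (norm_nonneg _) hP.height.ne').mp e1
  obtain ⟨N, hN, h2⟩ := root_of_unity (weil_of hP) (fun z hz => (hP.weil z hz).1) h1
  exact geomR hP hN h2

theorem k3System (hP : IsK3Type p a h P d m) [DecidableEq (Rts P)] :
    K3System P.Gal (Rts P) (barR (weil_of hP)) (vK p a h P) d m where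
  signed := signed (weil_of hP) (by have := hP.ha; omega) (slope_of hP)
  val := fun x => mK_three _
  card := by rw [card_rts (weil_of hP), hP.degree]
  cardm := card_vK hP
  sep := sepR hP
  conj := by
    intro x y hx hy
    have hx' := (mK_one (p := p) (a := a) (h := h) _).mp hx
    have hy' := (mK_one (p := p) (a := a) (h := h) _).mp hy
    obtain ⟨σ, hσ1, hσ2⟩ := exists_decomp (hP.conj _ _ (emb_root x) (emb_root y) hx' hy')
    refine ⟨σ, hσ1, fun z => ?_⟩
    have h1 : ‖emb P (PadicAlgCl p) (σ • z : Rts P)‖ = ‖emb P (PadicAlgCl p) z‖ := hσ2 z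
    unfold vK mR mK
    rw [h1]

theorem nofixR (hP : IsK3Type p a h P d m) (x : Rts P) : barR (weil_of hP) x ≠ x := by
  classical
  obtain ⟨z, hz⟩ := (k3System hP).exists_pos hP.pos
  exact nofix (k3System hP).signed (z := z) (by rw [hz]; norm_num) x

theorem samePair_iff (hP : IsK3Type p a h P d m) (z w : Rts P) :
    SamePair p a (z : P.SplittingField) w ↔ w = z ∨ w = barR (weil_of hP) z := by
  unfold SamePair
  rw [← barR_coe (weil_of hP), Subtype.coe_inj, Subtype.coe_inj]

theorem pairTwoTransitive (hP : IsK3Type p a h P d m) (h2 : DoublyTransitive p a P) :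
    PairTwoTransitive P.Gal (barR (weil_of hP)) := by
  intro x y x' y' h1 h2' h3 h4
  obtain ⟨g, hg1, hg2⟩ := h2 x y x' y' (rts_root x) (rts_root y) (rts_root x') (rts_root y')
    (fun e => ((samePair_iff hP _ _).mp e).elim h1 h2')
    (fun e => ((samePair_iff hP _ _).mp e).elim h3 h4)
  let g' : P.Gal := g
  have hg' : ∀ z : Rts P, ((g' • z : Rts P) : P.SplittingField) = g z := fun z => rfl
  exact ⟨g', (samePair_iff hP _ _).mp (by rw [hg']; exact hg1),
    (samePair_iff hP _ _).mp (by rw [hg']; exact hg2)⟩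

theorem exists_conj (hP : IsK3Type p a h P d m) :
    ∃ σ : P.Gal, (∀ y : P.SplittingField, emb P ℂ (σ y) = (starRingEnd ℂ) (emb P ℂ y)) ∧
      ∀ x : Rts P, σ • x = barR (weil_of hP) x := by
  let _ : Algebra P.SplittingField ℂ := (emb P ℂ).toRingHom.toAlgebra
  have hmap : ∀ z : P.SplittingField, algebraMap P.SplittingField ℂ z = emb P ℂ z := fun _ => rfl
  have : IsScalarTower ℚ P.SplittingField ℂ :=
    IsScalarTower.of_algebraMap_eq (fun r => by rw [hmap, AlgHom.commutes])
  have : Normal ℚ P.SplittingField := Normal.of_isSplittingField P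
  let τ' : ℂ ≃ₐ[ℚ] ℂ := Complex.conjAe.restrictScalars ℚ
  let σ : P.Gal := AlgEquiv.restrictNormal τ' P.SplittingField
  have hσ : ∀ z : P.SplittingField, emb P ℂ (σ z) = (starRingEnd ℂ) (emb P ℂ z) := by
    intro z
    exact AlgEquiv.restrictNormal_commutes τ' P.SplittingField z
  refine ⟨σ, hσ, fun x => ?_⟩
  apply emb_inj (K := ℂ)
  have hx0 : emb P ℂ x ≠ 0 := root_ne_zero (weil_of hP) (emb_root (K := ℂ) x)
  rw [smul_coe, hσ, emb_bar, eq_div_iff hx0, mul_comm, Complex.mul_conj, Complex.normSq_eq_norm_sq,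
    (weil_of hP).weil _ (emb_root (K := ℂ) x)]
  push_cast
  rfl

end

end Pool.Agent.Lib.MP81632f.K3
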